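import Pool.Agent.H988.DJ.ObD
import Mathlib.Analysis.Fourier.AddCircleMulti

/-! # The free dynamics has purely absolutely continuous spectrum -/

set_option autoImplicit false
set_option linter.unusedSectionVars false

open MeasureTheory Filter Topology
open scoped BigOperators ENNReal NNReal InnerProductSpace ComplexConjugate

namespace Pool.Agent.H988.DJ

open Pool.Agent.H5R2.NB Pool.Agent.H5R2.NBA
open Pool.Agent.K7.H83.SI

variable {d : ℕ}

/-- all vectors are ac if the point states are -/
theorem ac_of_dl {W : UG (L2 (Site d))} (h : ∀ x, sm W (dl x) ≪ volume) (u : L2 (Site d)) :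
    sm W u ≪ volume := by
  refine Measure.AbsolutelyContinuous.mk fun B _ hB0 => ?_
  have h1 : closure (Submodule.span ℂ (Set.range (dl (d := d))) : Set (L2 (Site d))) ⊆
      (nul W B : Set (L2 (Site d))) := by
    refine closure_minimal ?_ (nul_closed W B)
    have h6 : Submodule.span ℂ (Set.range (dl (d := d))) ≤ nul W B := by
      rw [Submodule.span_le]
      rintro _ ⟨y, rfl⟩
      exact mem_nul.2 (h y hB0)
    exact h6
  exact mem_nul.1 (h1 (LIMB.dl_dense d u))

/-- translation invariance of the spectral measures for a constant potential -/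
theorem sm_dl {c : ℝ} {ev : (Site d → ℝ) → UG (L2 (Site d))} (hev : ∀ V, IsGrp c V (ev V)) (o : ℝ)
    (x : Site d) : sm (ev fun _ => o) (dl x) = sm (ev fun _ => o) (dl 0) := by
  have hS := Pool.Agent.R988.NQ.sO_shift (-x)
  refine sm_ext_iff fun t => ?_
  rw [← LIMB.shift_dl x (Pool.Agent.R988.NQ.sO (-x)) hS]
  have h1 := ALL.a_COV d c ev hev (-x) _ hS (fun _ => o) t (dl 0)
  have h2 : (ev fun _ => o).U t (Pool.Agent.R988.NQ.sO (-x) (dl 0)) =
      Pool.Agent.R988.NQ.sO (-x) ((ev fun _ => o).U t (dl 0)) := h1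
  rw [h2]
  exact Pool.Agent.H988.WM.sO_iso _ _ _

/-! ### preimages of null sets -/

theorem cos_null {N : Set ℝ} (hN : volume N = 0) : volume (Real.cos ⁻¹' N) = 0 := by
  have h1 : ∀ (k : ℤ), volume ((fun y : ℝ => Real.arccos y + 2 * k * Real.pi) ''
      (N ∩ Set.Ioo (-1) 1)) = 0 := by
    intro k
    refine addHaar_image_eq_zero_of_differentiableOn_of_addHaar_eq_zero volume ?_
      (measure_mono_null Set.inter_subset_left hN)
    intro y hy
    have h2 : DifferentiableAt ℝ Real.arccos y :=
      Real.differentiableAt_arccos.2 ⟨hy.2.1.ne', hy.2.2.ne⟩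
    exact (h2.add_const _).differentiableWithinAt
  have h2 : ∀ (k : ℤ), volume ((fun y : ℝ => 2 * k * Real.pi - Real.arccos y) ''
      (N ∩ Set.Ioo (-1) 1)) = 0 := by
    intro k
    refine addHaar_image_eq_zero_of_differentiableOn_of_addHaar_eq_zero volume ?_
      (measure_mono_null Set.inter_subset_left hN)
    intro y hy
    have h2 : DifferentiableAt ℝ Real.arccos y :=
      Real.differentiableAt_arccos.2 ⟨hy.2.1.ne', hy.2.2.ne⟩
    exact (h2.const_sub _).differentiableWithinAt
  have h3 : ∀ (k : ℤ) (y : ℝ), volume ({Real.arccos y + 2 * k * Real.pi} : Set ℝ) = 0 := by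
    intro k y
    simp
  have h4 : ∀ (k : ℤ) (y : ℝ), volume ({2 * k * Real.pi - Real.arccos y} : Set ℝ) = 0 := by
    intro k y
    simp
  have hsub : Real.cos ⁻¹' N ⊆ ⋃ k : ℤ,
      ((fun y : ℝ => Real.arccos y + 2 * k * Real.pi) '' (N ∩ Set.Ioo (-1) 1)) ∪
      ((fun y : ℝ => 2 * k * Real.pi - Real.arccos y) '' (N ∩ Set.Ioo (-1) 1)) ∪
      ({Real.arccos 1 + 2 * k * Real.pi} ∪ {Real.arccos (-1) + 2 * k * Real.pi} ∪
      ({2 * k * Real.pi - Real.arccos 1} ∪ {2 * k * Real.pi - Real.arccos (-1)})) := by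
    intro x hx
    have hx1 : Real.cos x ∈ N := hx
    have e1 : Real.cos (Real.arccos (Real.cos x)) = Real.cos x :=
      Real.cos_arccos (Real.neg_one_le_cos x) (Real.cos_le_one x)
    rw [Real.cos_eq_cos_iff] at e1
    obtain ⟨k, hk⟩ := e1
    rw [Set.mem_iUnion]
    refine ⟨k, ?_⟩
    rcases eq_or_ne (Real.cos x) 1 with h | h
    · rw [h] at hk
      right
      rcases hk with hk | hk
      · left; left
        rw [hk]
        simp only [Set.mem_singleton_iff]
        ring
      · right; left
        rw [hk]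
        simp only [Set.mem_singleton_iff]
    · rcases eq_or_ne (Real.cos x) (-1) with h' | h'
      · rw [h'] at hk
        right
        rcases hk with hk | hk
        · left; right
          rw [hk]
          simp only [Set.mem_singleton_iff]
          ring
        · right; right
          rw [hk]
          simp only [Set.mem_singleton_iff]
      · have h5 : Real.cos x ∈ N ∩ Set.Ioo (-1) 1 :=
          ⟨hx1, lt_of_le_of_ne (Real.neg_one_le_cos x) (Ne.symm h'),
            lt_of_le_of_ne (Real.cos_le_one x) h⟩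
        left
        rcases hk with hk | hk
        · left
          refine ⟨Real.cos x, h5, ?_⟩
          show Real.arccos (Real.cos x) + 2 * k * Real.pi = x
          conv_rhs => rw [hk]
          ring
        · right
          refine ⟨Real.cos x, h5, ?_⟩
          show 2 * k * Real.pi - Real.arccos (Real.cos x) = x
          conv_rhs => rw [hk]
  refine measure_mono_null hsub ?_
  rw [measure_iUnion_null_iff]
  intro k
  refine measure_union_null (measure_union_null (h1 k) (h2 k))
    (measure_union_null (measure_union_null (h3 k 1) (h3 k (-1)))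
      (measure_union_null (h4 k 1) (h4 k (-1))))

/-! ### the symbol -/

open UnitAddTorus

noncomputable local instance : MeasureSpace UnitAddCircle := ⟨AddCircle.haarAddCircle⟩

local instance : Measure.IsAddHaarMeasure (volume : Measure UnitAddCircle) :=
  inferInstanceAs (Measure.IsAddHaarMeasure AddCircle.haarAddCircle)

local instance : IsProbabilityMeasure (volume : Measure UnitAddCircle) :=
  inferInstanceAs (IsProbabilityMeasure AddCircle.haarAddCircle)

/-- the symbol in one dimension -/
noncomputable def lam1 (θ : UnitAddCircle) : ℝ := 2 - 2 * (fourier 1 θ : ℂ).re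

theorem lam1_cont : Continuous lam1 := by
  unfold lam1
  fun_prop

/-- the energy of the momentum `θ` -/
noncomputable def lamd (θ : UnitAddTorus (Fin d)) : ℝ := ∑ i, lam1 (θ i)

theorem lamd_cont : Continuous (lamd (d := d)) := by
  unfold lamd
  exact continuous_finsetSum _ fun i _ => lam1_cont.comp (continuous_apply i)

theorem lam1_coe (x : ℝ) : lam1 (x : UnitAddCircle) = 2 - 2 * Real.cos (2 * Real.pi * x) := by
  unfold lam1
  rw [fourier_coe_apply]
  congr 2
  rw [show (2 * Real.pi * Complex.I * ((1 : ℤ) : ℂ) * (x : ℂ) / ((1 : ℝ) : ℂ)) =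
    ((2 * Real.pi * x : ℝ) : ℂ) * Complex.I by push_cast; ring]
  rw [Complex.exp_ofReal_mul_I_re]

theorem lam1_null {N : Set ℝ} (hN : volume N = 0) : volume (lam1 ⁻¹' N) = 0 := by
  -- a measurable null set
  wlog hm : MeasurableSet N with H
  · exact measure_mono_null (Set.preimage_mono (subset_toMeasurable volume N))
      (H (by rw [measure_toMeasurable]; exact hN) (measurableSet_toMeasurable volume N))
  have h0 : (AddCircle.haarAddCircle : Measure UnitAddCircle) =
      Measure.map (fun x : ℝ => (x : UnitAddCircle)) (volume.restrict (Set.Ioc (0 : ℝ) (0 + 1))) := by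
    have h := (AddCircle.measurePreserving_mk 1 0).map_eq
    rw [AddCircle.volume_eq_smul_haarAddCircle, ENNReal.ofReal_one, one_smul] at h
    exact h.symm
  show AddCircle.haarAddCircle (lam1 ⁻¹' N) = 0
  rw [h0, Measure.map_apply AddCircle.measurable_mk' (lam1_cont.measurable hm)]
  refine Measure.absolutelyContinuous_of_le Measure.restrict_le_self ?_
  have h1 : (fun x : ℝ => (x : UnitAddCircle)) ⁻¹' (lam1 ⁻¹' N) =
      (fun x : ℝ => (2 * Real.pi) * x) ⁻¹' (Real.cos ⁻¹' ((fun y : ℝ => (-2) * y) ⁻¹'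
        ((fun y : ℝ => 2 + y) ⁻¹' N))) := by
    ext x
    simp only [Set.mem_preimage, lam1_coe]
    have : 2 - 2 * Real.cos (2 * Real.pi * x) = 2 + -2 * Real.cos (2 * Real.pi * x) := by ring
    rw [this]
  rw [h1, Real.volume_preimage_mul_left (by positivity)]
  have h2 : volume ((fun y : ℝ => (-2) * y) ⁻¹' ((fun y : ℝ => 2 + y) ⁻¹' N)) = 0 := by
    rw [Real.volume_preimage_mul_left (by norm_num), measure_preimage_add, hN, mul_zero]
  rw [cos_null h2, mul_zero]

theorem lamd_null (hd : 1 ≤ d) {N : Set ℝ} (hm : MeasurableSet N) (hN : volume N = 0) :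
    volume (lamd (d := d) ⁻¹' N) = 0 := by
  obtain ⟨n, rfl⟩ : ∃ n, d = n + 1 := ⟨d - 1, by omega⟩
  have hmp := volume_preserving_piFinSuccAbove (fun _ : Fin (n + 1) => UnitAddCircle) 0
  set e := MeasurableEquiv.piFinSuccAbove (fun _ : Fin (n + 1) => UnitAddCircle) 0 with he
  have h1 : lamd (d := n + 1) ⁻¹' N =
      e ⁻¹' {p : UnitAddCircle × UnitAddTorus (Fin n) | lam1 p.1 + lamd p.2 ∈ N} := by
    ext θ
    simp only [Set.mem_preimage, Set.mem_ofPred_eq]
    have : lamd θ = lam1 (e θ).1 + lamd (e θ).2 := by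
      unfold lamd
      rw [Fin.sum_univ_succ]
      rfl
    rw [this]
  have hms : MeasurableSet {p : UnitAddCircle × UnitAddTorus (Fin n) | lam1 p.1 + lamd p.2 ∈ N} :=
    ((lam1_cont.measurable.comp measurable_fst).add
      (lamd_cont.measurable.comp measurable_snd)) hm
  rw [h1, hmp.measure_preimage hms.nullMeasurableSet]
  have hsw := Measure.measurePreserving_swap (μ := (volume : Measure (UnitAddTorus (Fin n))))
    (ν := (volume : Measure UnitAddCircle))
  show ((volume : Measure UnitAddCircle).prod (volume : Measure (UnitAddTorus (Fin n)))) _ = 0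
  rw [← hsw.measure_preimage hms.nullMeasurableSet,
    Measure.measure_prod_null (measurable_swap hms)]
  refine Eventually.of_forall fun q => ?_
  show volume (lam1 ⁻¹' ((fun y : ℝ => y + lamd q) ⁻¹' N)) = 0
  refine lam1_null ?_
  rw [measure_preimage_add_right]
  exact hN

/-! ### the free wave -/

/-- `e^{-itλ}` -/
noncomputable def wv (t : ℝ) : C(UnitAddTorus (Fin d), ℂ) :=
  ⟨fun θ => Complex.exp (-(Complex.I * t * lamd θ)), by
    have := lamd_cont (d := d)
    fun_prop⟩

theorem wv_norm (t : ℝ) (θ : UnitAddTorus (Fin d)) : ‖wv t θ‖ = 1 := by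
  show ‖Complex.exp (-(Complex.I * t * lamd θ))‖ = 1
  rw [Complex.norm_exp]
  simp

/-- the free wave which starts at the origin -/
noncomputable def wl (t : ℝ) : L2 (Site d) :=
  mFourierBasis.repr (ContinuousMap.toLp 2 volume ℂ (wv t))

theorem wl_apply (t : ℝ) (x : Site d) :
    (wl t : L2 (Site d)) x = ∫ θ : UnitAddTorus (Fin d), mFourier (-x) θ * wv t θ := by
  unfold wl
  rw [mFourierBasis_repr, mFourierCoeff_toLp]
  rfl

theorem wl_zero : (wl 0 : L2 (Site d)) = dl 0 := by
  have h1 : (wv 0 : C(UnitAddTorus (Fin d), ℂ)) = mFourier 0 := by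
    rw [mFourier_zero]
    ext θ
    show Complex.exp (-(Complex.I * (0 : ℝ) * lamd θ)) = 1
    simp
  unfold wl dl
  rw [h1]
  have h2 : (ContinuousMap.toLp 2 volume ℂ (mFourier (0 : Fin d → ℤ)) :
      Lp ℂ 2 (volume : Measure (UnitAddTorus (Fin d)))) = mFourierBasis (0 : Fin d → ℤ) := by
    rw [coe_mFourierBasis]
  rw [h2, HilbertBasis.repr_self]

theorem wl_norm (t : ℝ) : ‖(wl t : L2 (Site d))‖ ≤ 1 := by
  unfold wl
  rw [LinearIsometryEquiv.norm_map]
  have h1 : ‖(wv t : C(UnitAddTorus (Fin d), ℂ))‖ ≤ 1 :=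
    (ContinuousMap.norm_le _ zero_le_one).2 fun θ => (wv_norm t θ).le
  have h2 : ‖(ContinuousMap.toLp 2 volume ℂ :
      C(UnitAddTorus (Fin d), ℂ) →L[ℂ] Lp ℂ 2 (volume : Measure (UnitAddTorus (Fin d))))‖ ≤ 1 := by
    refine (ContinuousMap.toLp_norm_le (volume : Measure (UnitAddTorus (Fin d)))).trans ?_
    have h3 : measureUnivNNReal (volume : Measure (UnitAddTorus (Fin d))) = 1 := by
      unfold measureUnivNNReal
      rw [measure_univ, ENNReal.toNNReal_one]
    rw [h3]
    simp
  refine (ContinuousLinearMap.le_opNorm _ _).trans ?_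
  calc _ ≤ (1 : ℝ) * 1 := mul_le_mul h2 h1 (norm_nonneg _) zero_le_one
    _ = 1 := one_mul 1

theorem ci {f : UnitAddTorus (Fin d) → ℂ} (hf : Continuous f) : Integrable f volume :=
  hf.integrable_of_hasCompactSupport (HasCompactSupport.of_compactSpace _)

theorem wl_hop (t : ℝ) (x : Site d) :
    hopf (-1) (fun y => (wl t : L2 (Site d)) y) x + ((2 * d : ℝ) : ℂ) * (wl t : L2 (Site d)) x =
      ∫ θ : UnitAddTorus (Fin d), mFourier (-x) θ * (lamd θ * wv t θ) := by
  have hw : Continuous fun θ : UnitAddTorus (Fin d) => wv t θ := (wv t).continuous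
  have hx : ∀ y : Site d, Continuous fun θ : UnitAddTorus (Fin d) => mFourier (-y) θ * wv t θ :=
    fun y => (mFourier (-y)).continuous.mul hw
  have e1 : ∀ θ : UnitAddTorus (Fin d), mFourier (-x) θ * (lamd θ * wv t θ) =
      (-1 : ℂ) * (∑ i : Fin d, (mFourier (-(x + Pi.single i 1)) θ * wv t θ +
        mFourier (-(x - Pi.single i 1)) θ * wv t θ)) +
        (2 * d : ℂ) * (mFourier (-x) θ * wv t θ) := by
    intro θ
    have e2 : ∀ i : Fin d, mFourier (-(x + Pi.single i 1)) θ * wv t θ +
        mFourier (-(x - Pi.single i 1)) θ * wv t θ =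
        (mFourier (-x) θ * wv t θ) * ((2 * (fourier 1 (θ i) : ℂ).re : ℝ) : ℂ) := by
      intro i
      have e3 : mFourier (-(x + Pi.single i 1)) θ =
          mFourier (-x) θ * conj (fourier 1 (θ i) : ℂ) := by
        rw [← mFourier_single, ← mFourier_neg, ← mFourier_add]
        congr 2
        abel
      have e4 : mFourier (-(x - Pi.single i 1)) θ = mFourier (-x) θ * (fourier 1 (θ i) : ℂ) := by
        rw [← mFourier_single, ← mFourier_add]
        congr 2
        abel
      rw [e3, e4]
      have e5 : conj (fourier 1 (θ i) : ℂ) + (fourier 1 (θ i) : ℂ) =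
          ((2 * (fourier 1 (θ i) : ℂ).re : ℝ) : ℂ) := by
        rw [add_comm, Complex.add_conj]
      rw [← e5]
      ring
    simp only [e2]
    rw [← Finset.mul_sum]
    have e6 : ((lamd θ : ℝ) : ℂ) = 2 * d - ∑ i : Fin d, ((2 * (fourier 1 (θ i) : ℂ).re : ℝ) : ℂ) := by
      unfold lamd lam1
      push_cast
      rw [Finset.sum_sub_distrib, Finset.sum_const, Finset.card_univ, Fintype.card_fin,
        nsmul_eq_mul]
      ring
    rw [e6]
    ring
  simp only [e1]
  rw [integral_add, integral_const_mul, integral_const_mul, integral_finsetSum]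
  · unfold hopf
    congr 1
    · congr 1
      · push_cast
        ring
      · refine Finset.sum_congr rfl fun i _ => ?_
        rw [integral_add (ci (hx _)) (ci (hx _))]
        show (wl t : L2 (Site d)) (x + Pi.single i 1) + (wl t : L2 (Site d)) (x - Pi.single i 1) = _
        rw [wl_apply, wl_apply]
    · rw [wl_apply]
      push_cast
      ring
  · exact fun i _ => (ci (hx _)).add (ci (hx _))
  · refine Integrable.const_mul ?_ _
    exact integrable_finsetSum _ fun i _ => (ci (hx _)).add (ci (hx _))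
  · exact (ci (hx _)).const_mul _

theorem wl_deriv (t : ℝ) (x : Site d) : HasDerivAt (fun s => (wl s : L2 (Site d)) x)
    (-Complex.I * ∫ θ : UnitAddTorus (Fin d), mFourier (-x) θ * (lamd θ * wv t θ)) t := by
  have hl := lamd_cont (d := d)
  have hm : Continuous fun θ : UnitAddTorus (Fin d) => mFourier (-x) θ := (mFourier (-x)).continuous
  have hF : ∀ s : ℝ, Continuous fun θ : UnitAddTorus (Fin d) => mFourier (-x) θ * wv s θ :=
    fun s => hm.mul (wv s).continuous
  have hF' : ∀ s : ℝ, Continuous fun θ : UnitAddTorus (Fin d) =>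
      -Complex.I * (mFourier (-x) θ * (lamd θ * wv s θ)) := fun s => by
    have := (wv (d := d) s).continuous
    fun_prop
  have h := hasDerivAt_integral_of_dominated_loc_of_deriv_le (μ := (volume : Measure
    (UnitAddTorus (Fin d)))) (F := fun (s : ℝ) θ => mFourier (-x) θ * wv s θ)
    (F' := fun (s : ℝ) θ => -Complex.I * (mFourier (-x) θ * (lamd θ * wv s θ)))
    (x₀ := t) (s := Set.univ) (bound := fun θ => ‖(lamd θ : ℂ)‖) Filter.univ_mem
    (Eventually.of_forall fun s => (hF s).aestronglyMeasurable) (ci (hF t))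
    (hF' t).aestronglyMeasurable ?_ ?_ ?_
  · rw [← integral_const_mul]
    refine h.2.congr_of_eventuallyEq (Eventually.of_forall fun s => ?_)
    exact wl_apply s x
  · refine Eventually.of_forall fun θ s _ => ?_
    rw [norm_mul, norm_mul, norm_mul, norm_neg, Complex.norm_I, wv_norm, one_mul, mul_one]
    have h1 : ‖mFourier (-x) θ‖ ≤ 1 :=
      ((mFourier (-x)).norm_coe_le_norm θ).trans (le_of_eq mFourier_norm)
    nlinarith [norm_nonneg ((lamd θ : ℝ) : ℂ)]
  · exact (ci (f := fun θ => ((lamd θ : ℝ) : ℂ)) (by fun_prop)).norm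
  · refine Eventually.of_forall fun θ s _ => ?_
    have h1 : HasDerivAt (fun s : ℝ => -(Complex.I * (s : ℂ) * lamd θ)) (-(Complex.I * lamd θ)) s := by
      have h2 : HasDerivAt (fun s : ℝ => (s : ℂ)) 1 s := Complex.ofRealCLM.hasDerivAt
      have h3 := ((h2.const_mul Complex.I).mul_const ((lamd θ : ℝ) : ℂ)).neg
      rwa [mul_one] at h3
    have h4 := (h1.cexp).const_mul (mFourier (-x) θ)
    refine h4.congr_deriv ?_
    show _ = -Complex.I * (mFourier (-x) θ * (lamd θ * Complex.exp (-(Complex.I * s * lamd θ))))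
    ring

theorem wl_sol : IsSol (-1) (fun _ : Site d => (2 * d : ℝ)) (fun t => wl t) (fun _ => 0) := by
  refine ⟨fun T => ⟨1, fun t _ => wl_norm t⟩, fun t x => ?_⟩
  have h := wl_deriv t x
  rw [← wl_hop] at h
  refine h.congr_deriv ?_
  simp

theorem wl_eq {W : UG (L2 (Site d))} (hW : IsGrp (-1) (fun _ => (2 * d : ℝ)) W) (t : ℝ) :
    W.U t (dl 0) = wl t := by
  have h := ALL.a_UN d (-1) _ W hW (fun t => wl t) (fun _ => 0) continuous_const wl_sol t
  simpa [wl_zero] using h.symm

/-- the spectral measure of the point state -/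
theorem sm_free {W : UG (L2 (Site d))} (hW : IsGrp (-1) (fun _ => (2 * d : ℝ)) W) :
    sm W (dl 0) = Measure.map lamd (volume : Measure (UnitAddTorus (Fin d))) := by
  have hp : IsProbabilityMeasure (Measure.map lamd (volume : Measure (UnitAddTorus (Fin d)))) :=
    Measure.isProbabilityMeasure_map lamd_cont.aemeasurable
  refine sm_eq ⟨inferInstance, fun t => ?_⟩
  rw [wl_eq hW, integral_map lamd_cont.aemeasurable (by fun_prop), SYM.inner_dl, wl_apply]
  refine integral_congr_ae (Eventually.of_forall fun θ => ?_)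
  show mFourier (-0) θ * Complex.exp (-(Complex.I * t * lamd θ)) = _
  rw [neg_zero, mFourier_zero, ContinuousMap.one_apply, one_mul]

/-- **the free dynamics has purely absolutely continuous spectrum** -/
theorem free_ac (hd : 1 ≤ d) {ev : (Site d → ℝ) → UG (L2 (Site d))}
    (hev : ∀ V, IsGrp (-1) V (ev V)) (u : L2 (Site d)) :
    sm (ev fun _ => (2 * d : ℝ)) u ≪ volume := by
  refine ac_of_dl (fun x => ?_) u
  rw [sm_dl hev, sm_free (hev _)]
  refine Measure.AbsolutelyContinuous.mk fun N hN h0 => ?_
  rw [Measure.map_apply lamd_cont.measurable hN]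
  exact lamd_null hd hN h0

end Pool.Agent.H988.DJ
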