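import Pool.Agent.H988.DJ.Mai

/-! # The mean wave -/

set_option autoImplicit false
set_option linter.unusedSectionVars false

open MeasureTheory Filter Topology
open scoped BigOperators ENNReal NNReal InnerProductSpace ComplexConjugate

namespace Pool.Agent.H988.DJ

open Pool.Agent.H5R2.NB Pool.Agent.H5R2.NBA Pool.Agent.H988.WM Pool.Agent.H988.RS

variable {d : ℕ}

/-- if the averages tend to zero in mean square for independent copies, then the mean wave decays -/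
theorem mean_of_disj {W : (Site d → ℝ) → UG (L2 (Site d))} {P : Measure (Site d → ℝ)}
    [IsProbabilityMeasure P]
    (hW : Continuous fun p : (Site d → ℝ) × ℝ × L2 (Site d) => (W p.1).U p.2.1 p.2.2)
    (ψ : L2 (Site d))
    (h : Tendsto (fun T : ℝ => ∫⁻ p, ‖avT (W p.1) (W p.2) T ψ‖ₑ ^ 2 ∂(P.prod P)) atTop (𝓝 0)) :
    Tendsto (fun T : ℝ => T⁻¹ * ∫ t in (0 : ℝ)..T, ‖∫ ω, (W ω).U t ψ ∂P‖ ^ 2) atTop (𝓝 0) := by
  have hcU : ∀ {α : Type} [TopologicalSpace α] {f : α → (Site d → ℝ)} {s : α → ℝ}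
      {g : α → L2 (Site d)}, Continuous f → Continuous s → Continuous g →
      Continuous fun a => (W (f a)).U (s a) (g a) := fun hf hs hg =>
    hW.comp (hf.prodMk (hs.prodMk hg))
  -- joint continuity
  have hqc : Continuous fun p : ℝ × ((Site d → ℝ) × (Site d → ℝ)) =>
      q (W p.2.1) (W p.2.2) ψ p.1 := by
    unfold q
    exact hcU (continuous_fst.comp continuous_snd) continuous_fst.neg
      (hcU (continuous_snd.comp continuous_snd) continuous_fst continuous_const)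
  have hUi : ∀ t, Integrable (fun ω => (W ω).U t ψ) P := fun t =>
    Integrable.of_bound (hcU continuous_id continuous_const continuous_const).aestronglyMeasurable
      ‖ψ‖ (Eventually.of_forall fun ω => ((W ω).norm' t ψ).le)
  -- the square as a double integral
  have h1 : ∀ t, ((‖∫ ω, (W ω).U t ψ ∂P‖ ^ 2 : ℝ) : ℂ) =
      ∫ p, ⟪ψ, q (W p.1) (W p.2) ψ t⟫_ℂ ∂(P.prod P) := by
    intro t
    have e1 : ((‖∫ ω, (W ω).U t ψ ∂P‖ ^ 2 : ℝ) : ℂ) =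
        ⟪∫ ω, (W ω).U t ψ ∂P, ∫ ω, (W ω).U t ψ ∂P⟫_ℂ := by
      rw [inner_self_eq_norm_sq_to_K]
      push_cast
      rfl
    have e2 : ⟪∫ ω, (W ω).U t ψ ∂P, ∫ ω, (W ω).U t ψ ∂P⟫_ℂ =
        ∫ ω', ⟪(W ω').U t ψ, ∫ ω, (W ω).U t ψ ∂P⟫_ℂ ∂P := by
      have h2 := integral_inner (𝕜 := ℂ) (hUi t) (∫ ω, (W ω).U t ψ ∂P)
      rw [← inner_conj_symm, ← h2, ← integral_conj]
      refine integral_congr_ae (Eventually.of_forall fun ω => ?_)
      show conj ⟪∫ ω, (W ω).U t ψ ∂P, (W ω).U t ψ⟫_ℂ = ⟪(W ω).U t ψ, ∫ ω, (W ω).U t ψ ∂P⟫_ℂ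
      rw [inner_conj_symm]
    have e3 : ∀ ω', ⟪(W ω').U t ψ, ∫ ω, (W ω).U t ψ ∂P⟫_ℂ =
        ∫ ω, ⟪ψ, q (W ω') (W ω) ψ t⟫_ℂ ∂P := by
      intro ω'
      rw [← integral_inner (𝕜 := ℂ) (hUi t)]
      refine integral_congr_ae (Eventually.of_forall fun ω => ?_)
      show ⟪(W ω').U t ψ, (W ω).U t ψ⟫_ℂ = ⟪ψ, (W ω').U (-t) ((W ω).U t ψ)⟫_ℂ
      rw [← ANTI.inner_adj]
    rw [e1, e2]
    simp only [e3]
    have hi : Integrable (fun p : (Site d → ℝ) × (Site d → ℝ) => ⟪ψ, q (W p.1) (W p.2) ψ t⟫_ℂ)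
        (P.prod P) := by
      refine Integrable.of_bound (C := ‖ψ‖ * ‖ψ‖) ?_ (Eventually.of_forall fun p => ?_)
      · have hc : Continuous fun p : (Site d → ℝ) × (Site d → ℝ) => q (W p.1) (W p.2) ψ t :=
          hqc.comp (continuous_const.prodMk continuous_id)
        exact (continuous_const.inner hc).aestronglyMeasurable
      · refine (norm_inner_le_norm _ _).trans ?_
        rw [q_norm]
    exact (integral_prod _ hi).symm
  -- Fubini
  have h2 : ∀ T : ℝ, 0 < T → ((T⁻¹ * ∫ t in (0 : ℝ)..T, ‖∫ ω, (W ω).U t ψ ∂P‖ ^ 2 : ℝ) : ℂ) =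
      ∫ p, ⟪ψ, avT (W p.1) (W p.2) T ψ⟫_ℂ ∂(P.prod P) := by
    intro T hT
    have e1 : ((∫ t in (0 : ℝ)..T, ‖∫ ω, (W ω).U t ψ ∂P‖ ^ 2 : ℝ) : ℂ) =
        ∫ t in (0 : ℝ)..T, ∫ p, ⟪ψ, q (W p.1) (W p.2) ψ t⟫_ℂ ∂(P.prod P) := by
      rw [← intervalIntegral.integral_ofReal]
      exact intervalIntegral.integral_congr fun t _ => h1 t
    have e2 : ∀ p : (Site d → ℝ) × (Site d → ℝ), ⟪ψ, avT (W p.1) (W p.2) T ψ⟫_ℂ =
        (T : ℂ)⁻¹ * ∫ t in (0 : ℝ)..T, ⟪ψ, q (W p.1) (W p.2) ψ t⟫_ℂ := by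
      intro p
      unfold avT
      rw [inner_smul_right]
      congr 1
      exact ((innerSL ℂ ψ).intervalIntegral_comp_comm
        ((q_cont (W p.1) (W p.2) ψ).intervalIntegrable (μ := volume) 0 T)).symm
    simp only [e2]
    rw [integral_const_mul, Complex.ofReal_mul, Complex.ofReal_inv, e1]
    congr 1
    simp only [intervalIntegral.integral_of_le hT.le]
    refine integral_integral_swap ?_
    have hfin : IsFiniteMeasure (volume.restrict (Set.Ioc (0 : ℝ) T)) := ⟨by simp⟩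
    refine Integrable.of_bound (C := ‖ψ‖ * ‖ψ‖) ?_ (Eventually.of_forall fun p => ?_)
    · have hc : Continuous fun p : ℝ × ((Site d → ℝ) × (Site d → ℝ)) =>
          ⟪ψ, q (W p.2.1) (W p.2.2) ψ p.1⟫_ℂ := continuous_const.inner hqc
      exact hc.aestronglyMeasurable
    · show ‖⟪ψ, q (W p.2.1) (W p.2.2) ψ p.1⟫_ℂ‖ ≤ ‖ψ‖ * ‖ψ‖
      refine (norm_inner_le_norm _ _).trans ?_
      rw [q_norm]
  -- the bound
  have h3 : ∀ T : ℝ, 0 < T → ‖T⁻¹ * ∫ t in (0 : ℝ)..T, ‖∫ ω, (W ω).U t ψ ∂P‖ ^ 2‖ₑ ≤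
      ‖ψ‖ₑ * (∫⁻ p, ‖avT (W p.1) (W p.2) T ψ‖ₑ ^ 2 ∂(P.prod P)) ^ (2⁻¹ : ℝ) := by
    intro T hT
    have hme : AEStronglyMeasurable (fun p : (Site d → ℝ) × (Site d → ℝ) =>
        avT (W p.1) (W p.2) T ψ) (P.prod P) := by
      have hc : Continuous fun p : (Site d → ℝ) × (Site d → ℝ) => avT (W p.1) (W p.2) T ψ := by
        unfold avT
        have h3 : Continuous fun p : ((Site d → ℝ) × (Site d → ℝ)) × ℝ =>
            q (W p.1.1) (W p.1.2) ψ p.2 := hqc.comp (continuous_snd.prodMk continuous_fst)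
        exact (intervalIntegral.continuous_parametric_intervalIntegral_of_continuous'
          (f := fun (p : (Site d → ℝ) × (Site d → ℝ)) (s : ℝ) => q (W p.1) (W p.2) ψ s) h3 0
            T).const_smul ((T : ℂ)⁻¹)
      exact hc.aestronglyMeasurable
    have e1 : ‖T⁻¹ * ∫ t in (0 : ℝ)..T, ‖∫ ω, (W ω).U t ψ ∂P‖ ^ 2‖ₑ =
        ‖∫ p, ⟪ψ, avT (W p.1) (W p.2) T ψ⟫_ℂ ∂(P.prod P)‖ₑ := by
      rw [← h2 T hT, ← ofReal_norm, ← ofReal_norm, Complex.norm_real]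
    rw [e1]
    refine (enorm_integral_le_lintegral_enorm _).trans ?_
    calc ∫⁻ p, ‖⟪ψ, avT (W p.1) (W p.2) T ψ⟫_ℂ‖ₑ ∂(P.prod P)
        ≤ ∫⁻ p, ‖ψ‖ₑ * ‖avT (W p.1) (W p.2) T ψ‖ₑ ∂(P.prod P) := by
          refine lintegral_mono fun p => ?_
          rw [← ofReal_norm, ← ofReal_norm, ← ofReal_norm, ← ENNReal.ofReal_mul (norm_nonneg _)]
          exact ENNReal.ofReal_le_ofReal (norm_inner_le_norm _ _)
      _ = ‖ψ‖ₑ * ∫⁻ p, ‖avT (W p.1) (W p.2) T ψ‖ₑ ∂(P.prod P) :=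
          lintegral_const_mul' _ _ enorm_ne_top
      _ ≤ ‖ψ‖ₑ * (∫⁻ p, ‖avT (W p.1) (W p.2) T ψ‖ₑ ^ 2 ∂(P.prod P)) ^ (2⁻¹ : ℝ) := by
          gcongr
          have h4 := eLpNorm_le_eLpNorm_of_exponent_le (μ := P.prod P)
            (p := 1) (q := 2) (by norm_num) hme
          rw [eLpNorm_one_eq_lintegral_enorm] at h4
          refine h4.trans (le_of_eq ?_)
          have h5 := eLpNorm_nnreal_pow_eq_lintegral (f := fun p : (Site d → ℝ) × (Site d → ℝ) =>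
            avT (W p.1) (W p.2) T ψ) (μ := P.prod P) (p := 2) two_ne_zero
          have h6 : ((2 : ℝ≥0) : ℝ≥0∞) = 2 := rfl
          have h7 : ((2 : ℝ≥0) : ℝ) = 2 := rfl
          rw [h6, h7] at h5
          simp only [ENNReal.rpow_two] at h5
          rw [← h5, ← ENNReal.rpow_natCast, ← ENNReal.rpow_mul]
          norm_num
  have h4 : Tendsto (fun T : ℝ => ‖ψ‖ₑ *
      (∫⁻ p, ‖avT (W p.1) (W p.2) T ψ‖ₑ ^ 2 ∂(P.prod P)) ^ (2⁻¹ : ℝ)) atTop (𝓝 0) := by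
    have h5 : Tendsto (fun T : ℝ =>
      (∫⁻ p, ‖avT (W p.1) (W p.2) T ψ‖ₑ ^ 2 ∂(P.prod P)) ^ (2⁻¹ : ℝ)) atTop (𝓝 0) := by
      have h6 := (ENNReal.continuous_rpow_const (y := (2⁻¹ : ℝ))).tendsto (0 : ℝ≥0∞)
      rw [ENNReal.zero_rpow_of_pos (by norm_num)] at h6
      exact h6.comp h
    have h6 := ENNReal.Tendsto.const_mul (a := ‖ψ‖ₑ) h5 (Or.inr enorm_ne_top)
    rwa [mul_zero] at h6
  rw [tendsto_zero_iff_enorm_tendsto_zero]
  refine tendsto_of_tendsto_of_tendsto_of_le_of_le' tendsto_const_nhds h4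
    (Eventually.of_forall fun _ => zero_le) ?_
  filter_upwards [eventually_gt_atTop (0 : ℝ)] with T hT
  exact h3 T hT

/-- **the mean wave decays** -/
theorem mean_wave {c : ℝ} {ev : (Site d → ℝ) → UG (L2 (Site d))} (hev : ∀ V, IsGrp c V (ev V))
    (ν : Measure ℝ) [IsProbabilityMeasure ν] (hν : ν ≪ volume) (o : ℝ) {lam : ℝ} (hlam : lam ≠ 0)
    (ψ : L2 (Site d)) :
    Tendsto (fun T : ℝ => T⁻¹ * ∫ t in (0 : ℝ)..T,
      ‖∫ ω, (ev (aff o lam ω)).U t ψ ∂(PP d ν)‖ ^ 2) atTop (𝓝 0) := by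
  have hP : IsProbabilityMeasure (PP d ν) := by
    unfold PP
    infer_instance
  have hc : Continuous fun p : (Site d → ℝ) × ℝ × L2 (Site d) =>
      (ev (aff o lam p.1)).U p.2.1 p.2.2 :=
    (ALL.a_CV d c ev hev).comp (((aff_cont o lam).comp continuous_fst).prodMk continuous_snd)
  have hd : Dyn (Ω := Site d → ℝ) (fun z V => fun y => V (y + z)) (fun ω => ev (aff o lam ω)) :=
    ⟨hc, fun z S hS ω t φ => ALL.a_COV d c ev hev z S hS (aff o lam ω) t φ⟩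
  exact mean_of_disj hc ψ (disjoint_main hev (P := PP d ν) (fun z => (t_RES d ν).2 z) hd ν hν o
    hlam (ψ := fun _ => ψ) (memLp_const ψ)).1

end Pool.Agent.H988.DJ
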