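import Pool.Agent.H988.WM.Tw

/-! # Comparison of two dynamics, and rank one families -/

set_option autoImplicit false

open MeasureTheory Filter Topology
open scoped BigOperators ENNReal NNReal InnerProductSpace ComplexConjugate

namespace Pool.Agent.H988.DJ

open Pool.Agent.H5R2.NB Pool.Agent.H5R2.NBA Pool.Agent.H988.WM

section gen

variable {X : Type} [NormedAddCommGroup X] [InnerProductSpace ℂ X]

/-- comparison of the two dynamics -/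
noncomputable def q (R W : UG X) (x : X) (s : ℝ) : X := R.U (-s) (W.U s x)

theorem q_cont (R W : UG X) (x : X) : Continuous (q R W x) :=
  BP.cont_U R continuous_neg (W.cont' x)

theorem q_norm (R W : UG X) (x : X) (s : ℝ) : ‖q R W x s‖ = ‖x‖ := by
  unfold q
  rw [R.norm', W.norm']

theorem q_shift (R W : UG X) (x : X) (t s : ℝ) :
    q R W (W.U t x) s = R.U t (q R W x (s + t)) := by
  unfold q
  rw [← W.add', ← R.add']
  congr 2
  ring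

/-- time average; `σ = id` or `σ = -id` -/
noncomputable def avq (σ : ℝ → ℝ) (R W : UG X) (N : ℕ) (x : X) : X :=
  ((N : ℂ)⁻¹) • ∫ s in (0 : ℝ)..(N : ℝ), q R W x (σ s)

/-- both time averages converge strongly to `B` along the sequence `Nk` -/
def GoodQ (R W : UG X) (Nk : ℕ → ℕ) (B : X →L[ℂ] X) : Prop :=
  ∀ x, Tendsto (fun k => avq id R W (Nk k) x) atTop (𝓝 (B x)) ∧
    Tendsto (fun k => avq (fun s => -s) R W (Nk k) x) atTop (𝓝 (B x))

theorem avq_norm (σ : ℝ → ℝ) (R W : UG X) (N : ℕ) (x : X) : ‖avq σ R W N x‖ ≤ ‖x‖ :=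
  LIMB.norm_avg _ _ (fun s => (q_norm R W x (σ s)).le) N

theorem int_norm (R W : UG X) (x : X) (a b : ℝ) :
    ‖∫ s in a..b, q R W x s‖ ≤ ‖x‖ * |b - a| :=
  intervalIntegral.norm_integral_le_of_norm_le_const fun s _ => (q_norm R W x s).le

theorem avq_shift [CompleteSpace X] (R W : UG X) (N : ℕ) (x : X) (t : ℝ) :
    ‖avq id R W N (W.U t x) - R.U t (avq id R W N x)‖ ≤ (N : ℝ)⁻¹ * (2 * (‖x‖ * |t|)) := by
  have hi : ∀ a b : ℝ, IntervalIntegrable (q R W x) volume a b :=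
    fun a b => (q_cont R W x).intervalIntegrable a b
  have h1 : avq id R W N (W.U t x) = ((N : ℂ)⁻¹) •
      (R.U t (∫ s in t..(N : ℝ) + t, q R W x s)) := by
    unfold avq
    congr 1
    have e1 : ∫ s in (0 : ℝ)..(N : ℝ), q R W (W.U t x) (id s) =
        ∫ s in (0 : ℝ)..(N : ℝ), R.U t (q R W x (s + t)) :=
      intervalIntegral.integral_congr fun s _ => q_shift R W x t s
    rw [e1]
    rw [intervalIntegral.integral_comp_add_right (fun s => R.U t (q R W x s)) t, zero_add,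
      ContinuousLinearMap.intervalIntegral_comp_comm _ (hi _ _)]
  have h2 : R.U t (avq id R W N x) =
      ((N : ℂ)⁻¹) • (R.U t (∫ s in (0 : ℝ)..(N : ℝ), q R W x s)) := by
    unfold avq
    rw [map_smul]
    rfl
  rw [h1, h2, ← smul_sub, ← map_sub, norm_smul, norm_inv,
    Complex.norm_natCast, R.norm']
  refine mul_le_mul_of_nonneg_left ?_ (by positivity)
  have h3 : ∫ s in t..(N : ℝ) + t, q R W x s = (∫ s in t..(0 : ℝ), q R W x s) +
      (∫ s in (0 : ℝ)..(N : ℝ), q R W x s) + ∫ s in (N : ℝ)..(N : ℝ) + t, q R W x s := by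
    rw [intervalIntegral.integral_add_adjacent_intervals (hi _ _) (hi _ _),
      intervalIntegral.integral_add_adjacent_intervals (hi _ _) (hi _ _)]
  have h4 : (∫ s in t..(N : ℝ) + t, q R W x s) - ∫ s in (0 : ℝ)..(N : ℝ), q R W x s =
      (∫ s in t..(0 : ℝ), q R W x s) + ∫ s in (N : ℝ)..(N : ℝ) + t, q R W x s := by
    rw [h3]; abel
  rw [h4]
  have h5 := int_norm R W x t 0
  have h6 := int_norm R W x (N : ℝ) ((N : ℝ) + t)
  rw [zero_sub, abs_neg] at h5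
  rw [add_sub_cancel_left] at h6
  refine (norm_add_le _ _).trans ?_
  linarith

theorem good_norm {R W : UG X} {Nk : ℕ → ℕ} {B : X →L[ℂ] X}
    (hB : GoodQ R W Nk B) (x : X) : ‖B x‖ ≤ ‖x‖ :=
  le_of_tendsto (hB x).1.norm (Eventually.of_forall fun k => avq_norm id R W (Nk k) x)

/-- the limit intertwines the two dynamics -/
theorem good_comm [CompleteSpace X] {R W : UG X} {Nk : ℕ → ℕ}
    (hNk : Tendsto Nk atTop atTop) {B : X →L[ℂ] X}
    (hB : GoodQ R W Nk B) (t : ℝ) (x : X) : B (W.U t x) = R.U t (B x) := by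
  have h1 := (hB (W.U t x)).1
  have h2 : Tendsto (fun k => R.U t (avq id R W (Nk k) x)) atTop
      (𝓝 (R.U t (B x))) :=
    (((R.U t).continuous.tendsto _).comp (hB x).1)
  have h3 : Tendsto (fun k => avq id R W (Nk k) (W.U t x) -
      R.U t (avq id R W (Nk k) x)) atTop (𝓝 0) := by
    refine squeeze_zero_norm (fun k => avq_shift R W (Nk k) x t) ?_
    have h4 : Tendsto (fun k => ((Nk k : ℕ) : ℝ)⁻¹) atTop (𝓝 0) :=
      tendsto_inv_atTop_zero.comp (tendsto_natCast_atTop_atTop.comp hNk)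
    simpa using h4.mul_const (2 * (‖x‖ * |t|))
  have h5 := tendsto_nhds_unique h3 (h1.sub h2)
  exact (sub_eq_zero.1 h5.symm)

/-- wave operators are compatible with the limits -/
theorem core [CompleteSpace X] (R W W' : UG X) (Nk : ℕ → ℕ)
    (hN : Tendsto Nk atTop atTop) (l : Filter ℝ) (σ : ℝ → ℝ) (hσ : Continuous σ)
    (hl : Tendsto σ atTop l) (ψ ψp b b' : X)
    (hψ : Tendsto (fun t : ℝ => W'.U (-t) (W.U t ψ)) l (𝓝 ψp))
    (hb : Tendsto (fun k => avq σ R W (Nk k) ψ) atTop (𝓝 b))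
    (hb' : Tendsto (fun k => avq σ R W' (Nk k) ψp) atTop (𝓝 b')) :
    b' = b := by
  have hn : ∀ s, ‖q R W' ψp (σ s) - q R W ψ (σ s)‖ = ‖W'.U (-(σ s)) (W.U (σ s) ψ) - ψp‖ := by
    intro s
    unfold q
    rw [← map_sub, R.norm', norm_sub_rev]
    have e : W.U (σ s) ψ - W'.U (σ s) ψp =
        W'.U (σ s) (W'.U (-(σ s)) (W.U (σ s) ψ) - ψp) := by
      rw [map_sub, ← W'.add', add_neg_cancel, W'.zero']
    rw [e, W'.norm']
  have hc : Continuous fun s => q R W' ψp (σ s) - q R W ψ (σ s) :=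
    ((q_cont R W' ψp).comp hσ).sub ((q_cont R W ψ).comp hσ)
  have hD : Tendsto (fun s => ((‖q R W' ψp (σ s) - q R W ψ (σ s)‖ : ℝ) : ℂ)) atTop (𝓝 0) := by
    have h1 := (tendsto_iff_norm_sub_tendsto_zero.1 hψ).comp hl
    have h2 : Tendsto (fun s => ‖q R W' ψp (σ s) - q R W ψ (σ s)‖) atTop (𝓝 0) := by
      simp only [hn]
      exact h1
    have h3 := (Complex.continuous_ofReal.tendsto 0).comp h2
    rwa [Complex.ofReal_zero] at h3
  have h3 := W3.cesaro (D := fun s : ℝ => ((‖q R W' ψp (σ s) - q R W ψ (σ s)‖ : ℝ) : ℂ))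
    (Complex.continuous_ofReal.comp hc.norm) (‖ψp‖ + ‖ψ‖) (fun s => by
      rw [Complex.norm_real, norm_norm]
      refine (norm_sub_le _ _).trans ?_
      rw [q_norm, q_norm]) hD hN
  have h4 := h3.norm
  rw [norm_zero] at h4
  have h7 : Tendsto (fun k => avq σ R W' (Nk k) ψp - avq σ R W (Nk k) ψ) atTop (𝓝 0) := by
    refine squeeze_zero_norm (fun k => ?_) h4
    have hk : (0 : ℝ) ≤ (Nk k : ℝ) := Nat.cast_nonneg _
    have e1 : avq σ R W' (Nk k) ψp - avq σ R W (Nk k) ψ = ((Nk k : ℂ)⁻¹) •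
        ∫ s in (0 : ℝ)..(Nk k : ℝ), (q R W' ψp (σ s) - q R W ψ (σ s)) := by
      have hi : ∀ (W₁ : UG X) (x : X), IntervalIntegrable
          (fun s : ℝ => q R W₁ x (σ s)) volume 0 (Nk k : ℝ) := fun W₁ x =>
        ((q_cont R W₁ x).comp hσ).intervalIntegrable _ _
      unfold avq
      rw [← smul_sub, ← intervalIntegral.integral_sub (hi W' ψp) (hi W ψ)]
    have h5 : ‖∫ s in (0 : ℝ)..(Nk k : ℝ), (q R W' ψp (σ s) - q R W ψ (σ s))‖ ≤
        ∫ s in (0 : ℝ)..(Nk k : ℝ), ‖q R W' ψp (σ s) - q R W ψ (σ s)‖ :=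
      intervalIntegral.norm_integral_le_integral_norm hk
    have h6 : ∫ s in (0 : ℝ)..(Nk k : ℝ), ((‖q R W' ψp (σ s) - q R W ψ (σ s)‖ : ℝ) : ℂ) =
        ((∫ s in (0 : ℝ)..(Nk k : ℝ), ‖q R W' ψp (σ s) - q R W ψ (σ s)‖ : ℝ) : ℂ) :=
      intervalIntegral.integral_ofReal
    have h7 : 0 ≤ ∫ s in (0 : ℝ)..(Nk k : ℝ), ‖q R W' ψp (σ s) - q R W ψ (σ s)‖ :=
      intervalIntegral.integral_nonneg hk fun s _ => norm_nonneg _
    rw [e1, norm_smul, h6, norm_mul, Complex.norm_real, Real.norm_of_nonneg h7]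
    exact mul_le_mul_of_nonneg_left h5 (norm_nonneg _)
  have h8 := tendsto_nhds_unique h7 (hb'.sub hb)
  exact sub_eq_zero.1 h8.symm

end gen

section fam

variable {ι : Type}

open W6 in
/-- the limit maps `e` into the singular subspace of the comparison dynamics -/
theorem w6Q (R : UG (L2 ι)) (U : ℝ → UG (L2 ι)) (e : L2 ι) (hF : Fam U e) {κ κ' : ℝ}
    (hκ : κ ≠ κ') (Nk : ℕ → ℕ) (hNk : Tendsto Nk atTop atTop)
    (B B' : L2 ι →L[ℂ] L2 ι) (hB : GoodQ R (U κ) Nk B) (hB' : GoodQ R (U κ') Nk B')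
    (C : ℝ) (φ : L2 ι) (hφ : Minf R C φ) : ⟪φ, B' e⟫_ℂ = 0 := by
  have hWP : St_WP := t_WP
  have hWI : St_WI := t_WI
  -- basic facts
  have hBc : ∀ (t : ℝ) (x : L2 ι), B' ((U κ').U t x) = R.U t (B' x) :=
    good_comm hNk hB'
  set Bs : L2 ι →L[ℂ] L2 ι := ContinuousLinearMap.adjoint B' with hBs
  have hsym : ∀ x y : L2 ι, ⟪Bs x, y⟫_ℂ = ⟪x, B' y⟫_ℂ := fun x y =>
    ContinuousLinearMap.adjoint_inner_left _ _ _
  have hBn : ∀ x : L2 ι, ‖B' x‖ ≤ ‖x‖ := good_norm hB'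
  set C₁ : ℝ := max C 0 with hC₁
  have hC₁0 : 0 ≤ C₁ := le_max_right _ _
  have hφ₁ : Minf R C₁ φ := minf_mono hφ (le_max_left _ _)
  -- eta
  set η : L2 ι := Bs φ with hη
  have hηU : ∀ (t : ℝ) (x : L2 ι), ⟪x, (U κ').U t η⟫_ℂ = ⟪B' x, R.U t φ⟫_ℂ := by
    intro t x
    have h1 : ⟪x, (U κ').U t η⟫_ℂ = ⟪(U κ').U (-t) x, η⟫_ℂ := by
      rw [NN.inner_adj, neg_neg]
    have h2 : ⟪(U κ').U (-t) x, η⟫_ℂ = ⟪B' ((U κ').U (-t) x), φ⟫_ℂ := by
      rw [← inner_conj_symm, hη, hsym, inner_conj_symm]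
    rw [h1, h2, hBc, NN.inner_adj, neg_neg]
  have hηM : Minf (U κ') C₁ η := by
    intro φ₁
    have h1 : (∫⁻ t : ℝ, ‖⟪φ₁, (U κ').U t η⟫_ℂ‖ₑ ^ 2) =
        ∫⁻ t : ℝ, ‖⟪B' φ₁, R.U t φ⟫_ℂ‖ₑ ^ 2 := by
      refine lintegral_congr fun t => ?_
      rw [hηU]
    rw [h1]
    refine (hφ₁ (B' φ₁)).trans (ENNReal.ofReal_le_ofReal ?_)
    have h2 := hBn φ₁
    have h3 : ‖B' φ₁‖ ^ 2 ≤ ‖φ₁‖ ^ 2 := pow_le_pow_left₀ (norm_nonneg _) h2 2
    exact mul_le_mul_of_nonneg_left h3 hC₁0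
  -- key vanishing
  have key : ∀ (C0 : ℝ) (ψ0 : L2 ι), Minf (U κ) C0 ψ0 →
      ∫ s : ℝ, ⟪e, (U κ).U s ψ0⟫_ℂ * ⟪η, (U κ').U (-s) e⟫_ℂ = 0 := by
    intro C0 ψ0 hψ0
    obtain ⟨⟨ψp, hp⟩, ⟨ψm, hm⟩⟩ := hWP ι U e hF κ κ' C0 ψ0 hψ0
    have a1 : B' ψp = B ψ0 :=
      core R (U κ) (U κ') Nk hNk atTop id continuous_id tendsto_id ψ0 ψp (B ψ0) (B' ψp)
        hp (hB ψ0).1 (hB' ψp).1
    have a2 : B' ψm = B ψ0 :=
      core R (U κ) (U κ') Nk hNk atBot (fun s => -s) continuous_neg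
        tendsto_neg_atTop_atBot ψ0 ψm (B ψ0) (B' ψm) hm (hB ψ0).2 (hB' ψm).2
    have a3 : ⟪η, ψp - ψm⟫_ℂ = 0 := by
      rw [inner_sub_right, hη, hsym, hsym, a1, a2, sub_self]
    have a4 := t_W4 ι U e hF κ κ' C0 C₁ ψ0 ψp ψm η hψ0 hηM hp hm
    rw [a3] at a4
    have a5 : Complex.I * ((κ' - κ : ℝ) : ℂ) ≠ 0 := by
      refine mul_ne_zero Complex.I_ne_zero ?_
      rw [Ne, Complex.ofReal_eq_zero, sub_eq_zero]
      exact fun h => hκ h.symm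
    exact (mul_eq_zero.1 a4.symm).resolve_left a5
  -- the function h
  have hconj : ∀ r : ℝ, ⟪η, (U κ').U (-r) e⟫_ℂ = conj ⟪e, (U κ').U r η⟫_ℂ := by
    intro r
    rw [inner_conj_symm, NN.inner_adj]
  have hcontg : Continuous fun r : ℝ => ⟪e, (U κ').U r η⟫_ℂ :=
    continuous_const.inner ((U κ').cont' η)
  have hconth : Continuous fun r : ℝ => ⟪η, (U κ').U (-r) e⟫_ℂ :=
    continuous_const.inner (((U κ').cont' e).comp continuous_neg)
  have hfin : (∫⁻ r : ℝ, ‖⟪η, (U κ').U (-r) e⟫_ℂ‖ₑ ^ 2) < ∞ := by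
    refine lt_of_le_of_lt ?_ (ENNReal.ofReal_lt_top (r := C₁ * ‖e‖ ^ 2))
    refine le_trans (le_of_eq ?_) (hηM e)
    refine lintegral_congr fun r => ?_
    rw [hconj, RCLike.enorm_conj]
  -- the choice of ψ0
  obtain ⟨⟨ψ0, hψ0t⟩, -⟩ := hWP ι U e hF κ' κ C₁ η hηM
  obtain ⟨-, -, hI3, hI4⟩ := hWI ι (U κ') (U κ) atTop (Or.inl rfl) η ψ0 hψ0t
  have hψ0M := hI3 _ hηM
  have hzero : ∫ r : ℝ, ⟪e, (U κ').U r η⟫_ℂ * ⟪η, (U κ').U (-r) e⟫_ℂ = 0 := by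
    refine t_W5 ι U e hF κ κ' _ ψ0 η hψ0M hI4 (fun r => ⟪η, (U κ').U (-r) e⟫_ℂ)
      hconth.measurable hfin ?_
    intro s
    have b := key _ ((U κ).U s ψ0) (minf_shift hψ0M s)
    rw [← b]
    refine integral_congr_ae (Eventually.of_forall fun r => ?_)
    show ⟪e, (U κ).U (r + s) ψ0⟫_ℂ * _ = ⟪e, (U κ).U r ((U κ).U s ψ0)⟫_ℂ * _
    rw [(U κ).add']
  -- conclusion
  have hsq : ∀ r : ℝ, ⟪e, (U κ').U r η⟫_ℂ * ⟪η, (U κ').U (-r) e⟫_ℂ =
      ((‖⟪e, (U κ').U r η⟫_ℂ‖ ^ 2 : ℝ) : ℂ) := by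
    intro r
    rw [hconj, Complex.mul_conj, Complex.normSq_eq_norm_sq]
  have hreal : ∫ r : ℝ, ‖⟪e, (U κ').U r η⟫_ℂ‖ ^ 2 = 0 := by
    have c1 : ((∫ r : ℝ, ‖⟪e, (U κ').U r η⟫_ℂ‖ ^ 2 : ℝ) : ℂ) = 0 := by
      rw [← integral_complex_ofReal, ← hzero]
      exact integral_congr_ae (Eventually.of_forall fun r => (hsq r).symm)
    exact_mod_cast c1
  have hcont2 : Continuous fun r : ℝ => ‖⟪e, (U κ').U r η⟫_ℂ‖ ^ 2 := (hcontg.norm).pow 2
  have hint : Integrable (fun r : ℝ => ‖⟪e, (U κ').U r η⟫_ℂ‖ ^ 2) := by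
    refine ⟨hcont2.aestronglyMeasurable, ?_⟩
    refine lt_of_le_of_lt (le_of_eq ?_) hfin
    refine lintegral_congr fun r => ?_
    rw [hconj, RCLike.enorm_conj, enorm_pow, enorm_norm]
  have hae := (integral_eq_zero_iff_of_nonneg (fun r => by positivity) hint).1 hreal
  have hall : (fun r : ℝ => ‖⟪e, (U κ').U r η⟫_ℂ‖ ^ 2) = fun _ => (0 : ℝ) :=
    (Continuous.ae_eq_iff_eq volume hcont2 continuous_const).1 hae
  have d1 := congrFun hall 0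
  have d2 : ⟪e, (U κ').U 0 η⟫_ℂ = 0 := by
    have := pow_eq_zero_iff (two_ne_zero) |>.1 d1
    exact norm_eq_zero.1 this
  rw [(U κ').zero'] at d2
  rw [← hsym, ← hη, ← inner_conj_symm, d2, map_zero]

/-- the same for all vectors of the absolutely continuous subspace of the comparison dynamics -/
theorem w6Q_hac (R : UG (L2 ι)) (U : ℝ → UG (L2 ι)) (e : L2 ι) (hF : Fam U e) {κ κ' : ℝ}
    (hκ : κ ≠ κ') (Nk : ℕ → ℕ) (hNk : Tendsto Nk atTop atTop)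
    (B B' : L2 ι →L[ℂ] L2 ι) (hB : GoodQ R (U κ) Nk B) (hB' : GoodQ R (U κ') Nk B')
    (φ : L2 ι) (hφ : φ ∈ HAC R) : ⟪φ, B' e⟫_ℂ = 0 := by
  have hc : IsClosed {φ : L2 ι | ⟪φ, B' e⟫_ℂ = 0} :=
    isClosed_eq (continuous_id.inner continuous_const) continuous_const
  have h1 : {φ : L2 ι | ∃ C : ℝ, Minf R C φ} ⊆ {φ : L2 ι | ⟪φ, B' e⟫_ℂ = 0} := by
    rintro φ ⟨C, hC⟩
    exact w6Q R U e hF hκ Nk hNk B B' hB hB' C φ hC
  exact closure_minimal h1 hc hφ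

end fam

end Pool.Agent.H988.DJ
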