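import Pool.Agent.H988.DJ.Sing

/-! # Ergodic means of the comparison of two covariant dynamics -/

set_option autoImplicit false
set_option linter.unusedSectionVars false

open MeasureTheory Filter Topology
open scoped BigOperators ENNReal NNReal InnerProductSpace ComplexConjugate

namespace Pool.Agent.H988.DJ

open Pool.Agent.H5R2.NB Pool.Agent.H5R2.NBA Pool.Agent.H988.WM Pool.Agent.H988.RS

variable {d : ℕ}

section trace

variable {Ω : Type} [MeasurableSpace Ω] {P : Measure Ω} [IsProbabilityMeasure P]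
  {θ : Site d → Ω → Ω}

/-- matrix elements of the adjoint at a shifted point -/
theorem elem_shift {A A' : Ω → L2 (Site d) →L[ℂ] L2 (Site d)}
    (h : ∀ ω f g, ⟪A ω f, g⟫_ℂ = ⟪f, A' ω g⟫_ℂ)
    (hA' : ∀ (z : Site d) (S : L2 (Site d) →L[ℂ] L2 (Site d)), IsShift z S → ∀ ω ψ,
      A' (θ z ω) (S ψ) = S (A' ω ψ)) (ω : Ω) (x : Site d) :
    (A (θ (-x) ω) (dl 0)) x = conj ((A' ω (dl 0)) (-x)) := by
  obtain ⟨S, hS⟩ := (t_OPS d).1 (-x)
  have h1 : S (dl 0) = dl x := by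
    have := STAT.shift_dl (-x) S hS
    rwa [neg_neg] at this
  have h2 := hA' (-x) S hS ω (dl 0)
  rw [h1] at h2
  rw [← STAT.inner_dl x, ← inner_conj_symm, h (θ (-x) ω), h2, STAT.inner_dl, hS, zero_add]

/-- the trace property -/
theorem traceG (hθ : ∀ z, MeasurePreserving (θ z) P P)
    {X X' Y Y' : Ω → L2 (Site d) →L[ℂ] L2 (Site d)} {M : ℝ}
    (mX : AEStronglyMeasurable (fun ω => X ω (dl 0)) P)
    (mY : AEStronglyMeasurable (fun ω => Y ω (dl 0)) P)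
    (mX' : AEStronglyMeasurable (fun ω => X' ω (dl 0)) P)
    (mY' : AEStronglyMeasurable (fun ω => Y' ω (dl 0)) P)
    (bX : ∀ ω, ‖X ω (dl 0)‖ ≤ M) (bY : ∀ ω, ‖Y ω (dl 0)‖ ≤ M)
    (bX' : ∀ ω, ‖X' ω (dl 0)‖ ≤ M) (bY' : ∀ ω, ‖Y' ω (dl 0)‖ ≤ M)
    (aX : ∀ ω f g, ⟪X ω f, g⟫_ℂ = ⟪f, X' ω g⟫_ℂ) (aY : ∀ ω f g, ⟪Y ω f, g⟫_ℂ = ⟪f, Y' ω g⟫_ℂ)
    (cX : ∀ (z : Site d) (S : L2 (Site d) →L[ℂ] L2 (Site d)), IsShift z S → ∀ ω ψ,
      X' (θ z ω) (S ψ) = S (X' ω ψ))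
    (cY : ∀ (z : Site d) (S : L2 (Site d) →L[ℂ] L2 (Site d)), IsShift z S → ∀ ω ψ,
      Y' (θ z ω) (S ψ) = S (Y' ω ψ)) :
    ∫ ω, ⟪X ω (dl 0), Y ω (dl 0)⟫_ℂ ∂P = ∫ ω, ⟪Y' ω (dl 0), X' ω (dl 0)⟫_ℂ ∂P := by
  have ev1 : ∀ {f : Ω → L2 (Site d)}, AEStronglyMeasurable f P → ∀ x,
      AEStronglyMeasurable (fun ω => (f ω) x) P := fun hf x =>
    (STAT.cont_eval x).comp_aestronglyMeasurable hf
  have E1 := STAT.exch P (fun ω => X ω (dl 0)) (fun ω => Y ω (dl 0)) M (ev1 mX) (ev1 mY) bX bY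
  have E2 := STAT.exch P (fun ω => Y' ω (dl 0)) (fun ω => X' ω (dl 0)) M (ev1 mY') (ev1 mX')
    bY' bX'
  have key : ∀ x : Site d, (∫ ω, conj ((X ω (dl 0)) x) * (Y ω (dl 0)) x ∂P) =
      ∫ ω, conj ((Y' ω (dl 0)) (-x)) * (X' ω (dl 0)) (-x) ∂P := by
    intro x
    have hmp := hθ (-x)
    have hF : AEStronglyMeasurable (fun ω => conj ((X ω (dl 0)) x) * (Y ω (dl 0)) x) P :=
      (Complex.continuous_conj.comp_aestronglyMeasurable (ev1 mX x)).mul (ev1 mY x)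
    calc (∫ ω, conj ((X ω (dl 0)) x) * (Y ω (dl 0)) x ∂P)
        = ∫ ω, conj ((X ω (dl 0)) x) * (Y ω (dl 0)) x ∂(Measure.map (θ (-x)) P) := by
          rw [hmp.map_eq]
      _ = ∫ ω, conj ((X (θ (-x) ω) (dl 0)) x) * (Y (θ (-x) ω) (dl 0)) x ∂P := by
          rw [integral_map hmp.measurable.aemeasurable]
          rw [hmp.map_eq]
          exact hF
      _ = _ := by
          refine integral_congr_ae (Eventually.of_forall fun ω => ?_)
          show conj ((X (θ (-x) ω) (dl 0)) x) * (Y (θ (-x) ω) (dl 0)) x =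
            conj ((Y' ω (dl 0)) (-x)) * (X' ω (dl 0)) (-x)
          rw [elem_shift aX cX, elem_shift aY cY, Complex.conj_conj, mul_comm]
  have h := (Equiv.neg (Site d)).hasSum_iff.mpr E2
  have e : (fun x => ∫ ω, conj ((X ω (dl 0)) x) * (Y ω (dl 0)) x ∂P) =
      (fun x => ∫ ω, conj ((Y' ω (dl 0)) x) * (X' ω (dl 0)) x ∂P) ∘ ⇑(Equiv.neg (Site d)) :=
    funext key
  rw [← e] at h
  exact E1.unique h

end trace

/-- covariant family of dynamics, continuous in the parameter -/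
structure Dyn {Ω : Type} [TopologicalSpace Ω] (θ : Site d → Ω → Ω)
    (W : Ω → UG (L2 (Site d))) : Prop where
  cont : Continuous fun p : Ω × ℝ × L2 (Site d) => (W p.1).U p.2.1 p.2.2
  cov : ∀ (z : Site d) (S : L2 (Site d) →L[ℂ] L2 (Site d)), IsShift z S →
    ∀ ω t ψ, (W (θ z ω)).U t (S ψ) = S ((W ω).U t ψ)

section erg

variable {Ω : Type} [TopologicalSpace Ω] [SecondCountableTopology Ω] [MeasurableSpace Ω]
  [OpensMeasurableSpace Ω] {P : Measure Ω} [IsProbabilityMeasure P] {θ : Site d → Ω → Ω}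
  {R W : Ω → UG (L2 (Site d))}

theorem Dyn.cU (hW : Dyn θ W) {α : Type} [TopologicalSpace α] {f : α → Ω} {s : α → ℝ}
    {g : α → L2 (Site d)} (hf : Continuous f) (hs : Continuous s) (hg : Continuous g) :
    Continuous fun a => (W (f a)).U (s a) (g a) :=
  hW.cont.comp (hf.prodMk (hs.prodMk hg))

/-- continuity of the comparison -/
theorem q_joint (hR : Dyn θ R) (hW : Dyn θ W) :
    Continuous fun p : ℝ × Ω × L2 (Site d) => q (R p.2.1) (W p.2.1) p.2.2 p.1 := by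
  unfold q
  refine hR.cU (continuous_fst.comp continuous_snd) continuous_fst.neg ?_
  exact hW.cU (continuous_fst.comp continuous_snd) continuous_fst (continuous_snd.comp continuous_snd)

/-- stationarity of the comparison -/
theorem stat (hθ : ∀ z, MeasurePreserving (θ z) P P) (hR : Dyn θ R) (hW : Dyn θ W) (s t a : ℝ) :
    ∫ ω, ⟪q (R ω) (W ω) (dl 0) (s + a), q (R ω) (W ω) (dl 0) (t + a)⟫_ℂ ∂P =
      ∫ ω, ⟪q (R ω) (W ω) (dl 0) s, q (R ω) (W ω) (dl 0) t⟫_ℂ ∂P := by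
  have i : Continuous fun ω : Ω => ω := continuous_id
  have hW0 : ∀ (r : ℝ) {f : Ω → L2 (Site d)}, Continuous f → Continuous fun ω => (W ω).U r (f ω) :=
    fun r _ hf => hW.cU i continuous_const hf
  have hR0 : ∀ (r : ℝ) {f : Ω → L2 (Site d)}, Continuous f → Continuous fun ω => (R ω).U r (f ω) :=
    fun r _ hf => hR.cU i continuous_const hf
  set X : Ω → L2 (Site d) →L[ℂ] L2 (Site d) := fun ω => (W ω).U a with hX
  set X' : Ω → L2 (Site d) →L[ℂ] L2 (Site d) := fun ω => (W ω).U (-a) with hX'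
  set Y : Ω → L2 (Site d) →L[ℂ] L2 (Site d) := fun ω =>
    ((W ω).U (-s)).comp (((R ω).U (s - t)).comp (((W ω).U t).comp ((W ω).U a))) with hY
  set Y' : Ω → L2 (Site d) →L[ℂ] L2 (Site d) := fun ω =>
    ((W ω).U (-a)).comp (((W ω).U (-t)).comp (((R ω).U (t - s)).comp ((W ω).U s))) with hY'
  have n0 : ‖(dl 0 : L2 (Site d))‖ = 1 := STAT.norm_dl 0
  have h := traceG (P := P) (θ := θ) (X := X) (X' := X') (Y := Y) (Y' := Y') (M := 1) hθ
    (hW0 a continuous_const).aestronglyMeasurable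
    (hW0 (-s) (hR0 (s - t) (hW0 t (hW0 a continuous_const)))).aestronglyMeasurable
    (hW0 (-a) continuous_const).aestronglyMeasurable
    (hW0 (-a) (hW0 (-t) (hR0 (t - s) (hW0 s continuous_const)))).aestronglyMeasurable
    (fun ω => by
      show ‖(W ω).U a (dl 0)‖ ≤ 1
      rw [(W ω).norm', n0])
    (fun ω => by
      show ‖(W ω).U (-s) ((R ω).U (s - t) ((W ω).U t ((W ω).U a (dl 0))))‖ ≤ 1
      rw [(W ω).norm', (R ω).norm', (W ω).norm', (W ω).norm', n0])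
    (fun ω => by
      show ‖(W ω).U (-a) (dl 0)‖ ≤ 1
      rw [(W ω).norm', n0])
    (fun ω => by
      show ‖(W ω).U (-a) ((W ω).U (-t) ((R ω).U (t - s) ((W ω).U s (dl 0))))‖ ≤ 1
      rw [(W ω).norm', (W ω).norm', (R ω).norm', (W ω).norm', n0])
    (fun ω f g => by
      show ⟪(W ω).U a f, g⟫_ℂ = ⟪f, (W ω).U (-a) g⟫_ℂ
      rw [STAT.inner_adj, neg_neg])
    (fun ω f g => by
      show ⟪(W ω).U (-s) ((R ω).U (s - t) ((W ω).U t ((W ω).U a f))), g⟫_ℂ =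
        ⟪f, (W ω).U (-a) ((W ω).U (-t) ((R ω).U (t - s) ((W ω).U s g)))⟫_ℂ
      have e : t - s = -(s - t) := by ring
      rw [STAT.inner_adj (W ω) (-a), neg_neg, STAT.inner_adj (W ω) (-t), neg_neg, e,
        STAT.inner_adj (R ω) (-(s - t)), neg_neg, STAT.inner_adj (W ω) s])
    (fun z S hS ω ψ => hW.cov z S hS ω _ ψ)
    (fun z S hS ω ψ => by
      show (W (θ z ω)).U (-a) ((W (θ z ω)).U (-t) ((R (θ z ω)).U (t - s) ((W (θ z ω)).U s (S ψ)))) =
        S ((W ω).U (-a) ((W ω).U (-t) ((R ω).U (t - s) ((W ω).U s ψ))))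
      rw [hW.cov z S hS, hR.cov z S hS, hW.cov z S hS, hW.cov z S hS])
  have e1 : ∀ ω, ⟪q (R ω) (W ω) (dl 0) (s + a), q (R ω) (W ω) (dl 0) (t + a)⟫_ℂ =
      ⟪X ω (dl 0), Y ω (dl 0)⟫_ℂ := by
    intro ω
    show ⟪(R ω).U (-(s + a)) ((W ω).U (s + a) (dl 0)),
      (R ω).U (-(t + a)) ((W ω).U (t + a) (dl 0))⟫_ℂ =
      ⟪(W ω).U a (dl 0), (W ω).U (-s) ((R ω).U (s - t) ((W ω).U t ((W ω).U a (dl 0))))⟫_ℂ
    rw [STAT.inner_adj (W ω) (-s), neg_neg, ← (W ω).add' s a, ← (W ω).add' t a,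
      STAT.inner_adj (R ω) (-(t + a)), neg_neg, ← (R ω).add', STAT.inner_adj (R ω) (s - t)]
    congr 2
    congr 1
    ring
  have e2 : ∀ ω, ⟪Y' ω (dl 0), X' ω (dl 0)⟫_ℂ =
      ⟪q (R ω) (W ω) (dl 0) s, q (R ω) (W ω) (dl 0) t⟫_ℂ := by
    intro ω
    show ⟪(W ω).U (-a) ((W ω).U (-t) ((R ω).U (t - s) ((W ω).U s (dl 0)))),
      (W ω).U (-a) (dl 0)⟫_ℂ = ⟪(R ω).U (-s) ((W ω).U s (dl 0)), (R ω).U (-t) ((W ω).U t (dl 0))⟫_ℂ
    rw [STAT.inner_UG, STAT.inner_adj (R ω) (-t), neg_neg, ← (R ω).add',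
      STAT.inner_adj (W ω) t]
    congr 2
  simp only [e1]
  rw [h]
  simp only [e2]

/-- mean square convergence of both averages at `δ_0` to the same limit -/
theorem limA (hθ : ∀ z, MeasurePreserving (θ z) P P) (hR : Dyn θ R) (hW : Dyn θ W) :
    ∃ b : Ω → L2 (Site d), AEStronglyMeasurable b P ∧
        Tendsto (fun N : ℕ => ∫⁻ ω, ‖avq id (R ω) (W ω) N (dl 0) - b ω‖ₑ ^ 2 ∂P) atTop
          (𝓝 0) ∧
        Tendsto (fun N : ℕ => ∫⁻ ω, ‖avq (fun s => -s) (R ω) (W ω) N (dl 0) - b ω‖ₑ ^ 2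
          ∂P) atTop (𝓝 0) := by
  have hT : Continuous fun p : ℝ × Ω => q (R p.2) (W p.2) (dl 0) p.1 :=
    (q_joint hR hW).comp (continuous_fst.prodMk (continuous_snd.prodMk continuous_const))
  obtain ⟨b, hb, hf, hg⟩ := LIMA.main P (fun s ω => q (R ω) (W ω) (dl 0) s)
    ‖(dl 0 : L2 (Site d))‖ t_ME hT (fun s ω => (q_norm _ _ _ _).le)
    (fun s s' a => stat hθ hR hW s s' a)
  exact ⟨b, hb, hf, hg⟩

theorem cont_avq (hR : Dyn θ R) (hW : Dyn θ W) {σ : ℝ → ℝ} (hσ : Continuous σ) (N : ℕ) :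
    Continuous fun p : Ω × L2 (Site d) => avq σ (R p.1) (W p.1) N p.2 := by
  unfold avq
  have h3 : Continuous fun p : (Ω × L2 (Site d)) × ℝ => q (R p.1.1) (W p.1.1) p.1.2 (σ p.2) :=
    (q_joint hR hW).comp (((hσ.comp continuous_snd)).prodMk
      ((continuous_fst.comp continuous_fst).prodMk (continuous_snd.comp continuous_fst)))
  exact (intervalIntegral.continuous_parametric_intervalIntegral_of_continuous'
    (f := fun (p : Ω × L2 (Site d)) (s : ℝ) => q (R p.1) (W p.1) p.2 (σ s)) h3 0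
      (N : ℝ)).const_smul ((N : ℂ)⁻¹)

theorem avq_conj (hR : Dyn θ R) (hW : Dyn θ W) {σ : ℝ → ℝ} (hσ : Continuous σ) {z : Site d}
    {S T : L2 (Site d) →L[ℂ] L2 (Site d)} (hS : IsShift z S)
    (hT : IsShift (-z) T) (ω : Ω) (N : ℕ) (x : L2 (Site d)) :
    avq σ (R (θ z ω)) (W (θ z ω)) N x = S (avq σ (R ω) (W ω) N (T x)) := by
  have hc : Continuous fun s => q (R ω) (W ω) (T x) (σ s) := (q_cont _ _ _).comp hσ
  unfold avq
  have e := ContinuousLinearMap.intervalIntegral_comp_comm S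
    (hc.intervalIntegrable (μ := volume) (0 : ℝ) (N : ℝ))
  rw [map_smul]
  congr 1
  refine Eq.trans ?_ e
  refine intervalIntegral.integral_congr fun s _ => ?_
  show (R (θ z ω)).U (-σ s) ((W (θ z ω)).U (σ s) x) =
    S ((R ω).U (-σ s) ((W ω).U (σ s) (T x)))
  rw [← hR.cov z S hS, ← hW.cov z S hS, Pool.Agent.Y662.ERG.inv1 hS hT]

/-- the average as a bounded operator -/
noncomputable def TQ {σ : ℝ → ℝ} (hσ : Continuous σ) (R W : UG (L2 (Site d))) (N : ℕ) :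
    L2 (Site d) →L[ℂ] L2 (Site d) :=
  LinearMap.mkContinuous
    { toFun := avq σ R W N
      map_add' := fun x y => by
        have hc : ∀ x : L2 (Site d), IntervalIntegrable (fun s : ℝ => q R W x (σ s)) volume 0
          (N : ℝ) := fun x => ((q_cont R W x).comp hσ).intervalIntegrable _ _
        have e := intervalIntegral.integral_add (hc x) (hc y)
        unfold avq
        rw [← smul_add]
        congr 1
        refine Eq.trans ?_ e
        refine intervalIntegral.integral_congr fun s _ => ?_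
        show R.U (-σ s) (W.U (σ s) (x + y)) = R.U (-σ s) (W.U (σ s) x) + R.U (-σ s) (W.U (σ s) y)
        rw [map_add, map_add]
      map_smul' := fun a x => by
        have h1 : ∀ s, q R W (a • x) s = a • q R W x s := by
          intro s
          show R.U (-s) (W.U s (a • x)) = a • R.U (-s) (W.U s x)
          rw [map_smul, map_smul]
        unfold avq
        simp only [h1, intervalIntegral.integral_smul, RingHom.id_apply]
        rw [smul_comm] } 1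
    fun x => by
      rw [one_mul]
      exact avq_norm σ R W N x

theorem TQ_apply {σ : ℝ → ℝ} (hσ : Continuous σ) (R W : UG (L2 (Site d))) (N : ℕ)
    (x : L2 (Site d)) : TQ hσ R W N x = avq σ R W N x := rfl

/-- subsequences: the averages converge strongly, almost surely -/
theorem lim2A (hθ : ∀ z, MeasurePreserving (θ z) P P) (hR : Dyn θ R) (hW : Dyn θ W)
    (Mk : ℕ → ℕ) (hMt : Tendsto Mk atTop atTop) :
      ∃ a : ℕ → ℕ, StrictMono a ∧
        ∀ᵐ ω ∂P, ∃ B : L2 (Site d) →L[ℂ] L2 (Site d), GoodQ (R ω) (W ω) (Mk ∘ a) B := by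
  obtain ⟨b, hb, hP0, hM0⟩ := limA hθ hR hW
  have hP := hP0.comp hMt
  have hM := hM0.comp hMt
  have hca : ∀ {σ : ℝ → ℝ}, Continuous σ → ∀ N : ℕ,
      Continuous fun ω => avq σ (R ω) (W ω) N (dl 0) := fun hσ N =>
    (cont_avq hR hW hσ N).comp (continuous_id.prodMk continuous_const)
  have hfP : ∀ N, AEMeasurable (fun ω => ‖avq id (R ω) (W ω) N (dl 0) - b ω‖ₑ ^ 2) P :=
    fun N => (((hca continuous_id N).aestronglyMeasurable).sub hb).enorm.pow_const 2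
  have hfM : ∀ N, AEMeasurable (fun ω => ‖avq (fun s => -s) (R ω) (W ω) N (dl 0) - b ω‖ₑ ^ 2) P :=
    fun N => (((hca continuous_neg N).aestronglyMeasurable).sub hb).enorm.pow_const 2
  have hPM := hP.add hM
  rw [add_zero] at hPM
  obtain ⟨a, hmono, hNk⟩ := extraction_forall_of_eventually
    (P := fun n k => (∫⁻ ω, ‖avq id (R ω) (W ω) (Mk k) (dl 0) - b ω‖ₑ ^ 2 ∂P) +
      (∫⁻ ω, ‖avq (fun s => -s) (R ω) (W ω) (Mk k) (dl 0) - b ω‖ₑ ^ 2 ∂P) <
        (2⁻¹ : ℝ≥0∞) ^ n)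
    (fun n => (tendsto_order.1 hPM).2 _ (by
      refine ENNReal.pow_pos ?_ n
      simp))
  refine ⟨a, hmono, ?_⟩
  set Nk : ℕ → ℕ := Mk ∘ a with hNkdef
  -- almost sure convergence at the origin
  have hfS : ∀ n, AEMeasurable (fun ω => ‖avq id (R ω) (W ω) (Nk n) (dl 0) - b ω‖ₑ ^ 2 +
      ‖avq (fun s => -s) (R ω) (W ω) (Nk n) (dl 0) - b ω‖ₑ ^ 2) P := fun n =>
    (hfP (Nk n)).add (hfM (Nk n))
  have hsum : ∫⁻ ω, ∑' n, (‖avq id (R ω) (W ω) (Nk n) (dl 0) - b ω‖ₑ ^ 2 +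
      ‖avq (fun s => -s) (R ω) (W ω) (Nk n) (dl 0) - b ω‖ₑ ^ 2) ∂P ≠ ∞ := by
    rw [lintegral_tsum hfS]
    have hle : ∑' n, ∫⁻ ω, (‖avq id (R ω) (W ω) (Nk n) (dl 0) - b ω‖ₑ ^ 2 +
        ‖avq (fun s => -s) (R ω) (W ω) (Nk n) (dl 0) - b ω‖ₑ ^ 2) ∂P ≤
          ∑' n : ℕ, (2⁻¹ : ℝ≥0∞) ^ n := by
      refine ENNReal.tsum_le_tsum fun n => ?_
      rw [lintegral_add_left' (hfP (Nk n))]
      exact (hNk n).le
    refine ne_top_of_le_ne_top ?_ hle
    rw [ENNReal.tsum_geometric]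
    simp
  have hae := ae_lt_top' (AEMeasurable.tsum hfS) hsum
  have hG : ∀ᵐ ω ∂P, Tendsto (fun n => avq id (R ω) (W ω) (Nk n) (dl 0)) atTop
        (𝓝 (b ω)) ∧
      Tendsto (fun n => avq (fun s => -s) (R ω) (W ω) (Nk n) (dl 0)) atTop (𝓝 (b ω)) := by
    filter_upwards [hae] with ω hω
    have h0 := ENNReal.tendsto_atTop_zero_of_tsum_ne_top hω.ne
    constructor
    · refine LIMB.tendsto_of_enorm_sq (tendsto_of_tendsto_of_tendsto_of_le_of_le
        tendsto_const_nhds h0 (fun _ => zero_le) fun n => ?_)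
      exact le_self_add
    · refine LIMB.tendsto_of_enorm_sq (tendsto_of_tendsto_of_tendsto_of_le_of_le
        tendsto_const_nhds h0 (fun _ => zero_le) fun n => ?_)
      exact le_add_self
  have hGz : ∀ᵐ ω ∂P, ∀ z : Site d,
      Tendsto (fun n => avq id (R (θ z ω)) (W (θ z ω)) (Nk n) (dl 0)) atTop (𝓝 (b (θ z ω))) ∧
      Tendsto (fun n => avq (fun s => -s) (R (θ z ω)) (W (θ z ω)) (Nk n) (dl 0)) atTop
        (𝓝 (b (θ z ω))) := by
    rw [ae_all_iff]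
    intro z
    exact (hθ z).quasiMeasurePreserving.ae hG
  filter_upwards [hGz] with ω hω
  have hlim : ∀ (z : Site d) (S : L2 (Site d) →L[ℂ] L2 (Site d)), IsShift (-z) S →
      Tendsto (fun k => TQ continuous_id (R ω) (W ω) (Nk k) (dl z)) atTop
        (𝓝 (S (b (θ z ω)))) ∧
      Tendsto (fun k => TQ continuous_neg (R ω) (W ω) (Nk k) (dl z)) atTop
        (𝓝 (S (b (θ z ω)))) := by
    intro z S hS
    obtain ⟨T, hT⟩ := (t_OPS d).1 z
    have hinv : ∀ ψ, S (T ψ) = ψ := fun ψ => by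
      ext x
      rw [hS, hT, neg_add_cancel_right]
    constructor
    · have := (S.continuous.tendsto _).comp (hω z).1
      refine this.congr fun k => ?_
      rw [TQ_apply]
      have e := avq_conj (z := z) hR hW continuous_id hT hS ω (Nk k) (dl 0)
      show S (avq id (R (θ z ω)) (W (θ z ω)) (Nk k) (dl 0)) = _
      rw [e, hinv, LIMB.shift_dl z S hS]
    · have := (S.continuous.tendsto _).comp (hω z).2
      refine this.congr fun k => ?_
      rw [TQ_apply]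
      have e := avq_conj (z := z) hR hW continuous_neg hT hS ω (Nk k) (dl 0)
      show S (avq (fun s => -s) (R (θ z ω)) (W (θ z ω)) (Nk k) (dl 0)) = _
      rw [e, hinv, LIMB.shift_dl z S hS]
  obtain ⟨B, hB⟩ := LIMB.ext_lim (fun k => TQ continuous_id (R ω) (W ω) (Nk k))
    (fun k => TQ continuous_neg (R ω) (W ω) (Nk k))
    1 zero_le_one (fun k x => by rw [one_mul]; exact avq_norm id (R ω) (W ω) (Nk k) x)
    (fun k x => by rw [one_mul]; exact avq_norm (fun s => -s) (R ω) (W ω) (Nk k) x)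
    (Site d) dl (LIMB.dl_dense d) (fun z => by
      obtain ⟨S, hS⟩ := (t_OPS d).1 (-z)
      exact ⟨_, hlim z S hS⟩)
  exact ⟨B, hB⟩

end erg

end Pool.Agent.H988.DJ
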