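import Pool.Agent.H988.DJ.Erg

/-! # Disjointness of the Anderson dynamics and independent covariant dynamics -/

set_option autoImplicit false
set_option linter.unusedSectionVars false

open MeasureTheory Filter Topology
open scoped BigOperators ENNReal NNReal InnerProductSpace ComplexConjugate

namespace Pool.Agent.H988.DJ

open Pool.Agent.H5R2.NB Pool.Agent.H5R2.NBA Pool.Agent.H988.WM Pool.Agent.H988.RS

section avT

variable {X : Type} [NormedAddCommGroup X] [InnerProductSpace ℂ X]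

/-- time average over `[0, T]` -/
noncomputable def avT (R W : UG X) (T : ℝ) (x : X) : X :=
  ((T : ℂ)⁻¹) • ∫ s in (0 : ℝ)..T, q R W x s

theorem avT_norm (R W : UG X) (T : ℝ) (x : X) : ‖avT R W T x‖ ≤ ‖x‖ := by
  unfold avT
  have h := int_norm R W x 0 T
  rw [sub_zero] at h
  rw [norm_smul, norm_inv, Complex.norm_real, Real.norm_eq_abs]
  rcases eq_or_ne T 0 with h0 | h0
  · rw [h0]
    simp
  · have h1 : 0 < |T| := abs_pos.2 h0
    calc |T|⁻¹ * ‖∫ s in (0 : ℝ)..T, q R W x s‖ ≤ |T|⁻¹ * (‖x‖ * |T|) :=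
          mul_le_mul_of_nonneg_left h (by positivity)
      _ = ‖x‖ := by field_simp

theorem avT_sub (R W : UG X) {T : ℝ} (hT : 1 ≤ T) (x : X) :
    ‖avT R W T x - avq id R W ⌊T⌋₊ x‖ ≤ 2 * ‖x‖ / T := by
  have hT0 : 0 < T := lt_of_lt_of_le one_pos hT
  set N := ⌊T⌋₊ with hN
  have hN1 : 1 ≤ N := Nat.floor_pos.2 hT
  have hNT : (N : ℝ) ≤ T := Nat.floor_le hT0.le
  have hTN : T < N + 1 := Nat.lt_floor_add_one T
  have hNp : (0 : ℝ) < N := by exact_mod_cast hN1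
  have hi : ∀ a b : ℝ, IntervalIntegrable (q R W x) volume a b :=
    fun a b => (q_cont R W x).intervalIntegrable a b
  have e1 : avT R W T x - avq id R W N x =
      ((T : ℂ)⁻¹) • (∫ s in (N : ℝ)..T, q R W x s) -
        ((((N : ℝ)⁻¹ - T⁻¹ : ℝ)) : ℂ) • ∫ s in (0 : ℝ)..(N : ℝ), q R W x s := by
    unfold avT avq
    rw [← intervalIntegral.integral_add_adjacent_intervals (hi 0 N) (hi N T)]
    simp only [id]
    push_cast
    module
  have h1 := int_norm R W x (N : ℝ) T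
  have h2 := int_norm R W x 0 (N : ℝ)
  rw [sub_zero, abs_of_pos hNp] at h2
  rw [abs_of_nonneg (sub_nonneg.2 hNT)] at h1
  have h3 : (0 : ℝ) ≤ (N : ℝ)⁻¹ - T⁻¹ := sub_nonneg.2 (inv_anti₀ hNp hNT)
  rw [e1]
  refine (norm_sub_le _ _).trans ?_
  rw [norm_smul, norm_smul, norm_inv, Complex.norm_real, Complex.norm_real, Real.norm_eq_abs,
    Real.norm_eq_abs, abs_of_pos hT0, abs_of_nonneg h3]
  have h4 : T⁻¹ * ‖∫ s in (N : ℝ)..T, q R W x s‖ ≤ T⁻¹ * (‖x‖ * (T - N)) :=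
    mul_le_mul_of_nonneg_left h1 (by positivity)
  have h5 : ((N : ℝ)⁻¹ - T⁻¹) * ‖∫ s in (0 : ℝ)..(N : ℝ), q R W x s‖ ≤
      ((N : ℝ)⁻¹ - T⁻¹) * (‖x‖ * N) := mul_le_mul_of_nonneg_left h2 h3
  have h6 : T⁻¹ * (‖x‖ * (T - N)) + ((N : ℝ)⁻¹ - T⁻¹) * (‖x‖ * N) = 2 * ‖x‖ * (T - N) / T := by
    field_simp
    ring
  have h7 : 2 * ‖x‖ * (T - N) / T ≤ 2 * ‖x‖ / T := by
    refine div_le_div_of_nonneg_right ?_ hT0.le
    have : T - N ≤ 1 := by linarith
    have h8 := mul_le_mul_of_nonneg_left this (by positivity : 0 ≤ 2 * ‖x‖)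
    linarith
  linarith

end avT

variable {d : ℕ}

section main

variable {Ω : Type} [TopologicalSpace Ω] [SecondCountableTopology Ω]
  [TopologicalSpace.PseudoMetrizableSpace Ω] [MeasurableSpace Ω]
  [OpensMeasurableSpace Ω] {P : Measure Ω} [IsProbabilityMeasure P] {θ : Site d → Ω → Ω}
  {R W : Ω → UG (L2 (Site d))}

theorem cont_avT (hR : Dyn θ R) (hW : Dyn θ W) (T : ℝ) :
    Continuous fun p : Ω × L2 (Site d) => avT (R p.1) (W p.1) T p.2 := by
  unfold avT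
  have h3 : Continuous fun p : (Ω × L2 (Site d)) × ℝ => q (R p.1.1) (W p.1.1) p.1.2 p.2 :=
    (q_joint hR hW).comp (continuous_snd.prodMk
      ((continuous_fst.comp continuous_fst).prodMk (continuous_snd.comp continuous_fst)))
  exact (intervalIntegral.continuous_parametric_intervalIntegral_of_continuous'
    (f := fun (p : Ω × L2 (Site d)) (s : ℝ) => q (R p.1) (W p.1) p.2 s) h3 0
      T).const_smul ((T : ℂ)⁻¹)

/-- the averages tend to zero as soon as all their limits along subsequences vanish -/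
theorem main_disj (hθ : ∀ z, MeasurePreserving (θ z) P P) (hR : Dyn θ R) (hW : Dyn θ W)
    (hz : ∀ Nk : ℕ → ℕ, Tendsto Nk atTop atTop →
      (∀ᵐ ω ∂P, ∃ B : L2 (Site d) →L[ℂ] L2 (Site d), GoodQ (R ω) (W ω) Nk B) →
      ∀ᵐ ω ∂P, ∀ B : L2 (Site d) →L[ℂ] L2 (Site d), GoodQ (R ω) (W ω) Nk B → B = 0)
    {ψ : Ω → L2 (Site d)} (hψ : MemLp ψ 2 P) :
    Tendsto (fun T : ℝ => ∫⁻ ω, ‖avT (R ω) (W ω) T (ψ ω)‖ₑ ^ 2 ∂P) atTop (𝓝 0) := by
  refine tendsto_of_subseq_tendsto fun ns hns => ?_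
  have hMk : Tendsto (fun k => ⌊ns k⌋₊) atTop atTop := tendsto_nat_floor_atTop.comp hns
  obtain ⟨a, ha, hG⟩ := lim2A hθ hR hW (fun k => ⌊ns k⌋₊) hMk
  have hz' := hz _ (hMk.comp ha.tendsto_atTop) hG
  refine ⟨a, ?_⟩
  have h5 : Tendsto (fun n => ∫⁻ ω, ‖avT (R ω) (W ω) (ns (a n)) (ψ ω)‖ₑ ^ 2 ∂P) atTop
      (𝓝 (∫⁻ _ω, 0 ∂P)) := by
    refine tendsto_lintegral_of_dominated_convergence'
      (fun ω => ‖ψ ω‖ₑ ^ 2) (fun n => ?_) (fun n => ?_) ?_ ?_
    · have h1 : AEStronglyMeasurable (fun ω => (ω, ψ ω)) P :=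
        aestronglyMeasurable_id.prodMk hψ.1
      exact ((cont_avT hR hW (ns (a n))).comp_aestronglyMeasurable h1).enorm.pow_const 2
    · refine Eventually.of_forall fun ω => ?_
      show ‖avT (R ω) (W ω) (ns (a n)) (ψ ω)‖ₑ ^ 2 ≤ ‖ψ ω‖ₑ ^ 2
      gcongr
      rw [← ofReal_norm, ← ofReal_norm]
      exact ENNReal.ofReal_le_ofReal (avT_norm _ _ _ _)
    · have h3 := eLpNorm_nnreal_pow_eq_lintegral (f := ψ) (μ := P) (p := 2) two_ne_zero
      have h4 : ((2 : ℝ≥0) : ℝ≥0∞) = 2 := rfl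
      have h5 : ((2 : ℝ≥0) : ℝ) = 2 := rfl
      rw [h4, h5] at h3
      simp only [ENNReal.rpow_two] at h3
      rw [← h3]
      exact ENNReal.pow_ne_top hψ.2.ne
    · filter_upwards [hG, hz'] with ω ⟨B, hB⟩ h2
      have hB0 : B = 0 := h2 B hB
      have h6 := (hB (ψ ω)).1
      rw [hB0, zero_apply] at h6
      have h7 : Tendsto (fun n => ns (a n)) atTop atTop := hns.comp ha.tendsto_atTop
      have h8 : Tendsto (fun n => avT (R ω) (W ω) (ns (a n)) (ψ ω) -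
          avq id (R ω) (W ω) ⌊ns (a n)⌋₊ (ψ ω)) atTop (𝓝 0) := by
        have h9 : Tendsto (fun n => 2 * ‖ψ ω‖ / ns (a n)) atTop (𝓝 0) :=
          tendsto_const_nhds.div_atTop h7
        refine squeeze_zero_norm' ?_ h9
        filter_upwards [h7.eventually_ge_atTop 1] with n hn
        exact avT_sub (R ω) (W ω) hn (ψ ω)
      have h9 := h8.add h6
      rw [add_zero] at h9
      have h10 : Tendsto (fun n => avT (R ω) (W ω) (ns (a n)) (ψ ω)) atTop (𝓝 0) := by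
        refine h9.congr fun n => ?_
        show avT (R ω) (W ω) (ns (a n)) (ψ ω) - avq id (R ω) (W ω) ⌊ns (a n)⌋₊ (ψ ω) +
          avq id (R ω) (W ω) ⌊ns (a n)⌋₊ (ψ ω) = _
        abel
      have h11 := h10.enorm
      rw [enorm_zero] at h11
      have h12 := ((ENNReal.continuous_pow 2).tendsto 0).comp h11
      simpa [Function.comp_def] using h12
  simpa using h5

/-- the adjoint averages -/
theorem avq_adj {X : Type} [NormedAddCommGroup X] [InnerProductSpace ℂ X] [CompleteSpace X]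
    (R W : UG X) (N : ℕ) (x y : X) : ⟪y, avq id W R N x⟫_ℂ = ⟪avq id R W N y, x⟫_ℂ := by
  have h1 : ∀ s : ℝ, ⟪y, q W R x s⟫_ℂ = ⟪q R W y s, x⟫_ℂ := by
    intro s
    show ⟪y, W.U (-s) (R.U s x)⟫_ℂ = ⟪R.U (-s) (W.U s y), x⟫_ℂ
    rw [← ANTI.inner_adj, NN.inner_adj R (-s)]
    congr 2
    rw [neg_neg]
  have e1 : ⟪y, avq id W R N x⟫_ℂ = ((N : ℂ)⁻¹) * ∫ s in (0 : ℝ)..(N : ℝ), ⟪y, q W R x s⟫_ℂ := by
    unfold avq
    rw [inner_smul_right]
    congr 1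
    exact ((innerSL ℂ y).intervalIntegral_comp_comm
      ((q_cont W R x).intervalIntegrable (μ := volume) 0 N)).symm
  have e2 : ⟪x, avq id R W N y⟫_ℂ = ((N : ℂ)⁻¹) * ∫ s in (0 : ℝ)..(N : ℝ), ⟪x, q R W y s⟫_ℂ := by
    unfold avq
    rw [inner_smul_right]
    congr 1
    exact ((innerSL ℂ x).intervalIntegral_comp_comm
      ((q_cont R W y).intervalIntegrable (μ := volume) 0 N)).symm
  rw [e1, ← inner_conj_symm, e2, map_mul, map_inv₀, Complex.conj_natCast]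
  congr 1
  rw [intervalIntegral.integral_of_le (Nat.cast_nonneg N),
    intervalIntegral.integral_of_le (Nat.cast_nonneg N), ← integral_conj]
  refine integral_congr_ae (Eventually.of_forall fun s => ?_)
  show ⟪y, q W R x s⟫_ℂ = conj ⟪x, q R W y s⟫_ℂ
  rw [inner_conj_symm, h1]

/-- the other order -/
theorem hz_swap (hθ : ∀ z, MeasurePreserving (θ z) P P) (hR : Dyn θ R) (hW : Dyn θ W)
    (hz : ∀ Nk : ℕ → ℕ, Tendsto Nk atTop atTop →
      (∀ᵐ ω ∂P, ∃ B : L2 (Site d) →L[ℂ] L2 (Site d), GoodQ (R ω) (W ω) Nk B) →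
      ∀ᵐ ω ∂P, ∀ B : L2 (Site d) →L[ℂ] L2 (Site d), GoodQ (R ω) (W ω) Nk B → B = 0)
    (Nk : ℕ → ℕ) (hNk : Tendsto Nk atTop atTop) :
    ∀ᵐ ω ∂P, ∀ B : L2 (Site d) →L[ℂ] L2 (Site d), GoodQ (W ω) (R ω) Nk B → B = 0 := by
  obtain ⟨a, ha, hG⟩ := lim2A hθ hR hW Nk hNk
  filter_upwards [hG, hz _ (hNk.comp ha.tendsto_atTop) hG] with ω ⟨B1, hB1⟩ h1 B hB
  have h2 : B1 = 0 := h1 B1 hB1
  ext1 x
  rw [zero_apply]
  refine ext_inner_left ℂ fun y => ?_
  rw [inner_zero_right]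
  have h3 : Tendsto (fun k => ⟪y, avq id (W ω) (R ω) (Nk (a k)) x⟫_ℂ) atTop (𝓝 ⟪y, B x⟫_ℂ) :=
    tendsto_const_nhds.inner ((hB x).1.comp ha.tendsto_atTop)
  have h4 : Tendsto (fun k => ⟪avq id (R ω) (W ω) (Nk (a k)) y, x⟫_ℂ) atTop (𝓝 ⟪B1 y, x⟫_ℂ) :=
    (hB1 y).1.inner tendsto_const_nhds
  rw [h2, zero_apply, inner_zero_left] at h4
  refine tendsto_nhds_unique h3 (h4.congr fun k => ?_)
  rw [avq_adj]

/-- the other order -/
theorem main_disj' (hθ : ∀ z, MeasurePreserving (θ z) P P) (hR : Dyn θ R) (hW : Dyn θ W)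
    (hz : ∀ Nk : ℕ → ℕ, Tendsto Nk atTop atTop →
      (∀ᵐ ω ∂P, ∃ B : L2 (Site d) →L[ℂ] L2 (Site d), GoodQ (R ω) (W ω) Nk B) →
      ∀ᵐ ω ∂P, ∀ B : L2 (Site d) →L[ℂ] L2 (Site d), GoodQ (R ω) (W ω) Nk B → B = 0)
    {ψ : Ω → L2 (Site d)} (hψ : MemLp ψ 2 P) :
    Tendsto (fun T : ℝ => ∫⁻ ω, ‖avT (W ω) (R ω) T (ψ ω)‖ₑ ^ 2 ∂P) atTop (𝓝 0) :=
  main_disj hθ hW hR (fun Nk hNk _ => hz_swap hθ hR hW hz Nk hNk) hψ

end main

section prod

variable {Ω : Type} [TopologicalSpace Ω] [SecondCountableTopology Ω]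
  [TopologicalSpace.PseudoMetrizableSpace Ω] [MeasurableSpace Ω]
  [OpensMeasurableSpace Ω] {P : Measure Ω} [IsProbabilityMeasure P] {θ : Site d → Ω → Ω}
  {R : Ω → UG (L2 (Site d))} {c : ℝ} {ev : (Site d → ℝ) → UG (L2 (Site d))}

/-- the potential `o + lam ω` -/
def aff (o lam : ℝ) (ω : Site d → ℝ) : Site d → ℝ := fun x => o + lam * ω x

theorem aff_cont (o lam : ℝ) : Continuous (aff (d := d) o lam) := by
  unfold aff
  fun_prop

/-- the translations of pairs -/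
def θ2 (θ : Site d → Ω → Ω) (z : Site d) (p : Ω × (Site d → ℝ)) : Ω × (Site d → ℝ) :=
  (θ z p.1, fun y => p.2 (y + z))

theorem dyn_R (hR : Dyn θ R) : Dyn (θ2 θ) (fun p : Ω × (Site d → ℝ) => R p.1) :=
  ⟨hR.cU (continuous_fst.comp continuous_fst) (continuous_fst.comp continuous_snd)
    (continuous_snd.comp continuous_snd), fun z S hS p t ψ => hR.cov z S hS p.1 t ψ⟩

theorem dyn_W (hev : ∀ V, IsGrp c V (ev V)) (o lam : ℝ) (θ : Site d → Ω → Ω) :
    Dyn (θ2 θ) (fun p : Ω × (Site d → ℝ) => ev (aff o lam p.2)) := by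
  refine ⟨?_, fun z S hS p t ψ => ?_⟩
  · exact (ALL.a_CV d c ev hev).comp (((aff_cont o lam).comp
      (continuous_snd.comp continuous_fst)).prodMk ((continuous_fst.comp continuous_snd).prodMk
      (continuous_snd.comp continuous_snd)))
  · exact ALL.a_COV d c ev hev z S hS (aff o lam p.2) t ψ

theorem mp_prod (ν : Measure ℝ) [IsProbabilityMeasure ν]
    (hθ : ∀ z, MeasurePreserving (θ z) P P) (z : Site d) :
    MeasurePreserving (θ2 θ z) (P.prod (PP d ν)) (P.prod (PP d ν)) :=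
  (hθ z).prod ((t_RES d ν).2 z)

/-- a law with a density, after an affine map -/
theorem fixed_zero_aff (hev : ∀ V, IsGrp c V (ev V))
    (R : UG (L2 (Site d))) (ν : Measure ℝ) [IsProbabilityMeasure ν] (hν : ν ≪ volume)
    (o : ℝ) {lam : ℝ} (hlam : lam ≠ 0)
    (Nk : ℕ → ℕ) (hNk : Tendsto Nk atTop atTop)
    (hG : ∀ᵐ ω ∂(PP d ν), ∃ B : L2 (Site d) →L[ℂ] L2 (Site d), GoodQ R (ev (aff o lam ω)) Nk B) :
    ∀ᵐ ω ∂(PP d ν), ∀ B : L2 (Site d) →L[ℂ] L2 (Site d),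
      GoodQ R (ev (aff o lam ω)) Nk B → B = 0 := by
  set e1 : ℝ ≃ᵐ ℝ := ((Homeomorph.mulLeft₀ lam hlam).trans (Homeomorph.addLeft o)).toMeasurableEquiv
    with he1
  have he1a : ∀ r, e1 r = o + lam * r := fun r => rfl
  set e : (Site d → ℝ) ≃ᵐ (Site d → ℝ) := MeasurableEquiv.piCongrRight fun _ => e1 with he
  have hea : ∀ ω, e ω = aff o lam ω := fun ω => rfl
  set ν' : Measure ℝ := ν.map e1 with hν'
  have hp : IsProbabilityMeasure ν' := Measure.isProbabilityMeasure_map e1.measurable.aemeasurable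
  have hac : ν' ≪ volume := by
    refine Measure.AbsolutelyContinuous.mk fun s hs hs0 => ?_
    rw [hν', Measure.map_apply e1.measurable hs]
    refine hν ?_
    have h1 : (e1 ⁻¹' s) = (fun r => lam * r) ⁻¹' ((fun r => o + r) ⁻¹' s) := rfl
    have h2 : volume ((fun r : ℝ => o + r) ⁻¹' s) = 0 := by
      rw [measure_preimage_add]
      exact hs0
    rw [h1, Real.volume_preimage_mul_left hlam, h2, mul_zero]
  have hmap : (PP d ν).map e = PP d ν' := by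
    unfold PP
    exact Measure.infinitePi_map_pi (μ := fun _ : Site d => ν) (fun _ => e1.measurable)
  have h1 : ∀ᵐ V ∂(PP d ν'), ∃ B : L2 (Site d) →L[ℂ] L2 (Site d), GoodQ R (ev V) Nk B := by
    rw [← hmap, e.measurableEmbedding.ae_map_iff]
    exact hG
  have h2 := fixed_zero hev R ν' hac Nk hNk h1
  rw [← hmap, e.measurableEmbedding.ae_map_iff] at h2
  exact h2

/-- the limits vanish almost surely in the product space -/
theorem hz_prod (hev : ∀ V, IsGrp c V (ev V)) (hR : Dyn θ R) (ν : Measure ℝ)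
    [IsProbabilityMeasure ν] (hν : ν ≪ volume) (o : ℝ) {lam : ℝ} (hlam : lam ≠ 0)
    (Nk : ℕ → ℕ) (hNk : Tendsto Nk atTop atTop)
    (hG : ∀ᵐ p ∂(P.prod (PP d ν)), ∃ B : L2 (Site d) →L[ℂ] L2 (Site d),
      GoodQ (R p.1) (ev (aff o lam p.2)) Nk B) :
    ∀ᵐ p ∂(P.prod (PP d ν)), ∀ B : L2 (Site d) →L[ℂ] L2 (Site d),
      GoodQ (R p.1) (ev (aff o lam p.2)) Nk B → B = 0 := by
  have h1 := Measure.ae_ae_of_ae_prod hG
  have h2 : ∀ᵐ ω' ∂P, ∀ᵐ ω ∂(PP d ν), ∀ x : Site d,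
      Tendsto (fun k => ‖avq id (R ω') (ev (aff o lam ω)) (Nk k) (dl x)‖) atTop (𝓝 0) := by
    filter_upwards [h1] with ω' hω'
    filter_upwards [hω', fixed_zero_aff hev (R ω') ν hν o hlam Nk hNk hω'] with ω ⟨B, hB⟩ h3 x
    have h4 := (hB (dl x)).1.norm
    rwa [h3 B hB, zero_apply, norm_zero] at h4
  have hm : ∀ (x : Site d) (k : ℕ), Measurable fun p : Ω × (Site d → ℝ) =>
      ‖avq id (R p.1) (ev (aff o lam p.2)) (Nk k) (dl x)‖ := fun x k =>
    (((cont_avq (dyn_R hR) (dyn_W hev o lam θ) continuous_id (Nk k)).comp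
      (continuous_id.prodMk continuous_const)).norm).measurable
  have hms : MeasurableSet {p : Ω × (Site d → ℝ) | ∀ x : Site d,
      Tendsto (fun k => ‖avq id (R p.1) (ev (aff o lam p.2)) (Nk k) (dl x)‖) atTop (𝓝 0)} := by
    rw [Set.ofPred_forall]
    exact MeasurableSet.iInter fun x => measurableSet_tendsto (𝓝 (0 : ℝ)) (hm x)
  have h3 := (Measure.ae_prod_iff_ae_ae hms).2 h2
  filter_upwards [h3] with p hp B hB
  have h4 : ∀ x : Site d, B (dl x) = 0 := fun x =>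
    norm_eq_zero.1 (tendsto_nhds_unique (hB (dl x)).1.norm (hp x))
  have h5 : closure (Submodule.span ℂ (Set.range (dl (d := d))) : Set (L2 (Site d))) ⊆
      LinearMap.ker B.toLinearMap := by
    refine closure_minimal ?_ B.isClosed_ker
    have h6 : Submodule.span ℂ (Set.range (dl (d := d))) ≤ LinearMap.ker B.toLinearMap := by
      rw [Submodule.span_le]
      rintro _ ⟨y, rfl⟩
      exact h4 y
    exact h6
  ext1 u
  exact h5 (LIMB.dl_dense d u)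

/-- **disjointness from every independent covariant dynamics** -/
theorem disjoint_main (hev : ∀ V, IsGrp c V (ev V)) (hθ : ∀ z, MeasurePreserving (θ z) P P)
    (hR : Dyn θ R) (ν : Measure ℝ)
    [IsProbabilityMeasure ν] (hν : ν ≪ volume) (o : ℝ) {lam : ℝ} (hlam : lam ≠ 0)
    {ψ : Ω × (Site d → ℝ) → L2 (Site d)} (hψ : MemLp ψ 2 (P.prod (PP d ν))) :
    Tendsto (fun T : ℝ => ∫⁻ p, ‖avT (R p.1) (ev (aff o lam p.2)) T (ψ p)‖ₑ ^ 2
      ∂(P.prod (PP d ν))) atTop (𝓝 0) ∧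
    Tendsto (fun T : ℝ => ∫⁻ p, ‖avT (ev (aff o lam p.2)) (R p.1) T (ψ p)‖ₑ ^ 2
      ∂(P.prod (PP d ν))) atTop (𝓝 0) := by
  have hz : ∀ Nk : ℕ → ℕ, Tendsto Nk atTop atTop →
      (∀ᵐ p ∂(P.prod (PP d ν)), ∃ B : L2 (Site d) →L[ℂ] L2 (Site d),
        GoodQ (R p.1) (ev (aff o lam p.2)) Nk B) →
      ∀ᵐ p ∂(P.prod (PP d ν)), ∀ B : L2 (Site d) →L[ℂ] L2 (Site d),
        GoodQ (R p.1) (ev (aff o lam p.2)) Nk B → B = 0 := fun Nk hNk hG =>
    hz_prod hev hR ν hν o hlam Nk hNk hG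
  have hP : IsProbabilityMeasure (PP d ν) := by
    unfold PP
    infer_instance
  exact ⟨main_disj (R := fun p : Ω × (Site d → ℝ) => R p.1)
      (W := fun p => ev (aff o lam p.2)) (mp_prod ν hθ) (dyn_R hR) (dyn_W hev o lam θ) hz hψ,
    main_disj' (R := fun p : Ω × (Site d → ℝ) => R p.1)
      (W := fun p => ev (aff o lam p.2)) (mp_prod ν hθ) (dyn_R hR) (dyn_W hev o lam θ) hz hψ⟩

end prod

end Pool.Agent.H988.DJ
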