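import Pool.Agent.H988.DJ.Sing

/-! # Observables between two dynamics, and rank one families -/

set_option autoImplicit false

open MeasureTheory Filter Topology
open scoped BigOperators ENNReal NNReal InnerProductSpace ComplexConjugate

namespace Pool.Agent.H988.DJ

open Pool.Agent.H5R2.NB Pool.Agent.H5R2.NBA Pool.Agent.H988.WM

section gen

variable {X : Type} [NormedAddCommGroup X] [InnerProductSpace ℂ X]

/-- the observable between the two dynamics -/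
noncomputable def p (R W : UG X) (v : X →L[ℂ] X) (x : X) (s : ℝ) : X := R.U (-s) (v (W.U s x))

theorem p_cont (R W : UG X) (v : X →L[ℂ] X) (x : X) : Continuous (p R W v x) :=
  BP.cont_U R continuous_neg (v.continuous.comp (W.cont' x))

theorem p_norm (R W : UG X) (v : X →L[ℂ] X) (x : X) (s : ℝ) : ‖p R W v x s‖ ≤ ‖v‖ * ‖x‖ := by
  unfold p
  rw [R.norm']
  refine (v.le_opNorm _).trans ?_
  rw [W.norm']

theorem p_shift (R W : UG X) (v : X →L[ℂ] X) (x : X) (t s : ℝ) :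
    p R W v (W.U t x) s = R.U t (p R W v x (s + t)) := by
  unfold p
  rw [← W.add', ← R.add']
  congr 2
  ring

/-- time average; `σ = id` or `σ = -id` -/
noncomputable def avp (σ : ℝ → ℝ) (R W : UG X) (v : X →L[ℂ] X) (N : ℕ) (x : X) : X :=
  ((N : ℂ)⁻¹) • ∫ s in (0 : ℝ)..(N : ℝ), p R W v x (σ s)

/-- both time averages converge strongly to `B` along the sequence `Nk` -/
def GoodP (R W : UG X) (v : X →L[ℂ] X) (Nk : ℕ → ℕ) (B : X →L[ℂ] X) : Prop :=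
  ∀ x, Tendsto (fun k => avp id R W v (Nk k) x) atTop (𝓝 (B x)) ∧
    Tendsto (fun k => avp (fun s => -s) R W v (Nk k) x) atTop (𝓝 (B x))

theorem avp_norm (σ : ℝ → ℝ) (R W : UG X) (v : X →L[ℂ] X) (N : ℕ) (x : X) :
    ‖avp σ R W v N x‖ ≤ ‖v‖ * ‖x‖ :=
  LIMB.norm_avg _ _ (fun s => p_norm R W v x (σ s)) N

theorem intp_norm (R W : UG X) (v : X →L[ℂ] X) (x : X) (a b : ℝ) :
    ‖∫ s in a..b, p R W v x s‖ ≤ ‖v‖ * ‖x‖ * |b - a| :=
  intervalIntegral.norm_integral_le_of_norm_le_const fun s _ => p_norm R W v x s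

theorem avp_shift [CompleteSpace X] (R W : UG X) (v : X →L[ℂ] X) (N : ℕ) (x : X) (t : ℝ) :
    ‖avp id R W v N (W.U t x) - R.U t (avp id R W v N x)‖ ≤
      (N : ℝ)⁻¹ * (2 * (‖v‖ * ‖x‖ * |t|)) := by
  have hi : ∀ a b : ℝ, IntervalIntegrable (p R W v x) volume a b :=
    fun a b => (p_cont R W v x).intervalIntegrable a b
  have h1 : avp id R W v N (W.U t x) = ((N : ℂ)⁻¹) •
      (R.U t (∫ s in t..(N : ℝ) + t, p R W v x s)) := by
    unfold avp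
    congr 1
    have e1 : ∫ s in (0 : ℝ)..(N : ℝ), p R W v (W.U t x) (id s) =
        ∫ s in (0 : ℝ)..(N : ℝ), R.U t (p R W v x (s + t)) :=
      intervalIntegral.integral_congr fun s _ => p_shift R W v x t s
    rw [e1]
    rw [intervalIntegral.integral_comp_add_right (fun s => R.U t (p R W v x s)) t, zero_add,
      ContinuousLinearMap.intervalIntegral_comp_comm _ (hi _ _)]
  have h2 : R.U t (avp id R W v N x) =
      ((N : ℂ)⁻¹) • (R.U t (∫ s in (0 : ℝ)..(N : ℝ), p R W v x s)) := by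
    unfold avp
    rw [map_smul]
    rfl
  rw [h1, h2, ← smul_sub, ← map_sub, norm_smul, norm_inv,
    Complex.norm_natCast, R.norm']
  refine mul_le_mul_of_nonneg_left ?_ (by positivity)
  have h3 : ∫ s in t..(N : ℝ) + t, p R W v x s = (∫ s in t..(0 : ℝ), p R W v x s) +
      (∫ s in (0 : ℝ)..(N : ℝ), p R W v x s) + ∫ s in (N : ℝ)..(N : ℝ) + t, p R W v x s := by
    rw [intervalIntegral.integral_add_adjacent_intervals (hi _ _) (hi _ _),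
      intervalIntegral.integral_add_adjacent_intervals (hi _ _) (hi _ _)]
  have h4 : (∫ s in t..(N : ℝ) + t, p R W v x s) - ∫ s in (0 : ℝ)..(N : ℝ), p R W v x s =
      (∫ s in t..(0 : ℝ), p R W v x s) + ∫ s in (N : ℝ)..(N : ℝ) + t, p R W v x s := by
    rw [h3]; abel
  rw [h4]
  have h5 := intp_norm R W v x t 0
  have h6 := intp_norm R W v x (N : ℝ) ((N : ℝ) + t)
  rw [zero_sub, abs_neg] at h5
  rw [add_sub_cancel_left] at h6
  refine (norm_add_le _ _).trans ?_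
  linarith

theorem goodP_norm {R W : UG X} {v : X →L[ℂ] X} {Nk : ℕ → ℕ} {B : X →L[ℂ] X}
    (hB : GoodP R W v Nk B) (x : X) : ‖B x‖ ≤ ‖v‖ * ‖x‖ :=
  le_of_tendsto (hB x).1.norm (Eventually.of_forall fun k => avp_norm id R W v (Nk k) x)

/-- the limit intertwines the two dynamics -/
theorem goodP_comm [CompleteSpace X] {R W : UG X} {v : X →L[ℂ] X} {Nk : ℕ → ℕ}
    (hNk : Tendsto Nk atTop atTop) {B : X →L[ℂ] X}
    (hB : GoodP R W v Nk B) (t : ℝ) (x : X) : B (W.U t x) = R.U t (B x) := by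
  have h1 := (hB (W.U t x)).1
  have h2 : Tendsto (fun k => R.U t (avp id R W v (Nk k) x)) atTop
      (𝓝 (R.U t (B x))) :=
    (((R.U t).continuous.tendsto _).comp (hB x).1)
  have h3 : Tendsto (fun k => avp id R W v (Nk k) (W.U t x) -
      R.U t (avp id R W v (Nk k) x)) atTop (𝓝 0) := by
    refine squeeze_zero_norm (fun k => avp_shift R W v (Nk k) x t) ?_
    have h4 : Tendsto (fun k => ((Nk k : ℕ) : ℝ)⁻¹) atTop (𝓝 0) :=
      tendsto_inv_atTop_zero.comp (tendsto_natCast_atTop_atTop.comp hNk)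
    simpa using h4.mul_const (2 * (‖v‖ * ‖x‖ * |t|))
  have h5 := tendsto_nhds_unique h3 (h1.sub h2)
  exact (sub_eq_zero.1 h5.symm)

/-- Cesàro means of a difference which tends to zero -/
theorem ces_zero [CompleteSpace X] {f : ℝ → X} (hf : Continuous f) {C : ℝ} (hC : ∀ s, ‖f s‖ ≤ C)
    (h0 : Tendsto (fun s => ‖f s‖) atTop (𝓝 0)) {Nk : ℕ → ℕ} (hN : Tendsto Nk atTop atTop) :
    Tendsto (fun k => ((Nk k : ℂ)⁻¹) • ∫ s in (0 : ℝ)..(Nk k : ℝ), f s) atTop (𝓝 0) := by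
  have hD : Tendsto (fun s => ((‖f s‖ : ℝ) : ℂ)) atTop (𝓝 0) := by
    have h3 := (Complex.continuous_ofReal.tendsto 0).comp h0
    rwa [Complex.ofReal_zero] at h3
  have h3 := W3.cesaro (D := fun s : ℝ => ((‖f s‖ : ℝ) : ℂ))
    (Complex.continuous_ofReal.comp hf.norm) C (fun s => by
      rw [Complex.norm_real, norm_norm]
      exact hC s) hD hN
  have h4 := h3.norm
  rw [norm_zero] at h4
  refine squeeze_zero_norm (fun k => ?_) h4
  have hk : (0 : ℝ) ≤ (Nk k : ℝ) := Nat.cast_nonneg _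
  have h5 : ‖∫ s in (0 : ℝ)..(Nk k : ℝ), f s‖ ≤ ∫ s in (0 : ℝ)..(Nk k : ℝ), ‖f s‖ :=
    intervalIntegral.norm_integral_le_integral_norm hk
  have h6 : ∫ s in (0 : ℝ)..(Nk k : ℝ), ((‖f s‖ : ℝ) : ℂ) =
      ((∫ s in (0 : ℝ)..(Nk k : ℝ), ‖f s‖ : ℝ) : ℂ) := intervalIntegral.integral_ofReal
  have h7 : 0 ≤ ∫ s in (0 : ℝ)..(Nk k : ℝ), ‖f s‖ :=
    intervalIntegral.integral_nonneg hk fun s _ => norm_nonneg _
  rw [norm_smul, h6, norm_mul, Complex.norm_real, Real.norm_of_nonneg h7]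
  exact mul_le_mul_of_nonneg_left h5 (norm_nonneg _)

/-- wave operators are compatible with the averages of `v` -/
theorem coreP [CompleteSpace X] (R W W' : UG X) (v : X →L[ℂ] X) (Nk : ℕ → ℕ)
    (hN : Tendsto Nk atTop atTop) (l : Filter ℝ) (σ : ℝ → ℝ) (hσ : Continuous σ)
    (hl : Tendsto σ atTop l) (ψ ψp b b' : X)
    (hψ : Tendsto (fun t : ℝ => W'.U (-t) (W.U t ψ)) l (𝓝 ψp))
    (hb : Tendsto (fun k => avp σ R W v (Nk k) ψ) atTop (𝓝 b))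
    (hb' : Tendsto (fun k => avp σ R W' v (Nk k) ψp) atTop (𝓝 b')) :
    b' = b := by
  have hn : ∀ s, ‖p R W' v ψp (σ s) - p R W v ψ (σ s)‖ ≤
      ‖v‖ * ‖W'.U (-(σ s)) (W.U (σ s) ψ) - ψp‖ := by
    intro s
    unfold p
    rw [← map_sub, R.norm', ← map_sub]
    refine (v.le_opNorm _).trans (le_of_eq ?_)
    congr 1
    rw [norm_sub_rev]
    have e : W.U (σ s) ψ - W'.U (σ s) ψp =
        W'.U (σ s) (W'.U (-(σ s)) (W.U (σ s) ψ) - ψp) := by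
      rw [map_sub, ← W'.add', add_neg_cancel, W'.zero']
    rw [e, W'.norm']
  have hc : Continuous fun s => p R W' v ψp (σ s) - p R W v ψ (σ s) :=
    ((p_cont R W' v ψp).comp hσ).sub ((p_cont R W v ψ).comp hσ)
  have h0 : Tendsto (fun s => ‖p R W' v ψp (σ s) - p R W v ψ (σ s)‖) atTop (𝓝 0) := by
    have h1 := ((tendsto_iff_norm_sub_tendsto_zero.1 hψ).comp hl).const_mul ‖v‖
    rw [mul_zero] at h1
    exact squeeze_zero (fun _ => norm_nonneg _) hn h1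
  have h7 : Tendsto (fun k => avp σ R W' v (Nk k) ψp - avp σ R W v (Nk k) ψ) atTop (𝓝 0) := by
    refine (ces_zero hc (C := ‖v‖ * ‖ψp‖ + ‖v‖ * ‖ψ‖) (fun s => ?_) h0 hN).congr fun k => ?_
    · exact (norm_sub_le _ _).trans (add_le_add (p_norm _ _ _ _ _) (p_norm _ _ _ _ _))
    · have hi : ∀ (W₁ : UG X) (x : X), IntervalIntegrable
          (fun s : ℝ => p R W₁ v x (σ s)) volume 0 (Nk k : ℝ) := fun W₁ x =>
        ((p_cont R W₁ v x).comp hσ).intervalIntegrable _ _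
      unfold avp
      rw [← smul_sub, ← intervalIntegral.integral_sub (hi W' ψp) (hi W ψ)]
  have h8 := tendsto_nhds_unique h7 (hb'.sub hb)
  exact sub_eq_zero.1 h8.symm

theorem avp_add (σ : ℝ → ℝ) (hσ : Continuous σ) (R W : UG X) (v v' : X →L[ℂ] X) (N : ℕ) (x : X) :
    avp σ R W (v + v') N x = avp σ R W v N x + avp σ R W v' N x := by
  have hi : ∀ u : X →L[ℂ] X, IntervalIntegrable
      (fun s : ℝ => p R W u x (σ s)) volume 0 (N : ℝ) := fun u =>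
    ((p_cont R W u x).comp hσ).intervalIntegrable _ _
  unfold avp
  rw [← smul_add, ← intervalIntegral.integral_add (hi v) (hi v')]
  congr 1
  refine intervalIntegral.integral_congr fun s _ => ?_
  show R.U (-σ s) (v (W.U (σ s) x) + v' (W.U (σ s) x)) =
    R.U (-σ s) (v (W.U (σ s) x)) + R.U (-σ s) (v' (W.U (σ s) x))
  rw [map_add]

theorem avp_smul (σ : ℝ → ℝ) (R W : UG X) (a : ℂ) (v : X →L[ℂ] X) (N : ℕ) (x : X) :
    avp σ R W (a • v) N x = a • avp σ R W v N x := by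
  have h1 : ∀ s, p R W (a • v) x s = a • p R W v x s := by
    intro s
    show R.U (-s) (a • v (W.U s x)) = a • R.U (-s) (v (W.U s x))
    rw [map_smul]
  unfold avp
  simp only [h1, intervalIntegral.integral_smul]
  rw [smul_comm]

end gen

section fam

variable {ι : Type}

/-- the Cesàro means of an operator which is controlled by finitely many coefficients -/
theorem neg_coreP {α : Type} (R W : UG (L2 ι)) (D : L2 ι →L[ℂ] L2 ι) (F : Finset α)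
    (f : α → L2 ι)
    (A : ℝ) (hD : ∀ x, ‖D x‖ ≤ A * ∑ i ∈ F, ‖⟪f i, x⟫_ℂ‖) (ψ : L2 ι) (σ : ℝ → ℝ)
    (hσ : Continuous σ) (hw : ∀ φ : L2 ι, Tendsto (fun t : ℝ => ⟪φ, W.U (σ t) ψ⟫_ℂ) atTop (𝓝 0))
    (Nk : ℕ → ℕ) (hN : Tendsto Nk atTop atTop) :
    Tendsto (fun k => avp σ R W D (Nk k) ψ) atTop (𝓝 0) := by
  have h0 : Tendsto (fun s : ℝ => ‖p R W D ψ (σ s)‖) atTop (𝓝 0) := by
    have h1 : Tendsto (fun s : ℝ => A * ∑ i ∈ F, ‖⟪f i, W.U (σ s) ψ⟫_ℂ‖) atTop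
        (𝓝 (A * ∑ _i ∈ F, 0)) := by
      refine Tendsto.const_mul _ (tendsto_finsetSum _ fun i _ => ?_)
      have := (hw (f i)).norm
      rwa [norm_zero] at this
    rw [Finset.sum_const_zero, mul_zero] at h1
    refine squeeze_zero (fun _ => norm_nonneg _) (fun s => ?_) h1
    unfold p
    rw [R.norm']
    exact hD _
  exact ces_zero ((p_cont R W D ψ).comp hσ) (fun s => p_norm R W D ψ (σ s)) h0 hN

open W6 in
/-- the limit maps `e` into the singular subspace of the comparison dynamics -/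
theorem w6P {α : Type} (R : UG (L2 ι)) (U : ℝ → UG (L2 ι)) (e : L2 ι) (hF : Fam U e) {κ κ' : ℝ}
    (hκ : κ ≠ κ') (v v' : L2 ι →L[ℂ] L2 ι)
    (F : Finset α) (f : α → L2 ι) (A : ℝ) (hD : ∀ x, ‖v' x - v x‖ ≤ A * ∑ i ∈ F, ‖⟪f i, x⟫_ℂ‖)
    (Nk : ℕ → ℕ) (hNk : Tendsto Nk atTop atTop)
    (B B' : L2 ι →L[ℂ] L2 ι) (hB : GoodP R (U κ) v Nk B) (hB' : GoodP R (U κ') v' Nk B')
    (C : ℝ) (φ : L2 ι) (hφ : Minf R C φ) : ⟪φ, B' e⟫_ℂ = 0 := by
  have hWP : St_WP := t_WP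
  have hWI : St_WI := t_WI
  -- averages of `v` over vectors of bounded density
  have hsub : ∀ (σ : ℝ → ℝ), Continuous σ → ∀ (N : ℕ) (x : L2 ι),
      avp σ R (U κ') v' N x - avp σ R (U κ') (v' - v) N x = avp σ R (U κ') v N x := by
    intro σ hσ N x
    have h1 : v' = v + (v' - v) := by abel
    conv_lhs => rw [h1]
    rw [avp_add σ hσ]
    have h2 : v + (v' - v) - v = v' - v := by abel
    rw [h2, add_sub_cancel_right]
  have hvP : ∀ (C' : ℝ) (x : L2 ι), Minf (U κ') C' x →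
      Tendsto (fun k => avp id R (U κ') v (Nk k) x) atTop (𝓝 (B' x)) := by
    intro C' x hx
    have h1 := neg_coreP R (U κ') (v' - v) F f A hD x id continuous_id
      (fun φ => WP.weak hx φ) Nk hNk
    have h2 := ((hB' x).1).sub h1
    rw [sub_zero] at h2
    exact h2.congr fun k => hsub id continuous_id (Nk k) x
  have hvM : ∀ (C' : ℝ) (x : L2 ι), Minf (U κ') C' x →
      Tendsto (fun k => avp (fun s => -s) R (U κ') v (Nk k) x) atTop (𝓝 (B' x)) := by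
    intro C' x hx
    have h1 := neg_coreP R (U κ') (v' - v) F f A hD x (fun s => -s) continuous_neg
      (fun φ => Pool.Agent.Y662.ERG.weakM hx φ) Nk hNk
    have h3 := ((hB' x).2).sub h1
    rw [sub_zero] at h3
    exact h3.congr fun k => hsub (fun s => -s) continuous_neg (Nk k) x
  -- basic facts
  have hBc : ∀ (t : ℝ) (x : L2 ι), B' ((U κ').U t x) = R.U t (B' x) :=
    goodP_comm hNk hB'
  set Bs : L2 ι →L[ℂ] L2 ι := ContinuousLinearMap.adjoint B' with hBs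
  have hsym : ∀ x y : L2 ι, ⟪Bs x, y⟫_ℂ = ⟪x, B' y⟫_ℂ := fun x y =>
    ContinuousLinearMap.adjoint_inner_left _ _ _
  have hBn : ∀ x : L2 ι, ‖B' x‖ ≤ ‖v'‖ * ‖x‖ := goodP_norm hB'
  set C₁ : ℝ := max C 0 with hC₁
  have hC₁0 : 0 ≤ C₁ := le_max_right _ _
  have hφ₁ : Minf R C₁ φ := minf_mono hφ (le_max_left _ _)
  -- eta
  set η : L2 ι := Bs φ with hη
  have hηU : ∀ (t : ℝ) (x : L2 ι), ⟪x, (U κ').U t η⟫_ℂ = ⟪B' x, R.U t φ⟫_ℂ := by
    intro t x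
    have h1 : ⟪x, (U κ').U t η⟫_ℂ = ⟪(U κ').U (-t) x, η⟫_ℂ := by
      rw [NN.inner_adj, neg_neg]
    have h2 : ⟪(U κ').U (-t) x, η⟫_ℂ = ⟪B' ((U κ').U (-t) x), φ⟫_ℂ := by
      rw [← inner_conj_symm, hη, hsym, inner_conj_symm]
    rw [h1, h2, hBc, NN.inner_adj, neg_neg]
  have hηM : Minf (U κ') (C₁ * ‖v'‖ ^ 2) η := by
    intro φ₁
    have h1 : (∫⁻ t : ℝ, ‖⟪φ₁, (U κ').U t η⟫_ℂ‖ₑ ^ 2) =
        ∫⁻ t : ℝ, ‖⟪B' φ₁, R.U t φ⟫_ℂ‖ₑ ^ 2 := by
      refine lintegral_congr fun t => ?_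
      rw [hηU]
    rw [h1]
    refine (hφ₁ (B' φ₁)).trans (ENNReal.ofReal_le_ofReal ?_)
    have h2 := hBn φ₁
    have h3 : ‖B' φ₁‖ ^ 2 ≤ (‖v'‖ * ‖φ₁‖) ^ 2 := pow_le_pow_left₀ (norm_nonneg _) h2 2
    calc C₁ * ‖B' φ₁‖ ^ 2 ≤ C₁ * (‖v'‖ * ‖φ₁‖) ^ 2 := mul_le_mul_of_nonneg_left h3 hC₁0
      _ = C₁ * ‖v'‖ ^ 2 * ‖φ₁‖ ^ 2 := by ring
  -- key vanishing
  have key : ∀ (C0 : ℝ) (ψ0 : L2 ι), Minf (U κ) C0 ψ0 →
      ∫ s : ℝ, ⟪e, (U κ).U s ψ0⟫_ℂ * ⟪η, (U κ').U (-s) e⟫_ℂ = 0 := by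
    intro C0 ψ0 hψ0
    obtain ⟨⟨ψp, hp⟩, ⟨ψm, hm⟩⟩ := hWP ι U e hF κ κ' C0 ψ0 hψ0
    have hpM := (hWI ι (U κ) (U κ') atTop (Or.inl rfl) ψ0 ψp hp).2.2.1 _ hψ0
    have hmM := (hWI ι (U κ) (U κ') atBot (Or.inr rfl) ψ0 ψm hm).2.2.1 _ hψ0
    have a1 : B' ψp = B ψ0 :=
      coreP R (U κ) (U κ') v Nk hNk atTop id continuous_id tendsto_id ψ0 ψp (B ψ0) (B' ψp)
        hp (hB ψ0).1 (hvP _ _ hpM)
    have a2 : B' ψm = B ψ0 :=
      coreP R (U κ) (U κ') v Nk hNk atBot (fun s => -s) continuous_neg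
        tendsto_neg_atTop_atBot ψ0 ψm (B ψ0) (B' ψm) hm (hB ψ0).2 (hvM _ _ hmM)
    have a3 : ⟪η, ψp - ψm⟫_ℂ = 0 := by
      rw [inner_sub_right, hη, hsym, hsym, a1, a2, sub_self]
    have a4 := t_W4 ι U e hF κ κ' C0 (C₁ * ‖v'‖ ^ 2) ψ0 ψp ψm η hψ0 hηM hp hm
    rw [a3] at a4
    have a5 : Complex.I * ((κ' - κ : ℝ) : ℂ) ≠ 0 := by
      refine mul_ne_zero Complex.I_ne_zero ?_
      rw [Ne, Complex.ofReal_eq_zero, sub_eq_zero]
      exact fun h => hκ h.symm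
    exact (mul_eq_zero.1 a4.symm).resolve_left a5
  -- the function h
  have hconj : ∀ r : ℝ, ⟪η, (U κ').U (-r) e⟫_ℂ = conj ⟪e, (U κ').U r η⟫_ℂ := by
    intro r
    rw [inner_conj_symm, NN.inner_adj]
  have hcontg : Continuous fun r : ℝ => ⟪e, (U κ').U r η⟫_ℂ :=
    continuous_const.inner ((U κ').cont' η)
  have hconth : Continuous fun r : ℝ => ⟪η, (U κ').U (-r) e⟫_ℂ :=
    continuous_const.inner (((U κ').cont' e).comp continuous_neg)
  have hfin : (∫⁻ r : ℝ, ‖⟪η, (U κ').U (-r) e⟫_ℂ‖ₑ ^ 2) < ∞ := by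
    refine lt_of_le_of_lt ?_ (ENNReal.ofReal_lt_top (r := C₁ * ‖v'‖ ^ 2 * ‖e‖ ^ 2))
    refine le_trans (le_of_eq ?_) (hηM e)
    refine lintegral_congr fun r => ?_
    rw [hconj, RCLike.enorm_conj]
  -- the choice of ψ0
  obtain ⟨⟨ψ0, hψ0t⟩, -⟩ := hWP ι U e hF κ' κ (C₁ * ‖v'‖ ^ 2) η hηM
  obtain ⟨-, -, hI3, hI4⟩ := hWI ι (U κ') (U κ) atTop (Or.inl rfl) η ψ0 hψ0t
  have hψ0M := hI3 _ hηM
  have hzero : ∫ r : ℝ, ⟪e, (U κ').U r η⟫_ℂ * ⟪η, (U κ').U (-r) e⟫_ℂ = 0 := by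
    refine t_W5 ι U e hF κ κ' _ ψ0 η hψ0M hI4 (fun r => ⟪η, (U κ').U (-r) e⟫_ℂ)
      hconth.measurable hfin ?_
    intro s
    have b := key _ ((U κ).U s ψ0) (minf_shift hψ0M s)
    rw [← b]
    refine integral_congr_ae (Eventually.of_forall fun r => ?_)
    show ⟪e, (U κ).U (r + s) ψ0⟫_ℂ * _ = ⟪e, (U κ).U r ((U κ).U s ψ0)⟫_ℂ * _
    rw [(U κ).add']
  -- conclusion
  have hsq : ∀ r : ℝ, ⟪e, (U κ').U r η⟫_ℂ * ⟪η, (U κ').U (-r) e⟫_ℂ =
      ((‖⟪e, (U κ').U r η⟫_ℂ‖ ^ 2 : ℝ) : ℂ) := by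
    intro r
    rw [hconj, Complex.mul_conj, Complex.normSq_eq_norm_sq]
  have hreal : ∫ r : ℝ, ‖⟪e, (U κ').U r η⟫_ℂ‖ ^ 2 = 0 := by
    have c1 : ((∫ r : ℝ, ‖⟪e, (U κ').U r η⟫_ℂ‖ ^ 2 : ℝ) : ℂ) = 0 := by
      rw [← integral_complex_ofReal, ← hzero]
      exact integral_congr_ae (Eventually.of_forall fun r => (hsq r).symm)
    exact_mod_cast c1
  have hcont2 : Continuous fun r : ℝ => ‖⟪e, (U κ').U r η⟫_ℂ‖ ^ 2 := (hcontg.norm).pow 2
  have hint : Integrable (fun r : ℝ => ‖⟪e, (U κ').U r η⟫_ℂ‖ ^ 2) := by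
    refine ⟨hcont2.aestronglyMeasurable, ?_⟩
    refine lt_of_le_of_lt (le_of_eq ?_) hfin
    refine lintegral_congr fun r => ?_
    rw [hconj, RCLike.enorm_conj, enorm_pow, enorm_norm]
  have hae := (integral_eq_zero_iff_of_nonneg (fun r => by positivity) hint).1 hreal
  have hall : (fun r : ℝ => ‖⟪e, (U κ').U r η⟫_ℂ‖ ^ 2) = fun _ => (0 : ℝ) :=
    (Continuous.ae_eq_iff_eq volume hcont2 continuous_const).1 hae
  have d1 := congrFun hall 0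
  have d2 : ⟪e, (U κ').U 0 η⟫_ℂ = 0 := by
    have := pow_eq_zero_iff (two_ne_zero) |>.1 d1
    exact norm_eq_zero.1 this
  rw [(U κ').zero'] at d2
  rw [← hsym, ← hη, ← inner_conj_symm, d2, map_zero]

/-- the same for all vectors of the absolutely continuous subspace of the comparison dynamics -/
theorem w6P_hac {α : Type} (R : UG (L2 ι)) (U : ℝ → UG (L2 ι)) (e : L2 ι) (hF : Fam U e)
    {κ κ' : ℝ} (hκ : κ ≠ κ') (v v' : L2 ι →L[ℂ] L2 ι)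
    (F : Finset α) (f : α → L2 ι) (A : ℝ) (hD : ∀ x, ‖v' x - v x‖ ≤ A * ∑ i ∈ F, ‖⟪f i, x⟫_ℂ‖)
    (Nk : ℕ → ℕ) (hNk : Tendsto Nk atTop atTop)
    (B B' : L2 ι →L[ℂ] L2 ι) (hB : GoodP R (U κ) v Nk B) (hB' : GoodP R (U κ') v' Nk B')
    (φ : L2 ι) (hφ : φ ∈ HAC R) : ⟪φ, B' e⟫_ℂ = 0 := by
  have hc : IsClosed {φ : L2 ι | ⟪φ, B' e⟫_ℂ = 0} :=
    isClosed_eq (continuous_id.inner continuous_const) continuous_const
  have h1 : {φ : L2 ι | ∃ C : ℝ, Minf R C φ} ⊆ {φ : L2 ι | ⟪φ, B' e⟫_ℂ = 0} := by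
    rintro φ ⟨C, hC⟩
    exact w6P R U e hF hκ v v' F f A hD Nk hNk B B' hB hB' C φ hC
  exact closure_minimal h1 hc hφ

end fam

end Pool.Agent.H988.DJ
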