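import Pool.Agent.H988.DJ.ObA
import Pool.Agent.H988.RS.Wa

/-! # Local observables: the averages between the Anderson dynamics and a fixed one -/

set_option autoImplicit false
set_option linter.unusedSectionVars false

open MeasureTheory Filter Topology
open scoped BigOperators ENNReal NNReal InnerProductSpace ComplexConjugate

namespace Pool.Agent.H988.DJ

open Pool.Agent.H5R2.NB Pool.Agent.H5R2.NBA Pool.Agent.H988.WM Pool.Agent.H988.RS
open Pool.Agent.K7.H83.SI
open Pool.Agent.Y662.ERG (Obs)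
open Pool.Agent.R988.NQ (OF Fld Adj Sym mulF addF subF Uf adj_U trace nn nn_adj obs_fld vec adjF
  adjF_right reF imF sym_re sym_im re_im)

variable {d : ℕ} {c : ℝ} {ev : (Site d → ℝ) → UG (L2 (Site d))} {R : UG (L2 (Site d))}

/-- the dynamics is translation invariant -/
def RInv (R : UG (L2 (Site d))) : Prop :=
  ∀ (z : Site d) (S : L2 (Site d) →L[ℂ] L2 (Site d)), IsShift z S → ∀ t ψ,
    R.U t (S ψ) = S (R.U t ψ)

theorem ev0 (hev : ∀ V, IsGrp c V (ev V)) : ∀ ω : Site d → ℝ, IsGrp c (fun x => 0 + ω x) (ev ω) := by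
  intro ω
  have e : (fun x => 0 + ω x) = ω := by
    funext x
    exact zero_add _
  rw [e]
  exact hev ω

theorem fldU (hev : ∀ V, IsGrp c V (ev V)) (t : ℝ) : Fld 1 (Uf ev t) := fld_Uo (ev0 hev) t

/-- the fixed dynamics as a field -/
noncomputable def Rf (R : UG (L2 (Site d))) (t : ℝ) : OF d := fun _ => R.U t

theorem fldR (hR : RInv R) (t : ℝ) : Fld 1 (Rf R t) := by
  refine ⟨fun V ψ => ?_, fun f hf => ?_, fun z S hS V ψ => hR z S hS t ψ⟩
  · rw [one_mul]
    exact (R.norm' t ψ).le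
  · exact (R.U t).continuous.comp_stronglyMeasurable hf

theorem adj_R (R : UG (L2 (Site d))) (t : ℝ) : Adj (Rf R t) (Rf R (-t)) := by
  intro V f g
  show ⟪R.U t f, g⟫_ℂ = ⟪f, R.U (-t) g⟫_ℂ
  rw [STAT.inner_adj R (-t) f g, neg_neg]

/-- stationarity -/
theorem statP (hev : ∀ V, IsGrp c V (ev V)) (hR : RInv R) (ν : Measure ℝ) [IsProbabilityMeasure ν]
    {D D' : OF d} {C C' : ℝ} (hC : 0 ≤ C) (hC' : 0 ≤ C') (hD : Fld C D) (hD' : Fld C' D')
    (aD : Adj D D') (s t a : ℝ) :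
    ∫ V, ⟪p R (ev V) (D V) (dl 0) (s + a), p R (ev V) (D V) (dl 0) (t + a)⟫_ℂ ∂(PP d ν) =
      ∫ V, ⟪p R (ev V) (D V) (dl 0) s, p R (ev V) (D V) (dl 0) t⟫_ℂ ∂(PP d ν) := by
  have hU := fldU (c := c) hev
  have hRf := fldR hR
  have hY := (hU (-s)).mul zero_le_one (hD'.mul hC' ((hRf (s - t)).mul zero_le_one
    (hD.mul hC ((hU t).mul zero_le_one (hU a)))))
  have hY' := ((((((hU (-a)).mul zero_le_one (hU (-t))).mul (by norm_num) hD').mul
    (by simpa using hC') (hRf (-(s - t)))).mul (by simpa using hC') hD).mul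
      (by simpa using mul_nonneg hC' hC) (hU (- -s)))
  have aY : Adj (mulF (Uf ev (-s)) (mulF D' (mulF (Rf R (s - t)) (mulF D (mulF (Uf ev t)
      (Uf ev a)))))) (mulF (mulF (mulF (mulF (mulF (Uf ev (-a)) (Uf ev (-t))) D')
      (Rf R (-(s - t)))) D) (Uf ev (- -s))) :=
    Adj.mul (adj_U (-s)) (Adj.mul aD.symm (Adj.mul (adj_R R (s - t)) (Adj.mul aD
      (Adj.mul (adj_U t) (adj_U a)))))
  have h := trace (ν := ν) (hU a) (hU (-a)) hY hY' (adj_U a) aY
  have aDs : ∀ (V : Site d → ℝ) (f g : L2 (Site d)), ⟪D' V f, g⟫_ℂ = ⟪f, D V g⟫_ℂ := aD.symm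
  have e1 : ∀ V, ⟪p R (ev V) (D V) (dl 0) (s + a), p R (ev V) (D V) (dl 0) (t + a)⟫_ℂ =
      ⟪vec (Uf ev a) V, vec (mulF (Uf ev (-s)) (mulF D' (mulF (Rf R (s - t)) (mulF D
        (mulF (Uf ev t) (Uf ev a)))))) V⟫_ℂ := by
    intro V
    show ⟪R.U (-(s + a)) (D V ((ev V).U (s + a) (dl 0))),
      R.U (-(t + a)) (D V ((ev V).U (t + a) (dl 0)))⟫_ℂ =
      ⟪(ev V).U a (dl 0), (ev V).U (-s) (D' V (R.U (s - t) (D V ((ev V).U t
        ((ev V).U a (dl 0))))))⟫_ℂ
    rw [STAT.inner_adj (ev V) (-s), neg_neg, ← (ev V).add' s a, ← (ev V).add' t a, ← aD V,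
      STAT.inner_adj R (-(t + a)), neg_neg, ← R.add', STAT.inner_adj R (s - t)]
    congr 2
    congr 1
    ring
  have e2 : ∀ V, ⟪vec (mulF (mulF (mulF (mulF (mulF (Uf ev (-a)) (Uf ev (-t))) D')
      (Rf R (-(s - t)))) D) (Uf ev (- -s))) V, vec (Uf ev (-a)) V⟫_ℂ =
      ⟪p R (ev V) (D V) (dl 0) s, p R (ev V) (D V) (dl 0) t⟫_ℂ := by
    intro V
    show ⟪(ev V).U (-a) ((ev V).U (-t) (D' V (R.U (-(s - t)) (D V ((ev V).U (- -s) (dl 0)))))),
      (ev V).U (-a) (dl 0)⟫_ℂ = ⟪R.U (-s) (D V ((ev V).U s (dl 0))),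
        R.U (-t) (D V ((ev V).U t (dl 0)))⟫_ℂ
    rw [STAT.inner_UG, STAT.inner_adj R (-t), neg_neg, ← R.add', ← aDs V,
      STAT.inner_adj (ev V) t, neg_neg]
    congr 2
    congr 2
    · congr 1
      ring
  simp only [e1]
  rw [h]
  simp only [e2]

variable {v : (Site d → ℝ) → L2 (Site d) →L[ℂ] L2 (Site d)} {M : ℝ}

theorem cont_Uj {α : Type} [TopologicalSpace α] (W : UG (L2 (Site d))) {a : α → ℝ}
    {h : α → L2 (Site d)} (ha : Continuous a) (hh : Continuous h) :
    Continuous fun s => W.U (a s) (h s) := by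
  rw [continuous_iff_continuousAt]
  intro s
  rw [ContinuousAt, tendsto_iff_norm_sub_tendsto_zero]
  have hg : Continuous fun s' : α => ‖h s' - h s‖ + ‖W.U (a s') (h s) - W.U (a s) (h s)‖ := by
    have h1 : Continuous fun s' : α => W.U (a s') (h s) := (W.cont' (h s)).comp ha
    fun_prop
  have h3 := hg.tendsto s
  simp only [sub_self, norm_zero, add_zero] at h3
  refine squeeze_zero (fun _ => norm_nonneg _) (fun s' => ?_) h3
  have e1 : W.U (a s') (h s') - W.U (a s) (h s) =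
      W.U (a s') (h s' - h s) + (W.U (a s') (h s) - W.U (a s) (h s)) := by
    rw [map_sub]
    abel
  rw [e1]
  refine (norm_add_le _ _).trans (le_of_eq ?_)
  rw [W.norm']

theorem p_joint (hev : ∀ V, IsGrp c V (ev V)) (R : UG (L2 (Site d))) (hO : Obs d v M) :
    Continuous fun r : ℝ × (Site d → ℝ) × L2 (Site d) => p R (ev r.2.1) (v r.2.1) r.2.2 r.1 := by
  have hCV := ALL.a_CV d c ev hev
  have h1 : Continuous fun r : ℝ × (Site d → ℝ) × L2 (Site d) => (ev r.2.1).U r.1 r.2.2 :=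
    hCV.comp (by fun_prop : Continuous fun r : ℝ × (Site d → ℝ) × L2 (Site d) =>
      (r.2.1, r.1, r.2.2))
  have h2 : Continuous fun r : ℝ × (Site d → ℝ) × L2 (Site d) =>
      (r.2.1, (ev r.2.1).U r.1 r.2.2) := (continuous_fst.comp continuous_snd).prodMk h1
  have h3 : Continuous fun r : ℝ × (Site d → ℝ) × L2 (Site d) =>
      v r.2.1 ((ev r.2.1).U r.1 r.2.2) := hO.cont.comp h2
  exact cont_Uj R continuous_fst.neg h3

/-- mean square convergence of both averages at `δ_0` to the same limit -/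
theorem limP (hev : ∀ V, IsGrp c V (ev V)) (hR : RInv R) (hO : Obs d v M) (ν : Measure ℝ)
    [IsProbabilityMeasure ν] :
    ∃ b : (Site d → ℝ) → L2 (Site d), AEStronglyMeasurable b (PP d ν) ∧
        Tendsto (fun N : ℕ => ∫⁻ V, ‖avp id R (ev V) (v V) N (dl 0) - b V‖ₑ ^ 2 ∂(PP d ν)) atTop
          (𝓝 0) ∧
        Tendsto (fun N : ℕ => ∫⁻ V, ‖avp (fun s => -s) R (ev V) (v V) N (dl 0) - b V‖ₑ ^ 2
          ∂(PP d ν)) atTop (𝓝 0) := by
  have hP : IsProbabilityMeasure (PP d ν) := by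
    unfold PP
    infer_instance
  have hT : Continuous fun r : ℝ × (Site d → ℝ) => p R (ev r.2) (v r.2) (dl 0) r.1 :=
    (p_joint hev R hO).comp (continuous_fst.prodMk (continuous_snd.prodMk continuous_const))
  have hK : ∀ s V, ‖p R (ev V) (v V) (dl 0) s‖ ≤ M * ‖(dl 0 : L2 (Site d))‖ := by
    intro s V
    refine (p_norm R (ev V) (v V) (dl 0) s).trans ?_
    exact mul_le_mul_of_nonneg_right (hO.opn V) (norm_nonneg _)
  have hOf := obs_fld hO
  obtain ⟨b, hb, hf, hg⟩ := LIMA.main (PP d ν) (fun s V => p R (ev V) (v V) (dl 0) s) _ t_ME hT hK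
    (fun s s' a => statP hev hR ν hO.nn hO.nn hOf hOf (fun V f g => hO.symm V f g) s s' a)
  exact ⟨b, hb, hf, hg⟩

theorem cont_avp (hev : ∀ V, IsGrp c V (ev V)) (R : UG (L2 (Site d))) (hO : Obs d v M)
    {σ : ℝ → ℝ} (hσ : Continuous σ) (N : ℕ) :
    Continuous fun r : (Site d → ℝ) × L2 (Site d) => avp σ R (ev r.1) (v r.1) N r.2 := by
  unfold avp
  have h3 : Continuous fun r : ((Site d → ℝ) × L2 (Site d)) × ℝ =>
      p R (ev r.1.1) (v r.1.1) r.1.2 (σ r.2) :=
    (p_joint hev R hO).comp (((hσ.comp continuous_snd)).prodMk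
      ((continuous_fst.comp continuous_fst).prodMk (continuous_snd.comp continuous_fst)))
  exact (intervalIntegral.continuous_parametric_intervalIntegral_of_continuous'
    (f := fun (r : (Site d → ℝ) × L2 (Site d)) (s : ℝ) => p R (ev r.1) (v r.1) r.2 (σ s)) h3 0
      (N : ℝ)).const_smul ((N : ℂ)⁻¹)

theorem avp_conj (hev : ∀ V, IsGrp c V (ev V)) (hR : RInv R) {D : OF d}
    (hcov : ∀ (z : Site d) (S : L2 (Site d) →L[ℂ] L2 (Site d)), IsShift z S →
      ∀ V ψ, D (fun y => V (y + z)) (S ψ) = S (D V ψ))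
    {σ : ℝ → ℝ} (hσ : Continuous σ) {z : Site d}
    {S T : L2 (Site d) →L[ℂ] L2 (Site d)} (hS : IsShift z S)
    (hT : IsShift (-z) T) (V : Site d → ℝ) (N : ℕ) (x : L2 (Site d)) :
    avp σ R (ev fun y => V (y + z)) (D fun y => V (y + z)) N x =
      S (avp σ R (ev V) (D V) N (T x)) := by
  have hc : Continuous fun s => p R (ev V) (D V) (T x) (σ s) := (p_cont _ _ _ _).comp hσ
  unfold avp
  have e := ContinuousLinearMap.intervalIntegral_comp_comm S
    (hc.intervalIntegrable (μ := volume) (0 : ℝ) (N : ℝ))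
  rw [map_smul]
  congr 1
  refine Eq.trans ?_ e
  refine intervalIntegral.integral_congr fun s _ => ?_
  have hC := ALL.a_COV d c ev hev z S hS V
  show R.U (-σ s) (D (fun y => V (y + z)) ((ev fun y => V (y + z)).U (σ s) x)) =
    S (R.U (-σ s) (D V ((ev V).U (σ s) (T x))))
  rw [← hR z S hS, ← hcov z S hS, ← hC, Pool.Agent.Y662.ERG.inv1 hS hT]

/-- the average as a bounded operator -/
noncomputable def TP {σ : ℝ → ℝ} (hσ : Continuous σ) (R W : UG (L2 (Site d)))
    (v : L2 (Site d) →L[ℂ] L2 (Site d)) (N : ℕ) : L2 (Site d) →L[ℂ] L2 (Site d) :=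
  LinearMap.mkContinuous
    { toFun := avp σ R W v N
      map_add' := fun x y => by
        have hc : ∀ x : L2 (Site d), IntervalIntegrable (fun s : ℝ => p R W v x (σ s)) volume 0
          (N : ℝ) := fun x => ((p_cont R W v x).comp hσ).intervalIntegrable _ _
        have e := intervalIntegral.integral_add (hc x) (hc y)
        unfold avp
        rw [← smul_add]
        congr 1
        refine Eq.trans ?_ e
        refine intervalIntegral.integral_congr fun s _ => ?_
        show R.U (-σ s) (v (W.U (σ s) (x + y))) =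
          R.U (-σ s) (v (W.U (σ s) x)) + R.U (-σ s) (v (W.U (σ s) y))
        rw [map_add, map_add, map_add]
      map_smul' := fun a x => by
        have h1 : ∀ s, p R W v (a • x) s = a • p R W v x s := by
          intro s
          show R.U (-s) (v (W.U s (a • x))) = a • R.U (-s) (v (W.U s x))
          rw [map_smul, map_smul, map_smul]
        unfold avp
        simp only [h1, intervalIntegral.integral_smul, RingHom.id_apply]
        rw [smul_comm] } ‖v‖
    fun x => avp_norm σ R W v N x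

theorem TP_apply {σ : ℝ → ℝ} (hσ : Continuous σ) (R W : UG (L2 (Site d)))
    (v : L2 (Site d) →L[ℂ] L2 (Site d)) (N : ℕ)
    (x : L2 (Site d)) : TP hσ R W v N x = avp σ R W v N x := rfl

/-- subsequences: the averages converge strongly, almost surely -/
theorem lim2P (hev : ∀ V, IsGrp c V (ev V)) (hR : RInv R) (hO : Obs d v M) (ν : Measure ℝ)
    [IsProbabilityMeasure ν] (Mk : ℕ → ℕ) (hMt : Tendsto Mk atTop atTop) :
      ∃ a : ℕ → ℕ, StrictMono a ∧
        ∀ᵐ V ∂(PP d ν), ∃ B : L2 (Site d) →L[ℂ] L2 (Site d), GoodP R (ev V) (v V) (Mk ∘ a) B := by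
  obtain ⟨b, hb, hP0, hM0⟩ := limP hev hR hO ν
  have hP := hP0.comp hMt
  have hM := hM0.comp hMt
  have hca : ∀ {σ : ℝ → ℝ}, Continuous σ → ∀ N : ℕ,
      Continuous fun V => avp σ R (ev V) (v V) N (dl 0) := fun hσ N =>
    (cont_avp hev R hO hσ N).comp (continuous_id.prodMk continuous_const)
  have hfP : ∀ N, AEMeasurable (fun V => ‖avp id R (ev V) (v V) N (dl 0) - b V‖ₑ ^ 2) (PP d ν) :=
    fun N => (((hca continuous_id N).aestronglyMeasurable).sub hb).enorm.pow_const 2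
  have hfM : ∀ N, AEMeasurable (fun V => ‖avp (fun s => -s) R (ev V) (v V) N (dl 0) - b V‖ₑ ^ 2)
      (PP d ν) :=
    fun N => (((hca continuous_neg N).aestronglyMeasurable).sub hb).enorm.pow_const 2
  have hPM := hP.add hM
  rw [add_zero] at hPM
  obtain ⟨a, hmono, hNk⟩ := extraction_forall_of_eventually
    (P := fun n k => (∫⁻ V, ‖avp id R (ev V) (v V) (Mk k) (dl 0) - b V‖ₑ ^ 2 ∂(PP d ν)) +
      (∫⁻ V, ‖avp (fun s => -s) R (ev V) (v V) (Mk k) (dl 0) - b V‖ₑ ^ 2 ∂(PP d ν)) <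
        (2⁻¹ : ℝ≥0∞) ^ n)
    (fun n => (tendsto_order.1 hPM).2 _ (by
      refine ENNReal.pow_pos ?_ n
      simp))
  refine ⟨a, hmono, ?_⟩
  set Nk : ℕ → ℕ := Mk ∘ a with hNkdef
  have hfS : ∀ n, AEMeasurable (fun V => ‖avp id R (ev V) (v V) (Nk n) (dl 0) - b V‖ₑ ^ 2 +
      ‖avp (fun s => -s) R (ev V) (v V) (Nk n) (dl 0) - b V‖ₑ ^ 2) (PP d ν) := fun n =>
    (hfP (Nk n)).add (hfM (Nk n))
  have hsum : ∫⁻ V, ∑' n, (‖avp id R (ev V) (v V) (Nk n) (dl 0) - b V‖ₑ ^ 2 +
      ‖avp (fun s => -s) R (ev V) (v V) (Nk n) (dl 0) - b V‖ₑ ^ 2) ∂(PP d ν) ≠ ∞ := by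
    rw [lintegral_tsum hfS]
    have hle : ∑' n, ∫⁻ V, (‖avp id R (ev V) (v V) (Nk n) (dl 0) - b V‖ₑ ^ 2 +
        ‖avp (fun s => -s) R (ev V) (v V) (Nk n) (dl 0) - b V‖ₑ ^ 2) ∂(PP d ν) ≤
          ∑' n : ℕ, (2⁻¹ : ℝ≥0∞) ^ n := by
      refine ENNReal.tsum_le_tsum fun n => ?_
      rw [lintegral_add_left' (hfP (Nk n))]
      exact (hNk n).le
    refine ne_top_of_le_ne_top ?_ hle
    rw [ENNReal.tsum_geometric]
    simp
  have hae := ae_lt_top' (AEMeasurable.tsum hfS) hsum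
  have hG : ∀ᵐ V ∂(PP d ν), Tendsto (fun n => avp id R (ev V) (v V) (Nk n) (dl 0)) atTop
        (𝓝 (b V)) ∧
      Tendsto (fun n => avp (fun s => -s) R (ev V) (v V) (Nk n) (dl 0)) atTop (𝓝 (b V)) := by
    filter_upwards [hae] with V hV
    have h0 := ENNReal.tendsto_atTop_zero_of_tsum_ne_top hV.ne
    constructor
    · refine LIMB.tendsto_of_enorm_sq (tendsto_of_tendsto_of_tendsto_of_le_of_le
        tendsto_const_nhds h0 (fun _ => zero_le) fun n => ?_)
      exact le_self_add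
    · refine LIMB.tendsto_of_enorm_sq (tendsto_of_tendsto_of_tendsto_of_le_of_le
        tendsto_const_nhds h0 (fun _ => zero_le) fun n => ?_)
      exact le_add_self
  have hGz : ∀ᵐ V ∂(PP d ν), ∀ z : Site d,
      Tendsto (fun n => avp id R (ev fun y => V (y + z)) (v fun y => V (y + z)) (Nk n) (dl 0))
        atTop (𝓝 (b fun y => V (y + z))) ∧
      Tendsto (fun n => avp (fun s => -s) R (ev fun y => V (y + z)) (v fun y => V (y + z)) (Nk n)
        (dl 0)) atTop (𝓝 (b fun y => V (y + z))) := by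
    rw [ae_all_iff]
    intro z
    exact ((t_RES d ν).2 z).quasiMeasurePreserving.ae hG
  filter_upwards [hGz] with V hV
  have hlim : ∀ (z : Site d) (S : L2 (Site d) →L[ℂ] L2 (Site d)), IsShift (-z) S →
      Tendsto (fun k => TP continuous_id R (ev V) (v V) (Nk k) (dl z)) atTop
        (𝓝 (S (b fun y => V (y + z)))) ∧
      Tendsto (fun k => TP continuous_neg R (ev V) (v V) (Nk k) (dl z)) atTop
        (𝓝 (S (b fun y => V (y + z)))) := by
    intro z S hS
    obtain ⟨T, hT⟩ := (t_OPS d).1 z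
    have hinv : ∀ ψ, S (T ψ) = ψ := fun ψ => by
      ext x
      rw [hS, hT, neg_add_cancel_right]
    constructor
    · have := (S.continuous.tendsto _).comp (hV z).1
      refine this.congr fun k => ?_
      rw [TP_apply]
      have e := avp_conj (z := z) hev hR hO.cov continuous_id hT hS V (Nk k) (dl 0)
      show S (avp id R (ev fun y => V (y + z)) (v fun y => V (y + z)) (Nk k) (dl 0)) = _
      rw [e, hinv, LIMB.shift_dl z S hS]
    · have := (S.continuous.tendsto _).comp (hV z).2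
      refine this.congr fun k => ?_
      rw [TP_apply]
      have e := avp_conj (z := z) hev hR hO.cov continuous_neg hT hS V (Nk k) (dl 0)
      show S (avp (fun s => -s) R (ev fun y => V (y + z)) (v fun y => V (y + z)) (Nk k) (dl 0)) = _
      rw [e, hinv, LIMB.shift_dl z S hS]
  obtain ⟨B, hB⟩ := LIMB.ext_lim (fun k => TP continuous_id R (ev V) (v V) (Nk k))
    (fun k => TP continuous_neg R (ev V) (v V) (Nk k))
    ‖v V‖ (norm_nonneg _) (fun k => avp_norm id R (ev V) (v V) (Nk k))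
    (fun k => avp_norm (fun s => -s) R (ev V) (v V) (Nk k))
    (Site d) dl (LIMB.dl_dense d) (fun z => by
      obtain ⟨S, hS⟩ := (t_OPS d).1 (-z)
      exact ⟨_, hlim z S hS⟩)
  exact ⟨B, hB⟩

/-- locality at any site -/
theorem loc_x (hO : Obs d v M) (x : Site d) (V : Site d → ℝ) (κ : ℝ) :
    ∃ (F : Finset (Site d)) (C : ℝ), ∀ ψ,
      ‖v (Function.update V x κ) ψ - v V ψ‖ ≤ C * ∑ i ∈ F, ‖⟪(dl (i + x) : L2 (Site d)), ψ⟫_ℂ‖ := by
  obtain ⟨F, C, hF⟩ := hO.loc (fun y => V (y + x)) κ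
  refine ⟨F, C, fun ψ => ?_⟩
  obtain ⟨S, hS⟩ := (t_OPS d).1 x
  obtain ⟨T, hT⟩ := (t_OPS d).1 (-x)
  have e0 : Function.update (fun y => V (y + x)) 0 κ =
      fun y => (Function.update V x κ) (y + x) := by
    funext y
    by_cases h : y = 0
    · subst h
      simp
    · rw [Function.update_of_ne h, Function.update_of_ne]
      intro h1
      exact h (by simpa using h1)
  have h1 := hF (S ψ)
  rw [e0, hO.cov x S hS, hO.cov x S hS, ← map_sub] at h1
  have h2 : ‖S (v (Function.update V x κ) ψ - v V ψ)‖ = ‖v (Function.update V x κ) ψ - v V ψ‖ := by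
    have h3 : ∀ a : L2 (Site d), ‖S a‖ = ‖a‖ := by
      intro a
      have h4 : ⟪S a, S a⟫_ℂ = ⟪a, a⟫_ℂ := by
        rw [STAT.shift_inner x S T hS hT, ZAC.inv2 hS hT]
      rw [inner_self_eq_norm_sq_to_K, inner_self_eq_norm_sq_to_K] at h4
      have h5 : ‖S a‖ ^ 2 = ‖a‖ ^ 2 := by exact_mod_cast h4
      exact (sq_eq_sq₀ (norm_nonneg _) (norm_nonneg _)).1 h5
    exact h3 _
  rw [h2] at h1
  refine h1.trans (le_of_eq ?_)
  congr 1
  refine Finset.sum_congr rfl fun i _ => ?_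
  rw [STAT.inner_dl, STAT.inner_dl, hS]

/-- the limits are concentrated on the singular part of the fixed dynamics -/
theorem site_singP (hev : ∀ V, IsGrp c V (ev V)) (R : UG (L2 (Site d))) (hO : Obs d v M)
    (ν : Measure ℝ) [IsProbabilityMeasure ν] (hν : ∀ κ : ℝ, ν {κ} ≠ 1)
    (Nk : ℕ → ℕ) (hNk : Tendsto Nk atTop atTop)
    (hG : ∀ᵐ V ∂(PP d ν), ∃ B : L2 (Site d) →L[ℂ] L2 (Site d), GoodP R (ev V) (v V) Nk B) :
    ∀ᵐ V ∂(PP d ν), ∀ x : Site d, ∀ B : L2 (Site d) →L[ℂ] L2 (Site d),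
      GoodP R (ev V) (v V) Nk B → ∀ φ ∈ HAC R, ⟪φ, B (dl x)⟫_ℂ = 0 := by
  rw [ae_all_iff]
  intro x
  have hmp := resample x ν
  have h1 : ∀ᵐ q ∂((PP d ν).prod ν), ∃ B : L2 (Site d) →L[ℂ] L2 (Site d),
      GoodP R (ev (Function.update q.1 x q.2)) (v (Function.update q.1 x q.2)) Nk B :=
    hmp.quasiMeasurePreserving.ae hG
  have h2 := Measure.ae_ae_of_ae_prod h1
  filter_upwards [h2] with V hV B hB φ hφ
  have h3 : ∃ k, k ≠ V x ∧ ∃ B : L2 (Site d) →L[ℂ] L2 (Site d),
      GoodP R (ev (Function.update V x k)) (v (Function.update V x k)) Nk B := by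
    by_contra h
    have h4 : ∀ᵐ k ∂ν, k = V x := by
      filter_upwards [hV] with k hk
      by_contra hne
      exact h ⟨k, hne, hk⟩
    have h5 : ν {V x} = 1 := by
      rw [← prob_compl_eq_zero_iff (measurableSet_singleton _)]
      exact h4
    exact hν _ h5
  obtain ⟨k, hk, B', hB'⟩ := h3
  have hup : Function.update V x (V x) = V := Function.update_eq_self x V
  obtain ⟨F, C, hF⟩ := loc_x hO x V k
  refine w6P_hac R (fun κ => ev (Function.update V x κ)) (dl x) (fam_x hev x V) hk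
    (v (Function.update V x k)) (v V) F (fun i => (dl (i + x) : L2 (Site d))) C
    (fun y => ?_) Nk hNk B' B hB' ?_ φ hφ
  · rw [norm_sub_rev]
    exact hF y
  · simpa only [hup] using hB

theorem clm_zero {B : L2 (Site d) →L[ℂ] L2 (Site d)} (h2 : ∀ x : Site d, B (dl x) = 0) : B = 0 := by
  have h3 : closure (Submodule.span ℂ (Set.range (dl (d := d))) : Set (L2 (Site d))) ⊆
      LinearMap.ker B.toLinearMap := by
    refine closure_minimal ?_ B.isClosed_ker
    have h5 : Submodule.span ℂ (Set.range (dl (d := d))) ≤ LinearMap.ker B.toLinearMap := by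
      rw [Submodule.span_le]
      rintro _ ⟨y, rfl⟩
      exact h2 y
    exact h5
  ext1 u
  exact h3 (LIMB.dl_dense d u)

/-- the law and the fixed dynamics: a density, or purely absolutely continuous spectrum -/
def Hyp (R : UG (L2 (Site d))) (ν : Measure ℝ) : Prop :=
  ν ≪ volume ∨ ((∀ κ : ℝ, ν {κ} ≠ 1) ∧ ∀ ψ, sm R ψ ≪ volume)

theorem Hyp.ne {ν : Measure ℝ} (h : Hyp R ν) : ∀ κ : ℝ, ν {κ} ≠ 1 := by
  rcases h with h | h
  · intro κ
    rw [h (by simp : volume {κ} = 0)]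
    exact zero_ne_one
  · exact h.1

/-- the limits vanish almost surely -/
theorem fixed_zeroP (hev : ∀ V, IsGrp c V (ev V))
    (R : UG (L2 (Site d))) (hO : Obs d v M) (ν : Measure ℝ) [IsProbabilityMeasure ν]
    (hν : Hyp R ν) (Nk : ℕ → ℕ) (hNk : Tendsto Nk atTop atTop)
    (hG : ∀ᵐ V ∂(PP d ν), ∃ B : L2 (Site d) →L[ℂ] L2 (Site d), GoodP R (ev V) (v V) Nk B) :
    ∀ᵐ V ∂(PP d ν), ∀ B : L2 (Site d) →L[ℂ] L2 (Site d), GoodP R (ev V) (v V) Nk B → B = 0 := by
  have hs := site_singP hev R hO ν hν.ne Nk hNk hG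
  rcases hν with hν | hν
  · obtain ⟨N, hN, hN0, hN1⟩ := exists_null R
    have h1 : ∀ᵐ V ∂(PP d ν), ∀ x : Site d, sm (ev V) (dl x) N = 0 := by
      rw [ae_all_iff]
      intro x
      have hm : Measurable fun V => sm (ev V) (dl x) N :=
        (Measure.measurable_coe hN).comp (sm_measurable hev x)
      have hBm : MeasurableSet {V : Site d → ℝ | sm (ev V) (dl x) N ≠ 0} :=
        hm (measurableSet_singleton (0 : ℝ≥0∞)).compl
      have h2 : ∀ᵐ V ∂(PP d ν), V ∉ {V : Site d → ℝ | sm (ev V) (dl x) N ≠ 0} := by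
        refine ae_resample x hBm fun V => ?_
        exact ae_iff.1 (hν.ae_le (spec_avg hev x V hN hN0))
      filter_upwards [h2] with V hV
      by_contra h3
      exact hV h3
    filter_upwards [h1, hs] with V e1 e2 B hB
    refine clm_zero fun x => ?_
    have h3 : B (dl x) ∈ sg R := fun ψ hψ => e2 x B hB ψ (hac_of_sm hψ)
    have h4 : B (dl x) ∈ nul R N := mem_nul.2 (nul_inter (goodP_comm hNk hB) hN (e1 x))
    exact eq_zero_of_nul h4 (mem_nul.2 (hN1 _ h3))
  · filter_upwards [hs] with V e2 B hB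
    exact clm_zero fun x => inner_self_eq_zero.1 (e2 x B hB (B (dl x)) (hac_of_sm (hν.2 _)))

/-- local observables: the averages tend to zero in mean square -/
theorem van_intP (hev : ∀ V, IsGrp c V (ev V)) (hR : RInv R) (hO : Obs d v M)
    (ν : Measure ℝ) [IsProbabilityMeasure ν] (hν : Hyp R ν) :
    Tendsto (fun N : ℕ => ∫⁻ V, ‖avp id R (ev V) (v V) N (dl 0)‖ₑ ^ 2 ∂(PP d ν))
      atTop (𝓝 0) := by
  have : IsProbabilityMeasure (PP d ν) := by unfold PP; infer_instance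
  refine tendsto_of_subseq_tendsto ?_
  intro Mk hMk
  obtain ⟨a, ha, hG⟩ := lim2P hev hR hO ν Mk hMk
  have hz := fixed_zeroP hev R hO ν hν _ (hMk.comp ha.tendsto_atTop) hG
  refine ⟨a, ?_⟩
  have key : Tendsto (fun k => ∫⁻ V, ‖avp id R (ev V) (v V) (Mk (a k)) (dl 0)‖ₑ ^ 2
      ∂(PP d ν)) atTop (𝓝 (∫⁻ _V, 0 ∂(PP d ν))) := by
    refine tendsto_lintegral_of_dominated_convergence'
      (fun _ => ENNReal.ofReal ((M * 1) ^ 2)) (fun k => ?_) (fun k => ?_) ?_ ?_
    · exact ((cont_avp hev R hO continuous_id (Mk (a k))).comp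
        (continuous_id.prodMk continuous_const)).aestronglyMeasurable.enorm.pow_const 2
    · refine Eventually.of_forall fun V => ?_
      show ‖avp id R (ev V) (v V) (Mk (a k)) (dl 0)‖ₑ ^ 2 ≤ ENNReal.ofReal ((M * 1) ^ 2)
      rw [← ofReal_norm, ← ENNReal.ofReal_pow (norm_nonneg _)]
      refine ENNReal.ofReal_le_ofReal (pow_le_pow_left₀ (norm_nonneg _) ?_ 2)
      refine (avp_norm id R (ev V) (v V) _ _).trans ?_
      rw [STAT.norm_dl]
      exact mul_le_mul_of_nonneg_right (hO.opn V) zero_le_one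
    · rw [lintegral_const]
      simp
    · filter_upwards [hG, hz] with V ⟨B, hB⟩ h2
      have h4 := (hB (dl 0)).1
      rw [h2 B hB, zero_apply] at h4
      have h5 := h4.enorm
      rw [enorm_zero] at h5
      have h6 := (ENNReal.continuous_pow 2).tendsto 0 |>.comp h5
      simpa [Function.comp_def] using h6
  simpa using key

end Pool.Agent.H988.DJ
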