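import Pool.Agent.H988.DJ.ObB

/-! # General observables between the Anderson dynamics and a fixed one -/

set_option autoImplicit false
set_option linter.unusedSectionVars false

open MeasureTheory Filter Topology
open scoped BigOperators ENNReal NNReal InnerProductSpace ComplexConjugate

namespace Pool.Agent.H988.DJ

open Pool.Agent.H5R2.NB Pool.Agent.H5R2.NBA Pool.Agent.H988.WM Pool.Agent.H988.RS
open Pool.Agent.K7.H83.SI
open Pool.Agent.Y662.ERG (Obs)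
open Pool.Agent.R988.NQ (OF Fld Adj Sym mulF addF subF Uf adj_U trace nn nn_adj obs_fld vec adjF
  adjF_right reF imF sym_re sym_im re_im)

variable {d : ℕ} {c : ℝ} {ev : (Site d → ℝ) → UG (L2 (Site d))} {R : UG (L2 (Site d))}

/-- the observable between the two dynamics, as an operator -/
noncomputable def LR (R : UG (L2 (Site d))) (ev : (Site d → ℝ) → UG (L2 (Site d))) (D : OF d)
    (s : ℝ) (V : Site d → ℝ) : L2 (Site d) →L[ℂ] L2 (Site d) :=
  R.U (-s) ∘L D V ∘L (ev V).U s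

theorem LR_apply (R : UG (L2 (Site d))) (D : OF d) (s : ℝ) (V : Site d → ℝ)
    (x : L2 (Site d)) : LR R ev D s V x = p R (ev V) (D V) x s := rfl

theorem lo_LR (hev : ∀ V, IsGrp c V (ev V)) (R : UG (L2 (Site d))) (ν : Measure ℝ)
    [IsProbabilityMeasure ν] {D : OF d} {C : ℝ} (hC : 0 ≤ C) (hD : Fld C D) :
    LO (PP d ν) (LR R ev D) C := by
  refine ⟨hC, fun s V x => ?_, fun V x => ?_, fun s f hf => ?_⟩
  · rw [LR_apply]
    unfold p
    rw [R.norm']
    refine (hD.bd V _).trans ?_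
    rw [(ev V).norm']
  · exact p_cont R (ev V) (D V) x
  · exact (R.U (-s)).continuous.comp_stronglyMeasurable (hD.meas _ ((fldU hev s).meas _ hf))

theorem avp_sm (hev : ∀ V, IsGrp c V (ev V)) (R : UG (L2 (Site d))) {D : OF d} {C : ℝ}
    (hD : Fld C D) (N : ℕ) : StronglyMeasurable fun V => avp id R (ev V) (D V) N (dl 0) := by
  have hj : StronglyMeasurable (Function.uncurry fun (V : Site d → ℝ) (s : ℝ) =>
      p R (ev V) (D V) (dl 0) s) := by
    have h5 : StronglyMeasurable (Function.uncurry fun (s : ℝ) (V : Site d → ℝ) =>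
        p R (ev V) (D V) (dl 0) s) := by
      refine stronglyMeasurable_uncurry_of_continuous_of_stronglyMeasurable (fun V => ?_)
        (fun s => ?_)
      · exact p_cont _ _ _ _
      · exact (R.U (-s)).continuous.comp_stronglyMeasurable
          (hD.meas _ ((fldU hev s).meas _ stronglyMeasurable_const))
    exact h5.comp_measurable measurable_swap
  have h6 : StronglyMeasurable fun V : Site d → ℝ => ∫ s in Set.Ioc (0 : ℝ) N,
      p R (ev V) (D V) (dl 0) s := hj.integral_prod_right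
  have h7 : (fun V => avp id R (ev V) (D V) N (dl 0)) = fun V =>
      ((N : ℂ)⁻¹) • ∫ s in Set.Ioc (0 : ℝ) N, p R (ev V) (D V) (dl 0) s := by
    funext V
    unfold avp
    rw [intervalIntegral.integral_of_le (Nat.cast_nonneg N)]
    rfl
  rw [h7]
  exact h6.const_smul ((N : ℂ)⁻¹)

/-- the averages of `D` are at most as large as `D` -/
theorem contrP (hev : ∀ V, IsGrp c V (ev V)) (R : UG (L2 (Site d))) {ν : Measure ℝ}
    [IsProbabilityMeasure ν] {D D' : OF d} {C C' : ℝ} (hC : 0 ≤ C) (hD : Fld C D)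
    (hD' : Fld C' D') (aD : Adj D D') (N : ℕ) (hN : 0 < N) :
    ∫⁻ V, ‖avp id R (ev V) (D V) N (dl 0)‖ₑ ^ 2 ∂(PP d ν) ≤ nn ν D := by
  have hNr : (0 : ℝ) < N := Nat.cast_pos.2 hN
  have hNc : (N : ℂ) ≠ 0 := Nat.cast_ne_zero.2 hN.ne'
  have hNe : (N : ℝ≥0∞) ≠ 0 := Nat.cast_ne_zero.2 hN.ne'
  have hNt : (N : ℝ≥0∞) ≠ ∞ := ENNReal.natCast_ne_top N
  set k : ℝ → (Site d → ℝ) → ℝ≥0∞ := fun s V => ‖D V ((ev V).U s (dl 0))‖ₑ with hk
  have hcs : ∀ V, Continuous fun s : ℝ => (ev V).U s (dl 0 : L2 (Site d)) := fun V =>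
    (ev V).cont' _
  have hjm : StronglyMeasurable (Function.uncurry fun (s : ℝ) (V : Site d → ℝ) =>
      D V ((ev V).U s (dl 0))) := by
    refine stronglyMeasurable_uncurry_of_continuous_of_stronglyMeasurable (fun V => ?_)
      (fun s => ?_)
    · exact (D V).continuous.comp (hcs V)
    · exact hD.meas _ ((fldU hev s).meas _ stronglyMeasurable_const)
  have hk1 : Measurable fun q : ℝ × (Site d → ℝ) => k q.1 q.2 := hjm.enorm
  have hkm : Measurable fun q : (Site d → ℝ) × ℝ => k q.2 q.1 ^ 2 :=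
    (hk1.comp measurable_swap).pow_const 2
  have hpt : ∀ V, ‖avp id R (ev V) (D V) N (dl 0)‖ₑ ^ 2 ≤
      (N : ℝ≥0∞)⁻¹ * ∫⁻ s in Set.Ioc (0 : ℝ) N, k s V ^ 2 := by
    intro V
    have e4 : ∀ s, ‖p R (ev V) (D V) (dl 0) s‖ₑ = k s V := by
      intro s
      show ‖R.U (-s) (D V ((ev V).U s (dl 0)))‖ₑ = _
      rw [← ofReal_norm, R.norm', ofReal_norm]
    have hkV : Measurable fun s : ℝ => k s V :=
      (((D V).continuous.comp (hcs V)).enorm).measurable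
    have e5 : ‖∫ s in (0 : ℝ)..(N : ℝ), p R (ev V) (D V) (dl 0) (id s)‖ₑ ≤
        ∫⁻ s in Set.Ioc (0 : ℝ) N, k s V := by
      rw [intervalIntegral.integral_of_le hNr.le]
      refine (enorm_integral_le_lintegral_enorm _).trans (le_of_eq ?_)
      exact lintegral_congr fun s => e4 s
    have e6 : (∫⁻ s in Set.Ioc (0 : ℝ) N, k s V) ^ 2 ≤
        (N : ℝ≥0∞) * ∫⁻ s in Set.Ioc (0 : ℝ) N, k s V ^ 2 := by
      refine (AVL.sq_lintegral_le _ _ hkV.aemeasurable).trans (le_of_eq ?_)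
      rw [Measure.restrict_apply MeasurableSet.univ, Set.univ_inter, Real.volume_Ioc, sub_zero,
        ENNReal.ofReal_natCast]
    have e7 : ‖((N : ℂ)⁻¹)‖ₑ = (N : ℝ≥0∞)⁻¹ := by
      rw [enorm_inv hNc]
      congr 1
      rw [← ofReal_norm, Complex.norm_natCast, ENNReal.ofReal_natCast]
    unfold avp
    rw [enorm_smul, mul_pow, e7]
    calc ((N : ℝ≥0∞)⁻¹) ^ 2 * ‖∫ s in (0 : ℝ)..(N : ℝ), p R (ev V) (D V) (dl 0) (id s)‖ₑ ^ 2
        ≤ ((N : ℝ≥0∞)⁻¹) ^ 2 * ((N : ℝ≥0∞) * ∫⁻ s in Set.Ioc (0 : ℝ) N, k s V ^ 2) := by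
          gcongr
          exact (pow_le_pow_left₀ zero_le e5 2).trans e6
      _ = (N : ℝ≥0∞)⁻¹ * (((N : ℝ≥0∞)⁻¹ * (N : ℝ≥0∞)) *
            ∫⁻ s in Set.Ioc (0 : ℝ) N, k s V ^ 2) := by ring
      _ = _ := by rw [ENNReal.inv_mul_cancel hNe hNt, one_mul]
  have hflow : ∀ s, ∫⁻ V, k s V ^ 2 ∂(PP d ν) ≤ nn ν D := fun s =>
    flowP (c := c) (o := 0) (ev0 hev) hC hD hD' aD (P := idF d) idF_fld idF_sym s
  calc ∫⁻ V, ‖avp id R (ev V) (D V) N (dl 0)‖ₑ ^ 2 ∂(PP d ν)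
      ≤ ∫⁻ V, ((N : ℝ≥0∞)⁻¹ * ∫⁻ s in Set.Ioc (0 : ℝ) N, k s V ^ 2) ∂(PP d ν) :=
        lintegral_mono hpt
    _ = (N : ℝ≥0∞)⁻¹ * ∫⁻ V, (∫⁻ s in Set.Ioc (0 : ℝ) N, k s V ^ 2) ∂(PP d ν) := by
        rw [lintegral_const_mul' _ _ (ENNReal.inv_ne_top.2 hNe)]
    _ = (N : ℝ≥0∞)⁻¹ * ∫⁻ s in Set.Ioc (0 : ℝ) N, (∫⁻ V, k s V ^ 2 ∂(PP d ν)) := by
        congr 1
        exact lintegral_lintegral_swap (f := fun V s => k s V ^ 2) hkm.aemeasurable
    _ ≤ (N : ℝ≥0∞)⁻¹ * ∫⁻ _s in Set.Ioc (0 : ℝ) N, nn ν D := by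
        gcongr with s
        exact hflow s
    _ = nn ν D := by
        rw [lintegral_const, Measure.restrict_apply MeasurableSet.univ, Set.univ_inter,
          Real.volume_Ioc, sub_zero, ENNReal.ofReal_natCast, mul_comm (nn ν _), ← mul_assoc,
          ENNReal.inv_mul_cancel hNe hNt, one_mul]

/-- symmetric fields -/
theorem van_symP (hev : ∀ V, IsGrp c V (ev V)) (hR : RInv R) {ν : Measure ℝ}
    [IsProbabilityMeasure ν] (hν : Hyp R ν) {w : OF d} {β : ℝ} (hw : Fld β w) (sw : Sym w) :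
    Tendsto (fun N : ℕ => ∫⁻ V, ‖avp id R (ev V) (w V) N (dl 0)‖ₑ ^ 2 ∂(PP d ν))
      atTop (𝓝 0) := by
  rw [ENNReal.tendsto_nhds_zero]
  intro ε hε
  have hε4 : 0 < ε / 4 := ENNReal.div_pos hε.ne' (by norm_num)
  obtain ⟨v, M, hO, hv⟩ := Pool.Agent.R988.NQ.approx (ν := ν) hw sw (ε / 4) hε4
  have hβ : 0 ≤ β := by
    have h1 := hw.bd 0 (dl 0)
    rw [STAT.norm_dl, mul_one] at h1
    exact (norm_nonneg _).trans h1
  have h1 := van_intP hev hR hO ν hν
  have h2 := (ENNReal.tendsto_nhds_zero.1 h1) (ε / 4) hε4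
  have hD : Fld (M + β) (subF v w) := (obs_fld hO).sub hw
  have sD : Sym (subF v w) := Sym.sub hO.symm sw
  filter_upwards [h2, eventually_gt_atTop 0] with N hN hN0
  have h3 := contrP hev R (ν := ν) (add_nonneg hO.nn hβ) hD hD sD.adj N hN0
  have hpt : ∀ V, ‖avp id R (ev V) (w V) N (dl 0)‖ₑ ^ 2 ≤
      2 * ‖avp id R (ev V) (v V) N (dl 0)‖ₑ ^ 2 +
        2 * ‖avp id R (ev V) (subF v w V) N (dl 0)‖ₑ ^ 2 := by
    intro V
    have e : avp id R (ev V) (w V) N (dl 0) = avp id R (ev V) (v V) N (dl 0) +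
        (-1 : ℂ) • avp id R (ev V) (subF v w V) N (dl 0) := by
      rw [← avp_smul, ← avp_add id continuous_id]
      congr 1
      show w V = v V + (-1 : ℂ) • (v V - w V)
      module
    rw [e]
    refine (enorm_sq_add _ _).trans (le_of_eq ?_)
    rw [enorm_smul, enorm_neg, enorm_one, one_mul]
  have hm : AEMeasurable (fun V => 2 * ‖avp id R (ev V) (v V) N (dl 0)‖ₑ ^ 2) (PP d ν) :=
    (((avp_sm hev R (obs_fld hO) N).enorm.pow_const 2).const_mul 2).aemeasurable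
  calc ∫⁻ V, ‖avp id R (ev V) (w V) N (dl 0)‖ₑ ^ 2 ∂(PP d ν)
      ≤ ∫⁻ V, (2 * ‖avp id R (ev V) (v V) N (dl 0)‖ₑ ^ 2 +
        2 * ‖avp id R (ev V) (subF v w V) N (dl 0)‖ₑ ^ 2) ∂(PP d ν) :=
        lintegral_mono hpt
    _ = 2 * ∫⁻ V, ‖avp id R (ev V) (v V) N (dl 0)‖ₑ ^ 2 ∂(PP d ν) +
        2 * ∫⁻ V, ‖avp id R (ev V) (subF v w V) N (dl 0)‖ₑ ^ 2 ∂(PP d ν) := by
        rw [lintegral_add_left' hm, lintegral_const_mul' _ _ (by simp),
          lintegral_const_mul' _ _ (by simp)]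
    _ ≤ 2 * (ε / 4) + 2 * (ε / 4) := by
        gcongr
        exact h3.trans hv
    _ = ε := by
        rw [← add_mul]
        have : (2 + 2 : ℝ≥0∞) = 4 := by norm_num
        rw [this, ENNReal.mul_div_cancel (by norm_num) (by norm_num)]

/-- general fields -/
theorem van_fldP (hev : ∀ V, IsGrp c V (ev V)) (hR : RInv R) {ν : Measure ℝ}
    [IsProbabilityMeasure ν] (hν : Hyp R ν) {A : OF d} {M : ℝ} (hA : Fld M A)
    (hA' : Fld M (adjF A)) :
    Tendsto (fun N : ℕ => ∫⁻ V, ‖avp id R (ev V) (A V) N (dl 0)‖ₑ ^ 2 ∂(PP d ν))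
      atTop (𝓝 0) := by
  have hB : Fld (‖(2⁻¹ : ℂ)‖ * (M + M)) (reF A) := (hA.add hA').smul 2⁻¹
  have hC : Fld (‖(-(Complex.I * 2⁻¹) : ℂ)‖ * (M + M)) (imF A) :=
    (hA.sub hA').smul (-(Complex.I * 2⁻¹))
  have h1 := van_symP hev hR hν hB (sym_re A)
  have h2 := van_symP hev hR hν hC (sym_im A)
  have h3 : Tendsto (fun N : ℕ =>
      2 * (∫⁻ V, ‖avp id R (ev V) (reF A V) N (dl 0)‖ₑ ^ 2 ∂(PP d ν)) +
      2 * (∫⁻ V, ‖avp id R (ev V) (imF A V) N (dl 0)‖ₑ ^ 2 ∂(PP d ν))) atTop (𝓝 0) := by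
    have a1 := ENNReal.Tendsto.const_mul (a := 2) h1 (Or.inr (by norm_num))
    have a2 := ENNReal.Tendsto.const_mul (a := 2) h2 (Or.inr (by norm_num))
    simpa using a1.add a2
  refine tendsto_of_tendsto_of_tendsto_of_le_of_le tendsto_const_nhds h3
    (fun _ => zero_le) fun N => ?_
  have hm : AEMeasurable (fun V => 2 * ‖avp id R (ev V) (reF A V) N (dl 0)‖ₑ ^ 2) (PP d ν) :=
    (((avp_sm hev R hB N).enorm.pow_const 2).const_mul 2).aemeasurable
  have hpt : ∀ V, ‖avp id R (ev V) (A V) N (dl 0)‖ₑ ^ 2 ≤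
      2 * ‖avp id R (ev V) (reF A V) N (dl 0)‖ₑ ^ 2 +
        2 * ‖avp id R (ev V) (imF A V) N (dl 0)‖ₑ ^ 2 := by
    intro V
    have e : avp id R (ev V) (A V) N (dl 0) =
        avp id R (ev V) (reF A V) N (dl 0) +
        Complex.I • avp id R (ev V) (imF A V) N (dl 0) := by
      rw [← avp_smul, ← avp_add id continuous_id]
      congr 1
      ext1 ψ
      exact re_im A V ψ
    rw [e]
    refine (enorm_sq_add _ _).trans (le_of_eq ?_)
    rw [enorm_smul, ← ofReal_norm Complex.I, Complex.norm_I, ENNReal.ofReal_one, one_mul]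
  calc ∫⁻ V, ‖avp id R (ev V) (A V) N (dl 0)‖ₑ ^ 2 ∂(PP d ν)
      ≤ ∫⁻ V, (2 * ‖avp id R (ev V) (reF A V) N (dl 0)‖ₑ ^ 2 +
        2 * ‖avp id R (ev V) (imF A V) N (dl 0)‖ₑ ^ 2) ∂(PP d ν) :=
        lintegral_mono hpt
    _ = _ := by
        rw [lintegral_add_left' hm, lintegral_const_mul' _ _ (by simp),
          lintegral_const_mul' _ _ (by simp)]

/-- the twisted dynamics -/
theorem p_tw (μ : ℝ) (R W : UG (L2 (Site d))) (v : L2 (Site d) →L[ℂ] L2 (Site d))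
    (x : L2 (Site d)) (s : ℝ) : p (tw (-μ) R) W v x s = ph μ s • p R W v x s := by
  show (tw (-μ) R).U (-s) (v (W.U s x)) = ph μ s • R.U (-s) (v (W.U s x))
  rw [tw_U, ph_neg_mu, neg_neg]

theorem rinv_tw (hR : RInv R) (μ : ℝ) : RInv (tw μ R) := by
  intro z S hS t ψ
  rw [tw_U, tw_U, hR z S hS, map_smul]

theorem hyp_tw {ν : Measure ℝ} (h : Hyp R ν) (μ : ℝ) : Hyp (tw μ R) ν := by
  rcases h with h | ⟨h1, h2⟩
  · exact Or.inl h
  · refine Or.inr ⟨h1, fun ψ => ?_⟩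
    rw [sm_tw]
    have hg : Measurable fun E : ℝ => E + μ := by fun_prop
    have h3 := (h2 ψ).map hg
    rwa [(measurePreserving_add_right (volume : Measure ℝ) μ).map_eq] at h3

/-- stationary curve with vanishing averages -/
theorem pcP (hev : ∀ V, IsGrp c V (ev V)) (hR : RInv R) {ν : Measure ℝ}
    [IsProbabilityMeasure ν] (hν : Hyp R ν) {A : OF d} {M : ℝ} (hA : Fld M A)
    (hA' : Fld M (adjF A)) :
    PC (PP d ν) (fun s V => p R (ev V) (A V) (dl 0) s) M := by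
  have hM : 0 ≤ M := hA.nonneg
  refine ⟨fun s V => ?_, fun V => p_cont _ _ _ _, fun s => ?_, fun s t a => ?_, fun μ => ?_⟩
  · unfold p
    rw [R.norm']
    refine (hA.bd V _).trans ?_
    rw [(ev V).norm', STAT.norm_dl, mul_one]
  · exact (R.U (-s)).continuous.comp_stronglyMeasurable
      (hA.meas _ ((fldU hev s).meas _ stronglyMeasurable_const))
  · exact statP hev hR ν hM hM hA hA' (fun V f g => (adjF_right _ V f g).symm) s t a
  · have h1 := van_fldP hev (rinv_tw hR (-μ)) (hyp_tw hν (-μ)) hA hA'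
    refine h1.congr fun N => ?_
    refine lintegral_congr fun V => ?_
    unfold avp
    simp only [p_tw]
    rfl

theorem LR_shift (hev : ∀ V, IsGrp c V (ev V)) (hR : RInv R) {D : OF d} {C : ℝ} (hD : Fld C D)
    (x : Site d) (s : ℝ) (V : Site d → ℝ) : LR R ev D s V (idF d V (dl x)) =
      Pool.Agent.R988.NQ.sO (-x) (p R (ev fun y => V (y + x)) (D fun y => V (y + x)) (dl 0) s) := by
  have hS := Pool.Agent.R988.NQ.sO_shift (-x)
  show R.U (-s) (D V ((ev V).U s (dl x))) = _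
  rw [← LIMB.shift_dl x (Pool.Agent.R988.NQ.sO (-x)) hS]
  have h1 := cov_at (fldU hev s) x hS V (dl 0)
  have h1' : (ev V).U s (Pool.Agent.R988.NQ.sO (-x) (dl 0)) =
    Pool.Agent.R988.NQ.sO (-x) ((ev fun y => V (y + x)).U s (dl 0)) := h1
  rw [h1', cov_at hD x hS, hR (-x) _ hS]
  rfl

theorem pcxP (hev : ∀ V, IsGrp c V (ev V)) (hR : RInv R) {ν : Measure ℝ}
    [IsProbabilityMeasure ν] (hν : Hyp R ν) {A : OF d} {M : ℝ} (hA : Fld M A)
    (hA' : Fld M (adjF A)) (x : Site d) :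
    PC (PP d ν) (fun s V => LR R ev A s V (idF d V (dl x))) M := by
  have h1 := (pcP hev hR hν hA hA').push ((t_RES d ν).2 x) (Pool.Agent.R988.NQ.sO (-x))
    (sO_iso (-x))
  have e : (fun (s : ℝ) (V : Site d → ℝ) => LR R ev A s V (idF d V (dl x))) =
      fun s V => Pool.Agent.R988.NQ.sO (-x) (p R (ev fun y => V (y + x)) (A fun y => V (y + x))
        (dl 0) s) := by
    funext s V
    exact LR_shift hev hR hA x s V
  rw [e]
  exact h1

/-- **weak decay and mean decay for all observables and all random states** -/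
theorem mainP (hev : ∀ V, IsGrp c V (ev V)) (hR : RInv R) {ν : Measure ℝ}
    [IsProbabilityMeasure ν] (hν : Hyp R ν) {A : OF d} {M : ℝ} (hA : Fld M A)
    (hA' : Fld M (adjF A)) {ψ : (Site d → ℝ) → L2 (Site d)} (hψ : MemLp ψ 2 (PP d ν)) :
    Wk (PP d ν) (LR R ev A) ψ ∧ Mn 0 (PP d ν) (LR R ev A) ψ := by
  have hM : 0 ≤ M := hA.nonneg
  have hL := lo_LR hev R ν hM hA
  have hPψ : ∀ᵐ V ∂(PP d ν), idF d V (ψ V) = ψ V := Eventually.of_forall fun V => rfl
  refine ⟨(all_states hL idF_fld hψ hPψ).1 fun x => wk_of_pc (pcxP hev hR hν hA hA' x),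
    (all_states hL idF_fld hψ hPψ).2 0 fun x => ?_⟩
  refine mn_of_nat hL (R := 1) (fun V => ?_) ?_
  · show ‖(dl x : L2 (Site d))‖ ≤ 1
    rw [STAT.norm_dl]
  · exact (pcxP hev hR hν hA hA' x).mn 0

end Pool.Agent.H988.DJ
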