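import Pool.Agent.H988.DJ.ObC

/-! # A constant added to the potential, and the other order -/

set_option autoImplicit false
set_option linter.unusedSectionVars false

open MeasureTheory Filter Topology
open scoped BigOperators ENNReal NNReal InnerProductSpace ComplexConjugate

namespace Pool.Agent.H988.DJ

open Pool.Agent.H5R2.NB Pool.Agent.H5R2.NBA Pool.Agent.H988.WM Pool.Agent.H988.RS
open Pool.Agent.K7.H83.SI
open Pool.Agent.R988.NQ (OF Fld Adj Sym mulF addF subF Uf adj_U trace nn nn_adj obs_fld vec adjF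
  adjF_right adjF_left reF imF sym_re sym_im re_im)

variable {d : ℕ} {c : ℝ} {ev : (Site d → ℝ) → UG (L2 (Site d))} {R : UG (L2 (Site d))}

/-- the potential `o + ω` -/
def offs (o : ℝ) (ω : Site d → ℝ) : Site d → ℝ := fun x => o + ω x

theorem offs_neg (o : ℝ) (ω : Site d → ℝ) : offs (-o) (offs o ω) = ω := by
  funext x
  unfold offs
  ring

theorem offs_meas (o : ℝ) : Measurable (offs (d := d) o) := by
  unfold offs
  fun_prop

/-- the constant is a measurable equivalence -/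
theorem offs_mp (ν : Measure ℝ) [IsProbabilityMeasure ν] (o : ℝ) :
    MeasurePreserving (offs (d := d) o) (PP d ν) (PP d (ν.map fun r : ℝ => o + r)) ∧
    MeasurableEmbedding (offs (d := d) o) := by
  set e : (Site d → ℝ) ≃ᵐ (Site d → ℝ) := MeasurableEquiv.addLeft (fun _ : Site d => o) with he
  have hg : Measurable (fun r : ℝ => o + r) := by fun_prop
  have hmap : (PP d ν).map e = PP d (ν.map fun r : ℝ => o + r) := by
    unfold PP
    exact Measure.infinitePi_map_pi (μ := fun _ : Site d => ν) (fun _ => hg)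
  exact ⟨⟨offs_meas o, hmap⟩, e.measurableEmbedding⟩

theorem offs_mp' (ν : Measure ℝ) [IsProbabilityMeasure ν] (o : ℝ) :
    MeasurePreserving (offs (d := d) (-o)) (PP d (ν.map fun r : ℝ => o + r)) (PP d ν) := by
  refine ⟨offs_meas (-o), ?_⟩
  rw [← (offs_mp ν o).1.map_eq, Measure.map_map (offs_meas _) (offs_meas _)]
  have e : (offs (d := d) (-o) ∘ offs o) = id := by
    funext ω
    exact offs_neg o ω
  rw [e, Measure.map_id]

theorem fld_offs {A : OF d} {M : ℝ} (hA : Fld M A) (o : ℝ) : Fld M (fun V => A (offs (-o) V)) := by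
  refine ⟨fun V ψ => hA.bd _ ψ, fun f hf => ?_, fun z S hS V ψ => ?_⟩
  · have h1 : StronglyMeasurable fun ω : Site d → ℝ => f (offs o ω) :=
      hf.comp_measurable (offs_meas o)
    have h2 := (hA.meas _ h1).comp_measurable (offs_meas (d := d) (-o))
    have e : (fun V => A (offs (-o) V) (f V)) =
        (fun ω => A ω (f (offs o ω))) ∘ offs (-o) := by
      funext V
      have e1 : offs o (offs (-o) V) = V := by
        have h := offs_neg (-o) V
        rwa [neg_neg] at h
      show A (offs (-o) V) (f V) = A (offs (-o) V) (f (offs o (offs (-o) V)))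
      rw [e1]
    rw [e]
    exact h2
  · exact hA.cov z S hS (offs (-o) V) ψ

theorem hyp_offs {ν : Measure ℝ} (h : Hyp R ν) (o : ℝ) : Hyp R (ν.map fun r : ℝ => o + r) := by
  rcases h with h | ⟨h1, h2⟩
  · exact Or.inl (map_ac h o)
  · refine Or.inr ⟨fun κ => ?_, h2⟩
    have hg : Measurable (fun r : ℝ => o + r) := by fun_prop
    rw [Measure.map_apply hg (measurableSet_singleton κ)]
    have e : (fun r : ℝ => o + r) ⁻¹' {κ} = {κ - o} := by
      ext r
      simp only [Set.mem_preimage, Set.mem_singleton_iff]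
      constructor
      · intro h
        linarith
      · intro h
        linarith
    rw [e]
    exact h1 _

/-- **the main statements with a constant added to the potential** -/
theorem mainO (hev : ∀ V, IsGrp c V (ev V)) (hR : RInv R) {ν : Measure ℝ}
    [IsProbabilityMeasure ν] (hν : Hyp R ν) (o : ℝ) {A : OF d} {M : ℝ} (hA : Fld M A)
    (hA' : Fld M (adjF A)) {ψ : (Site d → ℝ) → L2 (Site d)} (hψ : MemLp ψ 2 (PP d ν)) :
    Wk (PP d ν) (LR R (fun ω => ev (offs o ω)) A) ψ ∧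
      Mn 0 (PP d ν) (LR R (fun ω => ev (offs o ω)) A) ψ := by
  have hmp := (offs_mp (d := d) ν o).1
  have hme := (offs_mp (d := d) ν o).2
  have hmp' := offs_mp' (d := d) ν o
  have hA1 := fld_offs hA o
  have hA2 : Fld M (adjF fun V => A (offs (-o) V)) := fld_offs hA' o
  have h := mainP hev hR (hyp_offs hν o) hA1 hA2 (hψ.comp_measurePreserving hmp')
  constructor
  · intro Z hZ
    have h1 := h.1 (Z ∘ offs (-o)) (hZ.comp_measurePreserving hmp')
    refine h1.congr fun T => ?_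
    congr 1
    refine intervalIntegral.integral_congr fun s _ => ?_
    show ‖_‖ ^ 2 = ‖_‖ ^ 2
    congr 2
    rw [← hmp.integral_comp hme]
    refine integral_congr_ae (Eventually.of_forall fun ω => ?_)
    show ⟪Z (offs (-o) (offs o ω)), R.U (-s) (A (offs (-o) (offs o ω))
      ((ev (offs o ω)).U s (ψ (offs (-o) (offs o ω)))))⟫_ℂ = _
    rw [offs_neg]
    rfl
  · refine Tendsto.congr (fun T => ?_) h.2
    rw [← hmp.lintegral_comp_emb hme]
    refine lintegral_congr fun ω => ?_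
    show ‖((T : ℂ)⁻¹) • ∫ s in (0 : ℝ)..T, ph 0 s • (R.U (-s) (A (offs (-o) (offs o ω))
      ((ev (offs o ω)).U s (ψ (offs (-o) (offs o ω))))))‖ₑ ^ 2 = _
    rw [offs_neg]
    rfl

/-- the matrix elements in the other order -/
theorem mainO_rev (hev : ∀ V, IsGrp c V (ev V)) (hR : RInv R) {ν : Measure ℝ}
    [IsProbabilityMeasure ν] (hν : Hyp R ν) (o : ℝ) {A : OF d} {M : ℝ} (hA : Fld M A)
    (hA' : Fld M (adjF A)) {ψ Z : (Site d → ℝ) → L2 (Site d)} (hψ : MemLp ψ 2 (PP d ν))
    (hZ : MemLp Z 2 (PP d ν)) :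
    Tendsto (fun T : ℝ => T⁻¹ * ∫ s in (0 : ℝ)..T, ‖∫ ω, ⟪Z ω, (ev (offs o ω)).U (-s)
      (A ω (R.U s (ψ ω)))⟫_ℂ ∂(PP d ν)‖ ^ 2) atTop (𝓝 0) := by
  have e1 : adjF (adjF A) = A := by
    funext V
    exact ContinuousLinearMap.adjoint_adjoint _
  have h := (mainO hev hR hν o hA' (by rw [e1]; exact hA) hZ).1 ψ hψ
  refine h.congr fun T => ?_
  congr 1
  refine intervalIntegral.integral_congr fun s _ => ?_
  show ‖_‖ ^ 2 = ‖_‖ ^ 2
  congr 1
  have e2 : ∀ ω, ⟪Z ω, (ev (offs o ω)).U (-s) (A ω (R.U s (ψ ω)))⟫_ℂ =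
      conj ⟪ψ ω, LR R (fun ω => ev (offs o ω)) (adjF A) s ω (Z ω)⟫_ℂ := by
    intro ω
    show _ = conj ⟪ψ ω, R.U (-s) (adjF A ω ((ev (offs o ω)).U s (Z ω)))⟫_ℂ
    rw [← NN.inner_adj R s (ψ ω) _]
    rw [adjF_right, inner_conj_symm, NN.inner_adj]
  simp only [e2]
  rw [integral_conj, RCLike.norm_conj]

/-- **no intertwiners** -/
theorem no_inter (hev : ∀ V, IsGrp c V (ev V)) (hR : RInv R) {ν : Measure ℝ}
    [IsProbabilityMeasure ν] (hν : Hyp R ν) (o : ℝ) {A : OF d} {M : ℝ} (hA : Fld M A)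
    (hA' : Fld M (adjF A))
    (hi : ∀ᵐ ω ∂(PP d ν), ∀ t u, A ω ((ev (offs o ω)).U t u) = R.U t (A ω u)) :
    ∀ᵐ ω ∂(PP d ν), ∀ u, A ω u = 0 := by
  have hx : ∀ x : Site d, ∀ᵐ ω ∂(PP d ν), A ω (dl x) = 0 := by
    intro x
    have hψ : MemLp (fun _ : Site d → ℝ => (dl x : L2 (Site d))) 2 (PP d ν) := by
      have hP : IsProbabilityMeasure (PP d ν) := by
        unfold PP
        infer_instance
      exact memLp_const _
    have h := (mainO hev hR hν o hA hA' hψ).2
    have e : ∀ T : ℝ, 0 < T → ∫⁻ ω, ‖avR 0 (LR R (fun ω => ev (offs o ω)) A) T ω (dl x)‖ₑ ^ 2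
        ∂(PP d ν) = ∫⁻ ω, ‖A ω (dl x)‖ₑ ^ 2 ∂(PP d ν) := by
      intro T hT
      refine lintegral_congr_ae ?_
      filter_upwards [hi] with ω hω
      show ‖((T : ℂ)⁻¹) • ∫ s in (0 : ℝ)..T, ph 0 s • (R.U (-s) (A ω
        ((ev (offs o ω)).U s (dl x))))‖ₑ ^ 2 = _
      have e1 : ∀ s : ℝ, ph 0 s • (R.U (-s) (A ω ((ev (offs o ω)).U s (dl x)))) =
          A ω (dl x) := by
        intro s
        rw [hω, ← R.add', neg_add_cancel, R.zero']
        unfold ph
        simp
      simp only [e1]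
      rw [intervalIntegral.integral_const, sub_zero]
      have e2 : ((T : ℂ)⁻¹) • (T • A ω (dl x)) = A ω (dl x) := by
        have h1 : (T • A ω (dl x) : L2 (Site d)) = ((T : ℂ)) • A ω (dl x) :=
          (Complex.coe_smul T _).symm
        rw [h1, smul_smul, inv_mul_cancel₀ (by exact_mod_cast hT.ne'), one_smul]
      rw [e2]
    have h1 : Tendsto (fun T : ℝ => ∫⁻ ω, ‖avR 0 (LR R (fun ω => ev (offs o ω)) A) T ω (dl x)‖ₑ ^ 2
        ∂(PP d ν)) atTop (𝓝 (∫⁻ ω, ‖A ω (dl x)‖ₑ ^ 2 ∂(PP d ν))) :=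
      tendsto_const_nhds.congr' (by
        filter_upwards [eventually_gt_atTop 0] with T hT
        exact (e T hT).symm)
    have h2 := tendsto_nhds_unique h1 h
    have hm : AEMeasurable (fun ω => ‖A ω (dl x)‖ₑ ^ 2) (PP d ν) :=
      ((hA.meas _ stronglyMeasurable_const).enorm.pow_const 2).aemeasurable
    rw [lintegral_eq_zero_iff' hm] at h2
    filter_upwards [h2] with ω hω
    have h3 : ‖A ω (dl x)‖ₑ ^ 2 = 0 := hω
    exact enorm_eq_zero.1 (pow_eq_zero_iff (two_ne_zero)|>.1 h3)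
  have hall : ∀ᵐ ω ∂(PP d ν), ∀ x : Site d, A ω (dl x) = 0 := ae_all_iff.2 hx
  filter_upwards [hall] with ω hω u
  have h5 : closure (Submodule.span ℂ (Set.range (dl (d := d))) : Set (L2 (Site d))) ⊆
      LinearMap.ker (A ω).toLinearMap := by
    refine closure_minimal ?_ (A ω).isClosed_ker
    have h6 : Submodule.span ℂ (Set.range (dl (d := d))) ≤ LinearMap.ker (A ω).toLinearMap := by
      rw [Submodule.span_le]
      rintro _ ⟨y, rfl⟩
      exact hω y
    exact h6
  exact h5 (LIMB.dl_dense d u)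

/-- no intertwiners in the other direction -/
theorem no_inter' (hev : ∀ V, IsGrp c V (ev V)) (hR : RInv R) {ν : Measure ℝ}
    [IsProbabilityMeasure ν] (hν : Hyp R ν) (o : ℝ) {A : OF d} {M : ℝ} (hA : Fld M A)
    (hA' : Fld M (adjF A))
    (hi : ∀ᵐ ω ∂(PP d ν), ∀ t u, A ω (R.U t u) = (ev (offs o ω)).U t (A ω u)) :
    ∀ᵐ ω ∂(PP d ν), ∀ u, A ω u = 0 := by
  have e1 : adjF (adjF A) = A := by
    funext V
    exact ContinuousLinearMap.adjoint_adjoint _
  have h := no_inter hev hR hν o hA' (by rw [e1]; exact hA) (by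
    filter_upwards [hi] with ω hω t u
    refine ext_inner_left ℂ fun w => ?_
    have a1 := NN.inner_adj (ev (offs o ω)) (-t) (A ω w) u
    have a2 := NN.inner_adj R (-t) w (adjF A ω u)
    rw [neg_neg] at a1 a2
    rw [adjF_right, ← a1, ← hω, ← adjF_right, a2])
  filter_upwards [h] with ω hω u
  refine ext_inner_left ℂ fun w => ?_
  rw [inner_zero_right, ← adjF_left, hω, inner_zero_left]

end Pool.Agent.H988.DJ
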