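import Pool.Agent.H988.DJ.ObD

/-! # The averages in the other order -/

set_option autoImplicit false
set_option linter.unusedSectionVars false

open MeasureTheory Filter Topology
open scoped BigOperators ENNReal NNReal InnerProductSpace ComplexConjugate

namespace Pool.Agent.H988.DJ

open Pool.Agent.H5R2.NB Pool.Agent.H5R2.NBA Pool.Agent.H988.WM Pool.Agent.H988.RS
open Pool.Agent.K7.H83.SI
open Pool.Agent.R988.NQ (OF Fld Adj Sym mulF addF subF Uf adj_U trace nn nn_adj obs_fld vec adjF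
  adjF_right adjF_left reF imF sym_re sym_im re_im)

variable {d : ℕ} {c : ℝ} {ev : (Site d → ℝ) → UG (L2 (Site d))} {R : UG (L2 (Site d))}

/-- averages between two fields of dynamics are fields -/
theorem fld_TP {A B : (Site d → ℝ) → UG (L2 (Site d))} (hA : ∀ s, Fld 1 (Uf A s))
    (hB : ∀ s, Fld 1 (Uf B s)) {D : OF d} {C : ℝ} (hC : 0 ≤ C) (hD : Fld C D) (N : ℕ) :
    Fld C (fun V => TP continuous_id (A V) (B V) (D V) N) := by
  refine ⟨fun V x => ?_, fun f hf => ?_, fun z S hS V x => ?_⟩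
  · rw [TP_apply]
    refine (avp_norm _ _ _ _ _ _).trans ?_
    exact mul_le_mul_of_nonneg_right (ContinuousLinearMap.opNorm_le_bound _ hC (hD.bd V))
      (norm_nonneg _)
  · have h5 : StronglyMeasurable (Function.uncurry fun (s : ℝ) (V : Site d → ℝ) =>
        p (A V) (B V) (D V) (f V) s) := by
      refine stronglyMeasurable_uncurry_of_continuous_of_stronglyMeasurable (fun V => ?_)
        (fun s => ?_)
      · exact p_cont _ _ _ _
      · exact (hA (-s)).meas _ (hD.meas _ ((hB s).meas _ hf))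
    have hj : StronglyMeasurable (Function.uncurry fun (V : Site d → ℝ) (s : ℝ) =>
        p (A V) (B V) (D V) (f V) s) := h5.comp_measurable measurable_swap
    have h6 : StronglyMeasurable fun V : Site d → ℝ => ∫ s in Set.Ioc (0 : ℝ) N,
        p (A V) (B V) (D V) (f V) s := hj.integral_prod_right
    have h7 : (fun V => TP continuous_id (A V) (B V) (D V) N (f V)) = fun V =>
        ((N : ℂ)⁻¹) • ∫ s in Set.Ioc (0 : ℝ) N, p (A V) (B V) (D V) (f V) s := by
      funext V
      rw [TP_apply]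
      unfold avp
      rw [intervalIntegral.integral_of_le (Nat.cast_nonneg N)]
      rfl
    rw [h7]
    exact h6.const_smul ((N : ℂ)⁻¹)
  · rw [TP_apply, TP_apply]
    have hc : Continuous fun s => p (A V) (B V) (D V) x s := p_cont _ _ _ _
    unfold avp
    have e := ContinuousLinearMap.intervalIntegral_comp_comm S
      (hc.intervalIntegrable (μ := volume) (0 : ℝ) (N : ℝ))
    rw [map_smul]
    congr 1
    refine Eq.trans ?_ e
    refine intervalIntegral.integral_congr fun s _ => ?_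
    show Uf A (-s) (fun y => V (y + z)) (D (fun y => V (y + z)) (Uf B s (fun y => V (y + z)) (S x))) =
      S (Uf A (-s) V (D V (Uf B s V x)))
    rw [(hB s).cov z S hS, hD.cov z S hS, (hA (-s)).cov z S hS]

/-- the adjoint of the average -/
theorem adj_TP {A B : (Site d → ℝ) → UG (L2 (Site d))} (D : OF d) (N : ℕ) :
    Adj (fun V => TP continuous_id (A V) (B V) (D V) N)
      (fun V => TP continuous_id (B V) (A V) (adjF D V) N) := by
  intro V y x
  show ⟪avp id (A V) (B V) (D V) N y, x⟫_ℂ = ⟪y, avp id (B V) (A V) (adjF D V) N x⟫_ℂ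
  have h1 : ∀ s : ℝ, ⟪y, p (B V) (A V) (adjF D V) x s⟫_ℂ = ⟪p (A V) (B V) (D V) y s, x⟫_ℂ := by
    intro s
    show ⟪y, (B V).U (-s) (adjF D V ((A V).U s x))⟫_ℂ = ⟪(A V).U (-s) (D V ((B V).U s y)), x⟫_ℂ
    rw [← NN.inner_adj, adjF_right, NN.inner_adj (A V) (-s), neg_neg]
  have e1 : ⟪y, avp id (B V) (A V) (adjF D V) N x⟫_ℂ =
      ((N : ℂ)⁻¹) * ∫ s in (0 : ℝ)..(N : ℝ), ⟪y, p (B V) (A V) (adjF D V) x s⟫_ℂ := by
    unfold avp
    rw [inner_smul_right]
    congr 1
    exact ((innerSL ℂ y).intervalIntegral_comp_comm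
      ((p_cont (B V) (A V) (adjF D V) x).intervalIntegrable (μ := volume) 0 N)).symm
  have e2 : ⟪x, avp id (A V) (B V) (D V) N y⟫_ℂ =
      ((N : ℂ)⁻¹) * ∫ s in (0 : ℝ)..(N : ℝ), ⟪x, p (A V) (B V) (D V) y s⟫_ℂ := by
    unfold avp
    rw [inner_smul_right]
    congr 1
    exact ((innerSL ℂ x).intervalIntegral_comp_comm
      ((p_cont (A V) (B V) (D V) y).intervalIntegrable (μ := volume) 0 N)).symm
  rw [e1, ← inner_conj_symm, e2, map_mul, map_inv₀, Complex.conj_natCast]
  congr 1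
  rw [intervalIntegral.integral_of_le (Nat.cast_nonneg N),
    intervalIntegral.integral_of_le (Nat.cast_nonneg N), ← integral_conj]
  refine integral_congr_ae (Eventually.of_forall fun s => ?_)
  show conj ⟪x, p (A V) (B V) (D V) y s⟫_ℂ = ⟪y, p (B V) (A V) (adjF D V) x s⟫_ℂ
  rw [inner_conj_symm, h1]

/-- the averages in the other order vanish at every site -/
theorem van_rev (hev : ∀ V, IsGrp c V (ev V)) (hR : RInv R) {ν : Measure ℝ}
    [IsProbabilityMeasure ν] (hν : Hyp R ν) {A : OF d} {M : ℝ} (hA : Fld M A)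
    (hA' : Fld M (adjF A)) (x : Site d) :
    Tendsto (fun N : ℕ => ∫⁻ V, ‖avp id (ev V) R (A V) N (dl x)‖ₑ ^ 2 ∂(PP d ν))
      atTop (𝓝 0) := by
  have hM : 0 ≤ M := hA.nonneg
  have e1 : adjF (adjF A) = A := by
    funext V
    exact ContinuousLinearMap.adjoint_adjoint _
  have h1 := van_fldP hev hR hν hA' (by rw [e1]; exact hA)
  refine h1.congr fun N => ?_
  have hU := fldU (c := c) hev
  have hRf : ∀ s, Fld 1 (Uf (fun _ : Site d → ℝ => R) s) := fldR hR
  have f1 := fld_TP hU hRf hM hA N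
  have f2 := fld_TP hRf hU hM hA' N
  have h2 := nn_adj (ν := ν) f1 f2 (adj_TP A N)
  have h3 : ∫⁻ V, ‖avp id (ev V) R (A V) N (dl x)‖ₑ ^ 2 ∂(PP d ν) =
      ∫⁻ V, ‖avp id (ev V) R (A V) N (dl 0)‖ₑ ^ 2 ∂(PP d ν) := by
    have hS := Pool.Agent.R988.NQ.sO_shift (-x)
    have h4 : ∀ V, ‖avp id (ev V) R (A V) N (dl x)‖ₑ ^ 2 =
        (fun V => ‖avp id (ev V) R (A V) N (dl 0)‖ₑ ^ 2) (fun y => V (y + x)) := by
      intro V
      have h5 := cov_at f1 x hS V (dl 0)
      rw [LIMB.shift_dl x (Pool.Agent.R988.NQ.sO (-x)) hS] at h5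
      have h6 : avp id (ev V) R (A V) N (dl x) = Pool.Agent.R988.NQ.sO (-x)
        (avp id (ev fun y => V (y + x)) R (A fun y => V (y + x)) N (dl 0)) := h5
      show _ = ‖avp id (ev fun y => V (y + x)) R (A fun y => V (y + x)) N (dl 0)‖ₑ ^ 2
      rw [h6]
      congr 1
      have h7 : ∀ a : L2 (Site d), ‖Pool.Agent.R988.NQ.sO (-x) a‖ = ‖a‖ := by
        intro a
        have h8 := sO_iso (-x) a a
        rw [inner_self_eq_norm_sq_to_K, inner_self_eq_norm_sq_to_K] at h8
        have h9 : ‖Pool.Agent.R988.NQ.sO (-x) a‖ ^ 2 = ‖a‖ ^ 2 := by exact_mod_cast h8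
        exact (pow_left_inj₀ (norm_nonneg _) (norm_nonneg _) two_ne_zero).1 h9
      rw [← ofReal_norm, h7, ofReal_norm]
    rw [lintegral_congr h4]
    exact ((t_RES d ν).2 x).lintegral_comp (f1.sm.enorm.pow_const 2)
  rw [h3]
  exact h2.symm

/-- the operator in the other order -/
noncomputable def RL (R : UG (L2 (Site d))) (ev : (Site d → ℝ) → UG (L2 (Site d))) (D : OF d)
    (s : ℝ) (V : Site d → ℝ) : L2 (Site d) →L[ℂ] L2 (Site d) :=
  (ev V).U (-s) ∘L D V ∘L R.U s

theorem lo_RL (hev : ∀ V, IsGrp c V (ev V)) (R : UG (L2 (Site d))) (ν : Measure ℝ)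
    [IsProbabilityMeasure ν] {D : OF d} {C : ℝ} (hC : 0 ≤ C) (hD : Fld C D) :
    LO (PP d ν) (RL R ev D) C := by
  refine ⟨hC, fun s V x => ?_, fun V x => ?_, fun s f hf => ?_⟩
  · show ‖(ev V).U (-s) (D V (R.U s x))‖ ≤ C * ‖x‖
    rw [(ev V).norm']
    refine (hD.bd V _).trans ?_
    rw [R.norm']
  · exact p_cont (ev V) R (D V) x
  · exact (fldU hev (-s)).meas _ (hD.meas _ ((R.U s).continuous.comp_stronglyMeasurable hf))

/-- **mean decay in the other order** -/
theorem mainP_rev (hev : ∀ V, IsGrp c V (ev V)) (hR : RInv R) {ν : Measure ℝ}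
    [IsProbabilityMeasure ν] (hν : Hyp R ν) {A : OF d} {M : ℝ} (hA : Fld M A)
    (hA' : Fld M (adjF A)) {ψ : (Site d → ℝ) → L2 (Site d)} (hψ : MemLp ψ 2 (PP d ν)) :
    Mn 0 (PP d ν) (RL R ev A) ψ := by
  have hM : 0 ≤ M := hA.nonneg
  have hL := lo_RL hev R ν hM hA
  have hPψ : ∀ᵐ V ∂(PP d ν), idF d V (ψ V) = ψ V := Eventually.of_forall fun V => rfl
  refine (all_states hL idF_fld hψ hPψ).2 0 fun x => ?_
  refine mn_of_nat hL (R := 1) (fun V => ?_) ?_
  · show ‖(dl x : L2 (Site d))‖ ≤ 1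
    rw [STAT.norm_dl]
  · refine (van_rev hev hR hν hA hA' x).congr fun N => ?_
    refine lintegral_congr fun V => ?_
    have e1 : avR 0 (RL R ev A) N V (idF d V (dl x)) = avp id (ev V) R (A V) N (dl x) := by
      unfold avR avp
      rw [show (((N : ℝ)) : ℂ) = (N : ℂ) by push_cast; rfl]
      congr 1
      refine intervalIntegral.integral_congr fun s _ => ?_
      show ph 0 s • ((ev V).U (-s) (A V (R.U s (dl x)))) = (ev V).U (-s) (A V (R.U s (dl x)))
      have e2 : ph 0 s = 1 := by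
        unfold ph
        simp
      rw [e2, one_smul]
    rw [e1]

/-- with a constant added to the potential -/
theorem mainO_rev' (hev : ∀ V, IsGrp c V (ev V)) (hR : RInv R) {ν : Measure ℝ}
    [IsProbabilityMeasure ν] (hν : Hyp R ν) (o : ℝ) {A : OF d} {M : ℝ} (hA : Fld M A)
    (hA' : Fld M (adjF A)) {ψ : (Site d → ℝ) → L2 (Site d)} (hψ : MemLp ψ 2 (PP d ν)) :
    Mn 0 (PP d ν) (RL R (fun ω => ev (offs o ω)) A) ψ := by
  have hmp := (offs_mp (d := d) ν o).1
  have hme := (offs_mp (d := d) ν o).2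
  have hmp' := offs_mp' (d := d) ν o
  have hA1 := fld_offs hA o
  have hA2 : Fld M (adjF fun V => A (offs (-o) V)) := fld_offs hA' o
  have h := mainP_rev hev hR (hyp_offs hν o) hA1 hA2 (hψ.comp_measurePreserving hmp')
  refine Tendsto.congr (fun T => ?_) h
  rw [← hmp.lintegral_comp_emb hme]
  refine lintegral_congr fun ω => ?_
  show ‖((T : ℂ)⁻¹) • ∫ s in (0 : ℝ)..T, ph 0 s • ((ev (offs o ω)).U (-s) (A (offs (-o) (offs o ω))
    (R.U s (ψ (offs (-o) (offs o ω))))))‖ₑ ^ 2 = _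
  rw [offs_neg]
  rfl

end Pool.Agent.H988.DJ
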