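import Pool.Agent.H988.DJ.Abs
import Pool.Agent.H988.RS.Cy
import Pool.Graph.R_seed8.H5R2.NBA.SPEC

/-! # The limits vanish almost surely -/

set_option autoImplicit false

open MeasureTheory Filter Topology
open scoped BigOperators ENNReal NNReal InnerProductSpace ComplexConjugate

namespace Pool.Agent.H988.DJ

open Pool.Agent.H5R2.NB Pool.Agent.H5R2.NBA Pool.Agent.H988.WM Pool.Agent.H988.RS
open Pool.Agent.K7.H83.SI

variable {d : ℕ}

theorem dlx_apply (x y : Site d) : (dl x) y = if y = x then (1 : ℂ) else 0 := by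
  unfold dl
  rw [lp.single_apply]
  by_cases h : y = x
  · subst h; simp
  · simp [h]

theorem inner_dlx (x : Site d) (f : L2 (Site d)) : ⟪dl x, f⟫_ℂ = f x := by
  unfold dl
  rw [lp.inner_single_left]
  simp

/-- changing the potential at any site gives a rank one family -/
theorem fam_x {c : ℝ} {ev : (Site d → ℝ) → UG (L2 (Site d))} (hev : ∀ V, IsGrp c V (ev V))
    (x₀ : Site d) (V : Site d → ℝ) : Fam (fun κ => ev (Function.update V x₀ κ)) (dl x₀) := by
  have hUN : St_UN := ALL.a_UN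
  intro κ κ' t x
  have h0 := hev (Function.update V x₀ κ') x
  set W := ev (Function.update V x₀ κ) with hW
  set W' := ev (Function.update V x₀ κ') with hW'
  set h : ℝ → L2 (Site d) := fun s =>
    (-(Complex.I * ((κ' - κ : ℝ) : ℂ))) • (⟪dl x₀, W'.U s x⟫_ℂ • dl x₀) with hh
  have hcont : Continuous h := by
    have h1 : Continuous fun s => W'.U s x := W'.cont' x
    have h2 : Continuous fun s => ⟪dl x₀, W'.U s x⟫_ℂ :=
      Continuous.inner continuous_const h1
    have h3 : Continuous fun s => ⟪dl x₀, W'.U s x⟫_ℂ • dl x₀ :=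
      h2.smul (continuous_const (y := dl x₀))
    exact h3.const_smul (-(Complex.I * ((κ' - κ : ℝ) : ℂ)))
  have hsol : IsSol c (Function.update V x₀ κ) (fun t => W'.U t x) h := by
    refine ⟨h0.1, fun s y => ?_⟩
    have h3 := h0.2 s y
    convert h3 using 1
    have e1 : (h s) y = -(Complex.I * ((κ' - κ : ℝ) : ℂ)) *
        ((W'.U s x) x₀ * (if y = x₀ then (1 : ℂ) else 0)) := by
      simp only [hh]
      rw [lp.coeFn_smul, Pi.smul_apply, lp.coeFn_smul, Pi.smul_apply, dlx_apply, inner_dlx,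
        smul_eq_mul, smul_eq_mul]
    have e2 : ((0 : L2 (Site d))) y = 0 := rfl
    simp only [e1, e2]
    by_cases hy : y = x₀
    · subst hy
      simp only [Function.update_self, if_true]
      push_cast
      ring
    · simp only [Function.update_of_ne hy, if_neg hy]
      ring
  have h4 := hUN d c (Function.update V x₀ κ) W (hev _) (fun t => W'.U t x) h hcont hsol t
  have h5 : ∀ s, W.U (t - s) (h s) = (-(Complex.I * ((κ' - κ : ℝ) : ℂ))) •
      (⟪dl x₀, W'.U s x⟫_ℂ • W.U (t - s) (dl x₀)) := by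
    intro s
    simp only [hh]
    rw [map_smul, map_smul]
  simp only [h5] at h4
  rw [intervalIntegral.integral_smul, W'.zero'] at h4
  show W'.U t x = W.U t x - (Complex.I * ((κ' - κ : ℝ) : ℂ)) •
      ∫ s in (0 : ℝ)..t, ⟪dl x₀, W'.U s x⟫_ℂ • W.U (t - s) (dl x₀)
  rw [h4, neg_smul, ← sub_eq_add_neg]

/-- vectors with absolutely continuous spectral measure -/
theorem hac_of_sm {W : UG (L2 (Site d))} {ψ : L2 (Site d)} (h : sm W ψ ≪ volume) : ψ ∈ HAC W :=
  t_SPEC (Site d) W ψ ⟨sm W ψ, inferInstance, h, fun t => sm_inner W ψ t⟩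

/-- a fixed dynamics has a Lebesgue null set which carries all its singular vectors -/
theorem exists_null (R : UG (L2 (Site d))) :
    ∃ N : Set ℝ, MeasurableSet N ∧ volume N = 0 ∧ ∀ u ∈ sg R, sm R u Nᶜ = 0 := by
  obtain ⟨t, hts, htc, hst⟩ := (TopologicalSpace.IsSeparable.of_separableSpace
    (sg R : Set (L2 (Site d)))).exists_countable_dense_subset
  have h1 : ∀ u : L2 (Site d), ∃ S : Set ℝ, MeasurableSet S ∧ volume S = 0 ∧
      (u ∈ sg R → sm R u Sᶜ = 0) := by
    intro u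
    by_cases hu : u ∈ sg R
    · obtain ⟨S, hS, h2, h3⟩ := sg_sing hu
      exact ⟨Sᶜ, hS.compl, h3, fun _ => by rwa [compl_compl]⟩
    · exact ⟨∅, MeasurableSet.empty, measure_empty, fun h => absurd h hu⟩
  choose S hS hS0 hS1 using h1
  have hNm : MeasurableSet (⋃ u ∈ t, S u) := MeasurableSet.biUnion htc fun u _ => hS u
  refine ⟨⋃ u ∈ t, S u, hNm, ?_, ?_⟩
  · exact (measure_biUnion_null_iff htc).2 fun u _ => hS0 u
  · intro u hu
    have h2 : t ⊆ nul R (⋃ u ∈ t, S u)ᶜ := by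
      intro v hv
      refine mem_nul.2 (measure_mono_null ?_ (hS1 v (hts hv)))
      exact Set.compl_subset_compl.2 (Set.subset_biUnion_of_mem hv)
    have h3 : closure t ⊆ nul R (⋃ u ∈ t, S u)ᶜ := closure_minimal h2 (nul_closed _ _)
    exact mem_nul.1 (h3 (hst hu))

/-- the limits are concentrated on the singular part, at one site -/
theorem site_sing {c : ℝ} {ev : (Site d → ℝ) → UG (L2 (Site d))} (hev : ∀ V, IsGrp c V (ev V))
    (R : UG (L2 (Site d))) (ν : Measure ℝ) [IsProbabilityMeasure ν] (hν : ∀ κ : ℝ, ν {κ} ≠ 1)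
    (Nk : ℕ → ℕ) (hNk : Tendsto Nk atTop atTop)
    (hG : ∀ᵐ V ∂(PP d ν), ∃ B : L2 (Site d) →L[ℂ] L2 (Site d), GoodQ R (ev V) Nk B) :
    ∀ᵐ V ∂(PP d ν), ∀ x : Site d, ∀ B : L2 (Site d) →L[ℂ] L2 (Site d), GoodQ R (ev V) Nk B →
      ∀ φ ∈ HAC R, ⟪φ, B (dl x)⟫_ℂ = 0 := by
  rw [ae_all_iff]
  intro x
  have hmp := resample x ν
  have h1 : ∀ᵐ p ∂((PP d ν).prod ν), ∃ B : L2 (Site d) →L[ℂ] L2 (Site d),
      GoodQ R (ev (Function.update p.1 x p.2)) Nk B :=
    hmp.quasiMeasurePreserving.ae hG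
  have h2 := Measure.ae_ae_of_ae_prod h1
  filter_upwards [h2] with V hV B hB φ hφ
  have h3 : ∃ k, k ≠ V x ∧ ∃ B : L2 (Site d) →L[ℂ] L2 (Site d),
      GoodQ R (ev (Function.update V x k)) Nk B := by
    by_contra h
    have h4 : ∀ᵐ k ∂ν, k = V x := by
      filter_upwards [hV] with k hk
      by_contra hne
      exact h ⟨k, hne, hk⟩
    have h5 : ν {V x} = 1 := by
      rw [← prob_compl_eq_zero_iff (measurableSet_singleton _)]
      exact h4
    exact hν _ h5
  obtain ⟨k, hk, B', hB'⟩ := h3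
  have hup : Function.update V x (V x) = V := Function.update_eq_self x V
  refine w6Q_hac R (fun κ => ev (Function.update V x κ)) (dl x) (fam_x hev x V) hk Nk hNk B' B
    hB' ?_ φ hφ
  simpa only [hup] using hB

/-- **laws with a density**: the limits vanish almost surely, for any fixed comparison dynamics -/
theorem fixed_zero {c : ℝ} {ev : (Site d → ℝ) → UG (L2 (Site d))} (hev : ∀ V, IsGrp c V (ev V))
    (R : UG (L2 (Site d))) (ν : Measure ℝ) [IsProbabilityMeasure ν] (hν : ν ≪ volume)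
    (Nk : ℕ → ℕ) (hNk : Tendsto Nk atTop atTop)
    (hG : ∀ᵐ V ∂(PP d ν), ∃ B : L2 (Site d) →L[ℂ] L2 (Site d), GoodQ R (ev V) Nk B) :
    ∀ᵐ V ∂(PP d ν), ∀ B : L2 (Site d) →L[ℂ] L2 (Site d), GoodQ R (ev V) Nk B → B = 0 := by
  have hν1 : ∀ κ : ℝ, ν {κ} ≠ 1 := fun κ => by
    rw [hν (by simp : volume {κ} = 0)]
    exact zero_ne_one
  obtain ⟨N, hN, hN0, hN1⟩ := exists_null R
  have h1 : ∀ᵐ V ∂(PP d ν), ∀ x : Site d, sm (ev V) (dl x) N = 0 := by
    rw [ae_all_iff]
    intro x
    have hm : Measurable fun V => sm (ev V) (dl x) N :=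
      (Measure.measurable_coe hN).comp (sm_measurable hev x)
    have hBm : MeasurableSet {V : Site d → ℝ | sm (ev V) (dl x) N ≠ 0} :=
      hm (measurableSet_singleton (0 : ℝ≥0∞)).compl
    have h2 : ∀ᵐ V ∂(PP d ν), V ∉ {V : Site d → ℝ | sm (ev V) (dl x) N ≠ 0} := by
      refine ae_resample x hBm fun V => ?_
      exact ae_iff.1 (hν.ae_le (spec_avg hev x V hN hN0))
    filter_upwards [h2] with V hV
    by_contra h3
    exact hV h3
  filter_upwards [h1, site_sing hev R ν hν1 Nk hNk hG] with V e1 e2 B hB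
  have h2 : ∀ x : Site d, B (dl x) = 0 := by
    intro x
    have h3 : B (dl x) ∈ sg R := fun ψ hψ => e2 x B hB ψ (hac_of_sm hψ)
    have h4 : B (dl x) ∈ nul R N := mem_nul.2 (nul_inter (good_comm hNk hB) hN (e1 x))
    exact eq_zero_of_nul h4 (mem_nul.2 (hN1 _ h3))
  have h3 : closure (Submodule.span ℂ (Set.range (dl (d := d))) : Set (L2 (Site d))) ⊆
      LinearMap.ker B.toLinearMap := by
    refine closure_minimal ?_ B.isClosed_ker
    have h5 : Submodule.span ℂ (Set.range (dl (d := d))) ≤ LinearMap.ker B.toLinearMap := by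
      rw [Submodule.span_le]
      rintro _ ⟨y, rfl⟩
      exact h2 y
    exact h5
  ext1 u
  exact h3 (LIMB.dl_dense d u)

/-- **any law which is not a point mass**: the limits vanish almost surely if the comparison
dynamics has purely absolutely continuous spectrum -/
theorem fixed_zero_ac {c : ℝ} {ev : (Site d → ℝ) → UG (L2 (Site d))} (hev : ∀ V, IsGrp c V (ev V))
    (R : UG (L2 (Site d))) (hR : ∀ ψ, sm R ψ ≪ volume) (ν : Measure ℝ) [IsProbabilityMeasure ν]
    (hν : ∀ κ : ℝ, ν {κ} ≠ 1) (Nk : ℕ → ℕ) (hNk : Tendsto Nk atTop atTop)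
    (hG : ∀ᵐ V ∂(PP d ν), ∃ B : L2 (Site d) →L[ℂ] L2 (Site d), GoodQ R (ev V) Nk B) :
    ∀ᵐ V ∂(PP d ν), ∀ B : L2 (Site d) →L[ℂ] L2 (Site d), GoodQ R (ev V) Nk B → B = 0 := by
  filter_upwards [site_sing hev R ν hν Nk hNk hG] with V e2 B hB
  have h2 : ∀ x : Site d, B (dl x) = 0 := fun x =>
    inner_self_eq_zero.1 (e2 x B hB (B (dl x)) (hac_of_sm (hR _)))
  have h3 : closure (Submodule.span ℂ (Set.range (dl (d := d))) : Set (L2 (Site d))) ⊆
      LinearMap.ker B.toLinearMap := by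
    refine closure_minimal ?_ B.isClosed_ker
    have h5 : Submodule.span ℂ (Set.range (dl (d := d))) ≤ LinearMap.ker B.toLinearMap := by
      rw [Submodule.span_le]
      rintro _ ⟨y, rfl⟩
      exact h2 y
    exact h5
  ext1 u
  exact h3 (LIMB.dl_dense d u)

end Pool.Agent.H988.DJ
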